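import Mathlib

set_option autoImplicit false

/-! # Approximate roots of monic polynomials -/

namespace Pool.Agent.TH907.ML

open Polynomial

theorem monic_sum_coeff {R : Type*} [CommRing R] [Nontrivial R] {a M : ℕ} {T S : R[X]}
    (hT : T.Monic) (hTd : T.natDegree = a) (hS : S.Monic) (hSd : S.natDegree = a) (hM : 1 ≤ M) :
    (∑ i ∈ Finset.range M, T ^ i * S ^ (M - 1 - i)).natDegree ≤ a * (M - 1) ∧
    (∑ i ∈ Finset.range M, T ^ i * S ^ (M - 1 - i)).coeff (a * (M - 1)) = (M : R) := by
  have h1 : ∀ i ∈ Finset.range M, (T ^ i * S ^ (M - 1 - i)).Monic ∧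
      (T ^ i * S ^ (M - 1 - i)).natDegree = a * (M - 1) := by
    intro i hi
    rw [Finset.mem_range] at hi
    refine ⟨(hT.pow i).mul (hS.pow _), ?_⟩
    rw [(hT.pow i).natDegree_mul (hS.pow _), hT.natDegree_pow, hS.natDegree_pow, hTd, hSd,
      ← add_mul, show i + (M - 1 - i) = M - 1 by omega, mul_comm]
  constructor
  · apply natDegree_sum_le_of_forall_le
    intro i hi
    exact (h1 i hi).2.le
  · rw [finsetSum_coeff, Finset.sum_congr rfl (g := fun _ => (1 : R))]
    · simp
    · intro i hi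
      rw [← (h1 i hi).2]
      exact (h1 i hi).1.coeff_natDegree

/-- approximate roots -/
theorem approx_root {R : Type*} [CommRing R] [Nontrivial R] [Algebra ℚ R] {M : ℕ} (hM : 1 ≤ M)
    (a b : ℕ) (A : R[X]) (hA : A.Monic) (hAd : A.natDegree = b + a * M) (j : ℕ) (hj : j ≤ a) :
    ∃ T : R[X], T.Monic ∧ T.natDegree = a ∧
      (X ^ b * T ^ M - A).degree < ((b + a * M - j : ℕ) : WithBot ℕ) := by
  induction j with
  | zero =>
    refine ⟨X ^ a, monic_X_pow a, natDegree_X_pow a, ?_⟩
    have h1 : (X ^ b * (X ^ a) ^ M : R[X]).Monic := (monic_X_pow b).mul ((monic_X_pow a).pow M)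
    have h2 : (X ^ b * (X ^ a) ^ M : R[X]).natDegree = b + a * M := by
      rw [← pow_mul, ← pow_add, natDegree_X_pow]
    have h3 : (X ^ b * (X ^ a) ^ M : R[X]).degree = ((b + a * M : ℕ) : WithBot ℕ) := by
      rw [degree_eq_natDegree h1.ne_zero, h2]
    have h4 : A.degree = ((b + a * M : ℕ) : WithBot ℕ) := by
      rw [degree_eq_natDegree hA.ne_zero, hAd]
    rw [Nat.sub_zero, ← h3]
    exact degree_sub_lt_left (h3.trans h4.symm) h1.ne_zero (by rw [h1.leadingCoeff, hA.leadingCoeff])
  | succ j ih =>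
    obtain ⟨T, hT, hTd, hE⟩ := ih (by omega)
    obtain ⟨E, hEdef⟩ : ∃ E, E = X ^ b * T ^ M - A := ⟨_, rfl⟩
    rw [← hEdef] at hE
    have haM : a ≤ a * M := Nat.le_mul_of_pos_right _ (by omega)
    obtain ⟨N, hN⟩ : ∃ N, N = b + a * M - (j + 1) := ⟨_, rfl⟩
    have hN1 : b + a * M - j = N + 1 := by omega
    rw [hN1] at hE
    have hEn : E.natDegree ≤ N := by
      rw [natDegree_le_iff_coeff_eq_zero]
      intro l hl
      exact (degree_lt_iff_coeff_zero _ _).1 hE l (by omega)
    obtain ⟨e, he⟩ : ∃ e, e = E.coeff N := ⟨_, rfl⟩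
    obtain ⟨u, hu⟩ : ∃ u : R, (M : R) * u = 1 := by
      refine ⟨algebraMap ℚ R (1 / M), ?_⟩
      have h1 : (M : R) = algebraMap ℚ R M := by simp
      have hM0 : (M : ℚ) ≠ 0 := by
        have : M ≠ 0 := by omega
        exact_mod_cast this
      rw [h1, ← map_mul]
      rw [mul_one_div_cancel hM0, map_one]
    obtain ⟨s, hs⟩ : ∃ s : R[X], s = C (u * e) * X ^ (a - (j + 1)) := ⟨_, rfl⟩
    have hsd : s.natDegree ≤ a - (j + 1) := by
      rw [hs]
      exact natDegree_C_mul_X_pow_le _ _
    have hsc : s.coeff (a - (j + 1)) = u * e := by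
      rw [hs, coeff_C_mul, coeff_X_pow, if_pos rfl, mul_one]
    have hsT : s.degree < T.degree := by
      rw [degree_eq_natDegree hT.ne_zero, hTd]
      refine lt_of_le_of_lt (degree_le_natDegree) ?_
      have : s.natDegree < a := by omega
      exact_mod_cast this
    have hT' : (T - s).Monic := hT.sub_of_left hsT
    have hT'd : (T - s).natDegree = a := by
      rw [natDegree_sub_eq_left_of_natDegree_lt (by omega), hTd]
    refine ⟨T - s, hT', hT'd, ?_⟩
    have hg := (Commute.all (T - s) T).geom_sum₂_mul M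
    obtain ⟨S, hS⟩ : ∃ S, S = ∑ i ∈ Finset.range M, (T - s) ^ i * T ^ (M - 1 - i) := ⟨_, rfl⟩
    obtain ⟨hS1, hS2⟩ := monic_sum_coeff hT' hT'd hT hTd hM
    rw [← hS] at hg hS1 hS2
    have h1 : X ^ b * (T - s) ^ M - A = E - X ^ b * (s * S) := by
      rw [hEdef]
      have : (T - s) ^ M = T ^ M - s * S := by
        linear_combination -hg
      rw [this]
      ring
    have hexp : b + ((a - (j + 1)) + a * (M - 1)) = N := by
      have h0 : a * M = a * (M - 1) + a := by
        obtain ⟨K, hK⟩ : ∃ K, M = K + 1 := Nat.exists_eq_add_of_le' hM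
        rw [hK, Nat.add_sub_cancel, mul_add, mul_one]
      omega
    have h2 : (X ^ b * (s * S)).natDegree ≤ N := by
      refine natDegree_mul_le.trans ?_
      have h3 : (s * S).natDegree ≤ (a - (j + 1)) + a * (M - 1) :=
        natDegree_mul_le.trans (add_le_add hsd hS1)
      rw [natDegree_X_pow]
      omega
    have h3 : (X ^ b * (s * S)).coeff N = e := by
      rw [← hexp, coeff_mul_add_eq_of_natDegree_le (natDegree_X_pow b).le
        (natDegree_mul_le.trans (add_le_add hsd hS1)), coeff_mul_add_eq_of_natDegree_le hsd hS1,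
        coeff_X_pow, if_pos rfl, one_mul, hsc, hS2]
      linear_combination e * hu
    rw [h1, ← hN]
    have h4 : (E - X ^ b * (s * S)).natDegree ≤ N := (natDegree_sub_le _ _).trans (max_le hEn h2)
    have h5 : (E - X ^ b * (s * S)).coeff N = 0 := by rw [coeff_sub, h3, he, sub_self]
    rw [degree_lt_iff_coeff_zero]
    intro l hl
    rcases eq_or_lt_of_le hl with h6 | h6
    · rw [← h6]
      exact h5
    · exact coeff_eq_zero_of_natDegree_lt (lt_of_le_of_lt h4 h6)

end Pool.Agent.TH907.ML
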