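import Mathlib
import Pool.Agent.TH653.MB.A7

set_option autoImplicit false

/-! # Faber expansions and sums over the centres -/

namespace Pool.Agent.TH907.ML

open Complex Set Topology Filter Metric MeasureTheory N62a1eb23 Pool.Agent.H712R2 Pool.Agent.H713R2
open Pool.Agent.TH653.MB

variable {d : ℕ} {β : ℂ → ℂ}

/-- the Faber expansion -/
theorem coef_gen (hβ : IsBeta d β) (t : ℂ) (G : Polynomial ℂ) (E : ℕ) {H : ℂ → ℂ}
    (hHd : DifferentiableOn ℂ H (ball 0 1))
    (hHe : ∀ x ∈ ball (0 : ℂ) 1, x ≠ 0 → H x = x ^ E * G.eval (x⁻¹ * β x)) :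
    G.eval t = tc H E - ∑ b ∈ Finset.range E, tc (LL β t) b * tc H (E - (b + 1)) := by
  obtain ⟨R, hR0, hR1, hhne⟩ : ∃ R : ℝ, 0 < R ∧ R ≤ 1 ∧ ∀ x ∈ ball (0 : ℂ) R, hh β t x ≠ 0 := by
    have h1 : ∀ᶠ x in 𝓝 (0 : ℂ), hh β t x ≠ 0 :=
      (hh_analyticAt hβ t).continuousAt.eventually_ne (by rw [hh_zero hβ]; exact one_ne_zero)
    obtain ⟨s, hs, hsub⟩ := Metric.mem_nhds_iff.1 h1
    exact ⟨min s 1, lt_min hs one_pos, min_le_right _ _, fun x hx =>
      hsub (ball_subset_ball (min_le_left _ _) hx)⟩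
  have hRsub : ball (0 : ℂ) R ⊆ ball 0 1 := ball_subset_ball hR1
  have hL : DifferentiableOn ℂ (LL β t) (ball 0 R) := by
    unfold LL
    exact (((hh_diff hβ t).deriv isOpen_ball).mono hRsub).mul
      (((hh_diff hβ t).mono hRsub).inv hhne)
  set W : ℂ → ℂ := fun x => x * LL β t x - 1 with hW
  have hxL : DifferentiableOn ℂ (fun x => x * LL β t x) (ball 0 R) := differentiableOn_id.mul hL
  have hWd : DifferentiableOn ℂ W (ball 0 R) := hxL.sub (differentiableOn_const _)
  set pt : Polynomial ℂ := G - Polynomial.C (G.eval t) with hpt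
  have hroot : pt.IsRoot t := by simp [hpt, Polynomial.IsRoot.def]
  obtain ⟨Q, hQ⟩ := Polynomial.dvd_iff_isRoot.mpr hroot
  obtain ⟨R', hR'⟩ := exists_antideriv Q
  have hQe : ∀ c, G.eval c - G.eval t = (c - t) * Q.eval c := by
    intro c
    have := congrArg (Polynomial.eval c) hQ
    simpa [hpt] using this
  obtain ⟨s, hs⟩ : ∃ s, s = R / 2 := ⟨_, rfl⟩
  have hs0 : 0 < s := by rw [hs]; linarith
  have hsR : s < R := by rw [hs]; linarith
  have hcurve : ∮ z in C(0, s), Q.eval (z⁻¹ * β z) * ((z⁻¹ * β z - t) * (W z / z)) = 0 := by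
    apply circleIntegral.integral_eq_zero_of_hasDerivWithinAt (f := fun z => R'.eval (z⁻¹ * β z))
      hs0.le
    intro z hz
    have hzn : ‖z‖ = s := mem_sphere_zero_iff_norm.mp hz
    have hz0 : z ≠ 0 := by
      rintro rfl
      rw [norm_zero] at hzn
      linarith
    have hzR : z ∈ ball (0 : ℂ) R := by rw [mem_ball_zero_iff, hzn]; exact hsR
    have hzb : z ∈ ball (0 : ℂ) 1 := hRsub hzR
    have hβz : HasDerivAt β (deriv β z) z :=
      (hβ.diff.differentiableAt (isOpen_ball.mem_nhds hzb)).hasDerivAt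
    have h1 : HasDerivAt (fun z => z⁻¹ * β z) (-(z ^ 2)⁻¹ * β z + z⁻¹ * deriv β z) z :=
      (hasDerivAt_inv hz0).mul hβz
    have h2 : HasDerivAt (fun c => R'.eval c) (R'.derivative.eval (z⁻¹ * β z)) (z⁻¹ * β z) :=
      R'.hasDerivAt _
    have h3 := h2.comp z h1
    rw [hR'] at h3
    refine HasDerivAt.hasDerivWithinAt ?_
    suffices hval : (z⁻¹ * β z - t) * (W z / z) = -(z ^ 2)⁻¹ * β z + z⁻¹ * deriv β z by
      rw [hval]
      exact h3
    have hne := hhne z hzR
    have hdh : deriv (hh β t) z = deriv β z - t := by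
      have : HasDerivAt (hh β t) (deriv β z - t * 1) z := hβz.sub ((hasDerivAt_id z).const_mul t)
      rw [this.deriv, mul_one]
    have hWz : W z = z * ((deriv β z - t) * (hh β t z)⁻¹) - 1 := by
      simp only [hW]
      unfold LL
      rw [hdh]
    rw [hWz]
    have h4 : z⁻¹ * β z - t = z⁻¹ * hh β t z := by
      unfold hh
      field_simp
    rw [h4]
    have h5 : z⁻¹ * hh β t z * ((z * ((deriv β z - t) * (hh β t z)⁻¹) - 1) / z) =
        z⁻¹ * ((deriv β z - t) - hh β t z / z) := by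
      field_simp
    rw [h5]
    unfold hh
    field_simp
    ring
  have hcongr : ∮ z in C(0, s), Q.eval (z⁻¹ * β z) * ((z⁻¹ * β z - t) * (W z / z)) =
      ∮ z in C(0, s), ((fun x => W x * H x) z / z ^ (E + 1)
        - G.eval t * (W z / z ^ (0 + 1))) := by
    apply circleIntegral.integral_congr hs0.le
    intro z hz
    have hzn : ‖z‖ = s := mem_sphere_zero_iff_norm.mp hz
    have hz0 : z ≠ 0 := by
      rintro rfl
      rw [norm_zero] at hzn
      linarith
    beta_reduce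
    rw [hHe z (hRsub (by rw [mem_ball_zero_iff, hzn]; exact hsR)) hz0, zero_add, pow_one]
    have h1 := hQe (z⁻¹ * β z)
    have h2 : Q.eval (z⁻¹ * β z) * ((z⁻¹ * β z - t) * (W z / z)) =
        (G.eval (z⁻¹ * β z) - G.eval t) * (W z / z) := by
      rw [h1]; ring
    rw [h2, pow_succ]
    have hzm : z ^ E ≠ 0 := pow_ne_zero _ hz0
    field_simp
  have hF1d : DifferentiableOn ℂ (fun x => W x * H x) (ball 0 R) :=
    hWd.mul (hHd.mono hRsub)
  have hsph : sphere (0 : ℂ) s ⊆ ball 0 R := by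
    intro z hz
    rw [mem_sphere_zero_iff_norm] at hz
    rw [mem_ball_zero_iff, hz]; exact hsR
  have hsph0 : ∀ z ∈ sphere (0 : ℂ) s, z ≠ 0 := by
    rintro z hz rfl
    rw [mem_sphere_zero_iff_norm, norm_zero] at hz
    linarith
  have hI1 : CircleIntegrable (fun z => (fun x => W x * H x) z / z ^ (E + 1)) 0 s := by
    apply ContinuousOn.circleIntegrable hs0.le
    apply ContinuousOn.div (hF1d.continuousOn.mono hsph) (by fun_prop)
    intro z hz
    exact pow_ne_zero _ (hsph0 z hz)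
  have hI2 : CircleIntegrable (fun z => G.eval t * (W z / z ^ (0 + 1))) 0 s := by
    apply ContinuousOn.circleIntegrable hs0.le
    apply ContinuousOn.mul continuousOn_const
    apply ContinuousOn.div (hWd.continuousOn.mono hsph) (by fun_prop)
    intro z hz
    exact pow_ne_zero _ (hsph0 z hz)
  rw [hcongr, circleIntegral.integral_sub hI1 hI2, circleIntegral.integral_const_mul,
    circleIntegral_tc hs0 hsR hF1d E, circleIntegral_tc hs0 hsR hWd 0] at hcurve
  have hW0 : tc W 0 = -1 := by rw [tc_zero]; simp [hW]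
  have hWm : ∀ b, tc W (b + 1) = tc (LL β t) b := by
    intro k
    have := tc_sub hR0 hxL (differentiableOn_const (c := (1 : ℂ))) (k + 1)
    rw [tc_const_succ, sub_zero, tc_id_mul hR0 hL] at this
    exact this
  have hprod : tc (fun x => W x * H x) E =
      ∑ b ∈ Finset.range E, tc (LL β t) b * tc H (E - (b + 1)) - tc H E := by
    rw [tc_mul hR0 hWd (hHd.mono hRsub)]
    rw [Finset.Nat.sum_antidiagonal_eq_sum_range_succ_mk, Finset.sum_range_succ']
    simp only [hWm, hW0, Nat.sub_zero]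
    ring
  rw [hprod, hW0] at hcurve
  have h4 : (2 * Real.pi * I : ℂ) ≠ 0 := Complex.two_pi_I_ne_zero
  have h5 : (2 * Real.pi * I : ℂ) * ((∑ b ∈ Finset.range E, tc (LL β t) b * tc H (E - (b + 1)) -
      tc H E) + G.eval t) = 0 := by
    linear_combination hcurve
  rcases mul_eq_zero.mp h5 with h6 | h6
  · exact absurd h6 h4
  · linear_combination h6

theorem sum_map_aux (S : Multiset ℂ) (c : ℂ) (E : ℕ) (u : ℕ → ℂ) (v : ℂ → ℕ → ℂ) :
    (S.map (fun w => c - ∑ b ∈ Finset.range E, v w b * u b)).sum =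
      Multiset.card S * c - ∑ b ∈ Finset.range E, (S.map (fun w => v w b)).sum * u b := by
  induction S using Multiset.induction with
  | empty => simp
  | cons a S ih =>
    simp only [Multiset.map_cons, Multiset.sum_cons, Multiset.card_cons, ih, add_mul,
      Finset.sum_add_distrib]
    push_cast
    ring

/-- sums of polynomials over the roots of `P_{i+1}` -/
theorem sum_roots (hd : 2 ≤ d) (hβ : IsBeta d β) (G : Polynomial ℂ) (E : ℕ) {H : ℂ → ℂ}
    (hHd : DifferentiableOn ℂ H (ball 0 1))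
    (hHe : ∀ x ∈ ball (0 : ℂ) 1, x ≠ 0 → H x = x ^ E * G.eval (x⁻¹ * β x)) {i : ℕ}
    (hE : E + 1 < d ^ (i + 1)) :
    ((PP d (i + 1)).roots.map (fun w => G.eval w)).sum = (d : ℂ) ^ i * tc H E := by
  have h1 : (PP d (i + 1)).roots.map (fun w => G.eval w) = (PP d (i + 1)).roots.map
      (fun w => tc H E - ∑ b ∈ Finset.range E, tc (LL β w) b * tc H (E - (b + 1))) := by
    apply Multiset.map_congr rfl
    intro w _
    exact coef_gen hβ w G E hHd hHe
  rw [h1, sum_map_aux, card_roots_PP hd]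
  have h2 : ∑ b ∈ Finset.range E,
      ((PP d (i + 1)).roots.map (fun w => tc (LL β w) b)).sum * tc H (E - (b + 1)) = 0 := by
    apply Finset.sum_eq_zero
    intro b hb
    rw [Finset.mem_range] at hb
    rw [← tc_BB hd hβ, tc_BB_low hd hβ (by omega), zero_mul]
  rw [h2, sub_zero]
  push_cast
  rfl

/-- exactness -/
theorem exact_id (hβ : IsBeta d β) (A B : Polynomial ℂ) (E D : ℕ) {HA HB : ℂ → ℂ}
    (hAd : DifferentiableOn ℂ HA (ball 0 1))
    (hAe : ∀ x ∈ ball (0 : ℂ) 1, x ≠ 0 → HA x = x ^ E * A.eval (x⁻¹ * β x))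
    (hBd : DifferentiableOn ℂ HB (ball 0 1))
    (hBe : ∀ x ∈ ball (0 : ℂ) 1, x ≠ 0 → HB x = x ^ D * B.eval (x⁻¹ * β x)) :
    tc (fun x => HA x * (x * deriv HB x - D * HB x)) (E + D) = 0 := by
  obtain ⟨R', hR'⟩ := exists_antideriv (A * B.derivative)
  have hs0 : (0 : ℝ) < 1 / 2 := by norm_num
  have hsR : (1 / 2 : ℝ) < 1 := by norm_num
  have hfac : ∀ z : ℂ, ‖z‖ = 1 / 2 → z ≠ 0 ∧ z ∈ ball (0 : ℂ) 1 := by
    intro z hz
    refine ⟨?_, by rw [mem_ball_zero_iff, hz]; norm_num⟩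
    rintro rfl
    rw [norm_zero] at hz
    norm_num at hz
  have hval : ∀ z : ℂ, ‖z‖ = 1 / 2 →
      HA z * (z * deriv HB z - D * HB z) / z ^ (E + D + 1) =
      A.eval (z⁻¹ * β z) * B.derivative.eval (z⁻¹ * β z) *
        (-(z ^ 2)⁻¹ * β z + z⁻¹ * deriv β z) := by
    intro z hz
    obtain ⟨hz0, hzb⟩ := hfac z hz
    have hβz : HasDerivAt β (deriv β z) z :=
      (hβ.diff.differentiableAt (isOpen_ball.mem_nhds hzb)).hasDerivAt
    have h1 : HasDerivAt (fun z => z⁻¹ * β z) (-(z ^ 2)⁻¹ * β z + z⁻¹ * deriv β z) z :=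
      (hasDerivAt_inv hz0).mul hβz
    have h2 : HasDerivAt (fun c => B.eval c) (B.derivative.eval (z⁻¹ * β z)) (z⁻¹ * β z) :=
      B.hasDerivAt _
    have h3 := h2.comp z h1
    have h4 := (hasDerivAt_pow D z).mul h3
    have h5 : HB =ᶠ[𝓝 z] fun x => x ^ D * B.eval (x⁻¹ * β x) := by
      filter_upwards [isOpen_ball.mem_nhds hzb, isOpen_ne.mem_nhds hz0] with x hx hx0
      exact hBe x hx hx0
    rw [h5.deriv_eq, h5.eq_of_nhds, hAe z hzb hz0]
    have h6 : deriv (fun x => x ^ D * B.eval (x⁻¹ * β x)) z = _ := h4.deriv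
    rw [h6]
    have h7 : z * ((D : ℂ) * z ^ (D - 1) * ((fun c => B.eval c) ∘ fun z => z⁻¹ * β z) z) =
        (D : ℂ) * (z ^ D * B.eval (z⁻¹ * β z)) := by
      rcases Nat.eq_zero_or_pos D with h | h
      · simp [h]
      · obtain ⟨D', rfl⟩ := Nat.exists_eq_add_of_le' h
        simp only [Nat.add_sub_cancel, pow_succ, Function.comp]
        ring
    rw [mul_add, h7]
    have hz1 : z ^ E ≠ 0 := pow_ne_zero _ hz0
    have hz2 : z ^ D ≠ 0 := pow_ne_zero _ hz0
    rw [pow_succ, pow_add]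
    field_simp
    ring
  have hcurve : ∮ z in C(0, (1 / 2 : ℝ)),
      HA z * (z * deriv HB z - D * HB z) / z ^ (E + D + 1) = 0 := by
    apply circleIntegral.integral_eq_zero_of_hasDerivWithinAt (f := fun z => R'.eval (z⁻¹ * β z))
      hs0.le
    intro z hz
    have hzn : ‖z‖ = 1 / 2 := mem_sphere_zero_iff_norm.mp hz
    obtain ⟨hz0, hzb⟩ := hfac z hzn
    rw [hval z hzn]
    have hβz : HasDerivAt β (deriv β z) z :=
      (hβ.diff.differentiableAt (isOpen_ball.mem_nhds hzb)).hasDerivAt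
    have h1 : HasDerivAt (fun z => z⁻¹ * β z) (-(z ^ 2)⁻¹ * β z + z⁻¹ * deriv β z) z :=
      (hasDerivAt_inv hz0).mul hβz
    have h2 : HasDerivAt (fun c => R'.eval c) (R'.derivative.eval (z⁻¹ * β z)) (z⁻¹ * β z) :=
      R'.hasDerivAt _
    have h3 := h2.comp z h1
    rw [hR', Polynomial.eval_mul] at h3
    exact h3.hasDerivWithinAt
  have hFd : DifferentiableOn ℂ (fun x => HA x * (x * deriv HB x - D * HB x)) (ball 0 1) :=
    hAd.mul ((differentiableOn_id.mul (hBd.deriv isOpen_ball)).sub (hBd.const_mul _))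
  rw [circleIntegral_tc hs0 hsR hFd (E + D)] at hcurve
  rcases mul_eq_zero.mp hcurve with h6 | h6
  · exact absurd h6 Complex.two_pi_I_ne_zero
  · exact h6

/-- vanishing of deep coefficients -/
theorem tc_deep_zero (hβ : IsBeta d β) (A B : Polynomial ℂ) {E D K : ℕ} (hE : 1 ≤ E)
    (hK : E + D < K) {HA HB : ℂ → ℂ} {C : ℝ}
    (hAd : DifferentiableOn ℂ HA (ball 0 1))
    (hAe : ∀ x ∈ ball (0 : ℂ) 1, x ≠ 0 → HA x = x ^ E * A.eval (x⁻¹ * β x))
    (hA1 : ∀ x ∈ ball (0 : ℂ) 1, ‖HA x - 1‖ ≤ C * ‖x‖ ^ K)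
    (hBd : DifferentiableOn ℂ HB (ball 0 1))
    (hBe : ∀ x ∈ ball (0 : ℂ) 1, x ≠ 0 → HB x = x ^ D * B.eval (x⁻¹ * β x)) :
    tc HB (E + D) = 0 := by
  have h := exact_id hβ A B E D hAd hAe hBd hBe
  have hxd : DifferentiableOn ℂ (fun x => x * deriv HB x) (ball 0 1) :=
    differentiableOn_id.mul (hBd.deriv isOpen_ball)
  have hF : DifferentiableOn ℂ (fun x => x * deriv HB x - D * HB x) (ball 0 1) :=
    hxd.sub (hBd.const_mul _)
  have hA1d : DifferentiableOn ℂ (fun x => HA x - 1) (ball 0 1) := hAd.sub_const _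
  have h2 : (fun x => HA x * (x * deriv HB x - D * HB x)) = fun x =>
      (HA x - 1) * (x * deriv HB x - D * HB x) + (x * deriv HB x - D * HB x) := by
    funext x
    ring
  have hAF : DifferentiableOn ℂ (fun x => (HA x - 1) * (x * deriv HB x - D * HB x)) (ball 0 1) :=
    hA1d.mul hF
  have hcB : DifferentiableOn ℂ (fun x => (D : ℂ) * HB x) (ball 0 1) := hBd.const_mul _
  rw [h2, tc_add one_pos hAF hF, tc_mul one_pos hA1d hF] at h
  have h3 : ∑ p ∈ Finset.HasAntidiagonal.antidiagonal (E + D), tc (fun x => HA x - 1) p.1 *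
      tc (fun x => x * deriv HB x - D * HB x) p.2 = 0 := by
    apply Finset.sum_eq_zero
    intro p hp
    rw [Finset.HasAntidiagonal.mem_antidiagonal] at hp
    rw [tc_eq_zero_of_order one_pos (show p.1 < K by omega) hA1d hA1, zero_mul]
  have h4 : tc (fun x => (D : ℂ) * HB x) (E + D) = D * tc HB (E + D) := by
    unfold tc
    rw [iteratedDeriv_const_mul_field]
    ring
  rw [h3, zero_add, tc_sub one_pos hxd hcB, tc_id_mul_deriv hBd, h4] at h
  have h5 : ((E : ℂ)) * tc HB (E + D) = 0 := by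
    push_cast at h
    linear_combination h
  rcases mul_eq_zero.mp h5 with h6 | h6
  · have : E ≠ 0 := by omega
    exact absurd (by exact_mod_cast h6) this
  · exact h6

end Pool.Agent.TH907.ML
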