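import Mathlib
import Pool.Agent.TH907.ML.M1
import Pool.Agent.TH907.ML.M2

set_option autoImplicit false

/-! # The Faber polynomials of degree `q d ^ n` -/

namespace Pool.Agent.TH907.ML

open Complex Set Topology Filter Metric MeasureTheory N62a1eb23 Pool.Agent.H712R2 Pool.Agent.H713R2
open Pool.Agent.TH653.MB
open Polynomial (X C)

/-- iterates of `y ↦ y ^ d + c`, in the variable `y = z ^ d` -/
noncomputable def PHI (K : Type) [CommRing K] (d : ℕ) : ℕ → Polynomial (Polynomial K)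
  | 0 => X + C X
  | r + 1 => (PHI K d r) ^ d + C X

theorem PHI_monic (K : Type) [CommRing K] [Nontrivial K] {d : ℕ} (hd : 2 ≤ d) (r : ℕ) :
    (PHI K d r).Monic ∧ (PHI K d r).natDegree = d ^ r := by
  induction r with
  | zero =>
    simp only [PHI, pow_zero]
    exact ⟨Polynomial.monic_X_add_C _, Polynomial.natDegree_X_add_C _⟩
  | succ r ih =>
    have h1 : ((PHI K d r) ^ d).natDegree = d ^ (r + 1) := by
      rw [ih.1.natDegree_pow, ih.2]
      ring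
    have h0 : 0 < d ^ (r + 1) := pow_pos (by omega) _
    have h2 : (C X : Polynomial (Polynomial K)).degree < ((PHI K d r) ^ d).degree := by
      apply Polynomial.degree_lt_degree
      rw [h1, Polynomial.natDegree_C]
      exact h0
    simp only [PHI]
    refine ⟨(ih.1.pow d).add_of_left h2, ?_⟩
    rw [Polynomial.natDegree_add_eq_left_of_natDegree_lt, h1]
    rw [h1, Polynomial.natDegree_C]
    exact h0

theorem PHI_map {K L : Type} [CommRing K] [CommRing L] (f : K →+* L) (d r : ℕ) :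
    (PHI K d r).map (Polynomial.mapRingHom f) = PHI L d r := by
  induction r with
  | zero => simp [PHI]
  | succ r ih => simp [PHI, ih]

theorem PHI_eval (d n r : ℕ) : (PHI ℂ d r).eval ((PP d (n + 1)) ^ d) = PP d (n + 2 + r) := by
  induction r with
  | zero =>
    simp only [PHI, Polynomial.eval_add, Polynomial.eval_X, Polynomial.eval_C]
    rfl
  | succ r ih =>
    simp only [PHI, Polynomial.eval_add, Polynomial.eval_pow, Polynomial.eval_C, ih]
    rfl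

variable {d : ℕ} {β : ℂ → ℂ}

/-- `x ^ D p (ψ)` as an analytic function of `x` -/
noncomputable def hom (β : ℂ → ℂ) (p : Polynomial ℂ) (D : ℕ) : ℂ → ℂ := fun x =>
  ∑ a ∈ Finset.range (D + 1), p.coeff a * (β x) ^ a * x ^ (D - a)

theorem hom_diff (hβ : IsBeta d β) (p : Polynomial ℂ) (D : ℕ) :
    DifferentiableOn ℂ (hom β p D) (ball 0 1) := by
  have := hβ.diff
  unfold hom
  fun_prop

theorem hom_eval (p : Polynomial ℂ) {D : ℕ} (hp : p.natDegree ≤ D) {x : ℂ} (hx : x ≠ 0) :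
    hom β p D x = x ^ D * p.eval (x⁻¹ * β x) := by
  rw [Polynomial.eval_eq_sum_range' (Nat.lt_succ_of_le hp), Finset.mul_sum]
  apply Finset.sum_congr rfl
  intro a ha
  rw [Finset.mem_range] at ha
  have h1 : x ^ D = x ^ (D - a) * x ^ a := by rw [← pow_add]; congr 1; omega
  rw [h1, mul_pow, inv_pow]
  have := pow_ne_zero a hx
  field_simp

/-- a norm -/
noncomputable def nb (p : Polynomial ℂ) (D : ℕ) : ℝ :=
  ∑ a ∈ Finset.range (D + 1), ‖p.coeff a‖ * 2 ^ a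

theorem nb_nonneg (p : Polynomial ℂ) (D : ℕ) : 0 ≤ nb p D :=
  Finset.sum_nonneg fun _ _ => by positivity

theorem hom_norm (hβ : IsBeta d β) (p : Polynomial ℂ) (D : ℕ) {x : ℂ} (hx : x ∈ ball (0 : ℂ) 1) :
    ‖hom β p D x‖ ≤ nb p D := by
  unfold hom nb
  refine (norm_sum_le _ _).trans (Finset.sum_le_sum fun a _ => ?_)
  rw [norm_mul, norm_mul, norm_pow, norm_pow]
  have h1 := hβ.bound x hx
  rw [mem_ball_zero_iff] at hx
  calc ‖p.coeff a‖ * ‖β x‖ ^ a * ‖x‖ ^ (D - a) ≤ ‖p.coeff a‖ * 2 ^ a * 1 := by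
        gcongr
        exact pow_le_one₀ (norm_nonneg _) hx.le
    _ = ‖p.coeff a‖ * 2 ^ a := mul_one _

theorem eval_norm (p : Polynomial ℂ) {D : ℕ} (hp : p.natDegree ≤ D) {w : ℂ} (hw : ‖w‖ ≤ 2) :
    ‖p.eval w‖ ≤ nb p D := by
  rw [Polynomial.eval_eq_sum_range' (Nat.lt_succ_of_le hp)]
  unfold nb
  refine (norm_sum_le _ _).trans (Finset.sum_le_sum fun a _ => ?_)
  rw [norm_mul, norm_pow]
  gcongr

/-- `x ^ (B d ^ (n + 1) + D) S (P_{n+1} ^ d)` -/
noncomputable def PhiS (d : ℕ) (β : ℂ → ℂ) (S : Polynomial (Polynomial ℂ)) (B D n : ℕ) : ℂ → ℂ :=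
  fun x => ∑ j ∈ Finset.range (B + 1), hom β (S.coeff j) D x * (BB d β n x) ^ (d * j) *
    x ^ ((B - j) * d ^ (n + 1))

theorem PhiS_diff (hβ : IsBeta d β) (S : Polynomial (Polynomial ℂ)) (B D n : ℕ) :
    DifferentiableOn ℂ (PhiS d β S B D n) (ball 0 1) := by
  have h1 := BB_diff (d := d) hβ.diff n
  have h2 := fun j => hom_diff hβ (S.coeff j) D
  unfold PhiS
  apply DifferentiableOn.fun_sum
  intro j _
  exact ((h2 j).mul (h1.pow _)).mul (by fun_prop)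

theorem PhiS_eval (hd : 2 ≤ d) (S : Polynomial (Polynomial ℂ)) {B D : ℕ} (n : ℕ)
    (hB : S.natDegree ≤ B) (hD : ∀ j, (S.coeff j).natDegree ≤ D) {x : ℂ} (hx : x ≠ 0) :
    PhiS d β S B D n x = x ^ (B * d ^ (n + 1) + D) *
      (S.eval ((PP d (n + 1)) ^ d)).eval (x⁻¹ * β x) := by
  rw [Polynomial.eval_eq_sum_range' (Nat.lt_succ_of_le hB), Polynomial.eval_finsetSum,
    Finset.mul_sum]
  apply Finset.sum_congr rfl
  intro j hj
  rw [Finset.mem_range] at hj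
  rw [hom_eval _ (hD j) hx, BB_eq hd β n x hx, Polynomial.eval_mul, Polynomial.eval_pow,
    Polynomial.eval_pow, eval_PP, mul_pow]
  have h1 : x ^ (B * d ^ (n + 1) + D) = x ^ D * (x ^ d ^ n) ^ (d * j) * x ^ ((B - j) * d ^ (n + 1)) := by
    rw [← pow_mul, ← pow_add, ← pow_add]
    congr 1
    obtain ⟨e, he⟩ : ∃ e, B = j + e := ⟨B - j, by omega⟩
    rw [he, Nat.add_sub_cancel_left]
    ring
  rw [h1]
  ring

/-- a norm -/
noncomputable def NN (d : ℕ) (S : Polynomial (Polynomial ℂ)) (B D : ℕ) : ℝ :=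
  ∑ j ∈ Finset.range (B + 1), nb (S.coeff j) D * 2 ^ (d * j)

theorem NN_nonneg (d : ℕ) (S : Polynomial (Polynomial ℂ)) (B D : ℕ) : 0 ≤ NN d S B D :=
  Finset.sum_nonneg fun _ _ => mul_nonneg (nb_nonneg _ _) (by positivity)

theorem PhiS_norm (hd : 2 ≤ d) (hβ : IsBeta d β) (S : Polynomial (Polynomial ℂ)) (B D n : ℕ)
    {x : ℂ} (hx : x ∈ ball (0 : ℂ) 1) : ‖PhiS d β S B D n x‖ ≤ NN d S B D := by
  unfold PhiS NN
  refine (norm_sum_le _ _).trans (Finset.sum_le_sum fun j _ => ?_)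
  rw [norm_mul, norm_mul, norm_pow, norm_pow]
  have h1 := hom_norm hβ (S.coeff j) D hx
  have h2 := AR.BB_le_two hd hβ n hx
  have h3 := nb_nonneg (S.coeff j) D
  rw [mem_ball_zero_iff] at hx
  calc ‖hom β (S.coeff j) D x‖ * ‖BB d β n x‖ ^ (d * j) * ‖x‖ ^ ((B - j) * d ^ (n + 1))
      ≤ nb (S.coeff j) D * 2 ^ (d * j) * 1 := by
        gcongr
        exact pow_le_one₀ (norm_nonneg _) hx.le
    _ = _ := mul_one _

theorem evalS_norm (S : Polynomial (Polynomial ℂ)) {B D : ℕ} (n : ℕ)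
    (hB : S.natDegree ≤ B) (hD : ∀ j, (S.coeff j).natDegree ≤ D) {w : ℂ} (hw : ‖w‖ ≤ 2)
    (hP : ‖P d (n + 1) w‖ ≤ 2) :
    ‖(S.eval ((PP d (n + 1)) ^ d)).eval w‖ ≤ NN d S B D := by
  rw [Polynomial.eval_eq_sum_range' (Nat.lt_succ_of_le hB), Polynomial.eval_finsetSum]
  unfold NN
  refine (norm_sum_le _ _).trans (Finset.sum_le_sum fun j _ => ?_)
  rw [Polynomial.eval_mul, Polynomial.eval_pow, Polynomial.eval_pow, eval_PP, norm_mul, norm_pow,
    norm_pow, ← pow_mul]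
  have := eval_norm (S.coeff j) (hD j) hw
  have h3 := nb_nonneg (S.coeff j) D
  gcongr

/-- the Faber polynomial -/
noncomputable def GG (d : ℕ) (T : Polynomial (Polynomial ℂ)) (b n : ℕ) : Polynomial ℂ :=
  (PP d (n + 1)) ^ b * T.eval ((PP d (n + 1)) ^ d)

/-- its homogeneous form -/
noncomputable def HH (d : ℕ) (β : ℂ → ℂ) (T : Polynomial (Polynomial ℂ)) (b a D n : ℕ) : ℂ → ℂ :=
  fun x => (BB d β n x) ^ b * ((BB d β n x) ^ (d * a) +
    x ^ (d ^ (n + 1) - D) * PhiS d β (T - X ^ a) (a - 1) D n x)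

theorem HH_diff (hβ : IsBeta d β) (T : Polynomial (Polynomial ℂ)) (b a D n : ℕ) :
    DifferentiableOn ℂ (HH d β T b a D n) (ball 0 1) := by
  have h1 := BB_diff (d := d) hβ.diff n
  have h2 := PhiS_diff hβ (T - X ^ a) (a - 1) D n
  unfold HH
  exact (h1.pow _).mul ((h1.pow _).add (DifferentiableOn.mul (by fun_prop) h2))

theorem sub_natDegree {T : Polynomial (Polynomial ℂ)} {a : ℕ} (hT : T.Monic)
    (hTa : T.natDegree = a) (ha : 1 ≤ a) : (T - X ^ a).natDegree ≤ a - 1 := by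
  have h1 : (T - X ^ a).degree < T.degree := by
    apply Polynomial.degree_sub_lt_left
    · rw [Polynomial.degree_X_pow, Polynomial.degree_eq_natDegree hT.ne_zero, hTa]
    · exact hT.ne_zero
    · rw [hT.leadingCoeff, Polynomial.leadingCoeff_X_pow]
  rw [Polynomial.degree_eq_natDegree hT.ne_zero, hTa] at h1
  by_cases h0 : T - X ^ a = 0
  · rw [h0, Polynomial.natDegree_zero]
    omega
  · have := (Polynomial.natDegree_lt_iff_degree_lt h0).2 h1
    omega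

theorem HH_eval (hd : 2 ≤ d) {T : Polynomial (Polynomial ℂ)} {b a D n : ℕ} (hT : T.Monic)
    (hTa : T.natDegree = a) (hD : ∀ j, ((T - X ^ a).coeff j).natDegree ≤ D)
    (hn : D ≤ d ^ (n + 1)) {x : ℂ} (hx : x ≠ 0) :
    HH d β T b a D n x = x ^ ((b + d * a) * d ^ n) * (GG d T b n).eval (x⁻¹ * β x) := by
  have h1 : T.eval ((PP d (n + 1)) ^ d) = ((PP d (n + 1)) ^ d) ^ a +
      (T - X ^ a).eval ((PP d (n + 1)) ^ d) := by simp
  have h2 : x ^ (a * d ^ (n + 1)) * ((T - X ^ a).eval ((PP d (n + 1)) ^ d)).eval (x⁻¹ * β x) =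
      x ^ (d ^ (n + 1) - D) * PhiS d β (T - X ^ a) (a - 1) D n x := by
    rcases Nat.eq_zero_or_pos a with h | h
    · have h3 : T - X ^ a = 0 := by
        rw [h] at hTa ⊢
        rw [hT.natDegree_eq_zero.1 hTa, pow_zero, sub_self]
      rw [h3]
      simp [PhiS, hom]
    · rw [PhiS_eval hd _ n (sub_natDegree hT hTa h) hD hx, ← mul_assoc, ← pow_add]
      congr 2
      obtain ⟨e, he⟩ : ∃ e, a = e + 1 := Nat.exists_eq_add_of_le' h
      rw [he, Nat.add_sub_cancel, add_mul, one_mul]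
      omega
  unfold HH GG
  rw [← h2, h1, Polynomial.eval_mul, Polynomial.eval_add, Polynomial.eval_pow, Polynomial.eval_pow,
    Polynomial.eval_pow, eval_PP, BB_eq hd β n x hx]
  have h4 : x ^ ((b + d * a) * d ^ n) = (x ^ d ^ n) ^ b * x ^ (a * d ^ (n + 1)) := by
    rw [← pow_mul, ← pow_add]
    congr 1
    ring
  have h5 : x ^ (a * d ^ (n + 1)) = (x ^ d ^ n) ^ (d * a) := by
    rw [← pow_mul]
    congr 1
    ring
  rw [h4, h5, mul_pow, mul_pow]
  ring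

theorem HH_zero (hd : 2 ≤ d) (hβ : IsBeta d β) (T : Polynomial (Polynomial ℂ)) {b a D n : ℕ}
    (hn : D < d ^ (n + 1)) : HH d β T b a D n 0 = 1 := by
  unfold HH
  rw [BB_zero_val hd hβ, zero_pow (show d ^ (n + 1) - D ≠ 0 by omega)]
  simp

theorem HH_norm (hd : 2 ≤ d) (hβ : IsBeta d β) (T : Polynomial (Polynomial ℂ)) (b a D n : ℕ)
    {x : ℂ} (hx : x ∈ ball (0 : ℂ) 1) :
    ‖HH d β T b a D n x‖ ≤ 2 ^ b * (2 ^ (d * a) + NN d (T - X ^ a) (a - 1) D) := by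
  unfold HH
  rw [norm_mul, norm_pow]
  have h1 := AR.BB_le_two hd hβ n hx
  have h2 := PhiS_norm hd hβ (T - X ^ a) (a - 1) D n hx
  rw [mem_ball_zero_iff] at hx
  gcongr
  refine (norm_add_le _ _).trans ?_
  rw [norm_pow, norm_mul, norm_pow]
  have h3 : ‖x‖ ^ (d ^ (n + 1) - D) ≤ 1 := pow_le_one₀ (norm_nonneg _) hx.le
  have h4 : ‖x‖ ^ (d ^ (n + 1) - D) * ‖PhiS d β (T - X ^ a) (a - 1) D n x‖ ≤
      1 * NN d (T - X ^ a) (a - 1) D := by
    gcongr
  have h5 : ‖BB d β n x‖ ^ (d * a) ≤ 2 ^ (d * a) := pow_le_pow_left₀ (norm_nonneg _) h1 _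
  linarith

/-- extraction of roots -/
theorem root_order {H : ℂ → ℂ} {C0 C1 : ℝ} {M K : ℕ} (hM : 1 ≤ M)
    (hH : DifferentiableOn ℂ H (ball 0 1)) (h0 : H 0 = 1) (hb : ∀ x ∈ ball (0 : ℂ) 1, ‖H x‖ ≤ C0)
    (hp : ∀ x ∈ ball (0 : ℂ) 1, ‖H x ^ M - 1‖ ≤ C1 * ‖x‖ ^ K) :
    ∀ x ∈ ball (0 : ℂ) 1, ‖H x - 1‖ ≤ (C0 + 1) * ‖x‖ ^ K := by
  have hb1 : ∀ x ∈ ball (0 : ℂ) 1, ‖H x - 1‖ ≤ C0 + 1 := by
    intro x hx
    have h1 := norm_sub_le (H x) 1
    rw [norm_one] at h1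
    have := hb x hx
    linarith
  have h0m : (0 : ℂ) ∈ ball (0 : ℂ) 1 := mem_ball_self one_pos
  have hC0 : 0 ≤ C0 + 1 := (norm_nonneg _).trans (hb1 0 h0m)
  obtain ⟨r, hr, hr2⟩ : ∃ r : ℝ, 0 < r ∧ ∀ x ∈ ball (0 : ℂ) r,
      1 / 2 ≤ ‖∑ i ∈ Finset.range M, H x ^ i‖ := by
    have h1 : ContinuousAt (fun x => ‖∑ i ∈ Finset.range M, H x ^ i‖) 0 := by
      have := (hH.differentiableAt (isOpen_ball.mem_nhds h0m)).continuousAt
      fun_prop
    have h2 : (1 / 2 : ℝ) < ‖∑ i ∈ Finset.range M, H 0 ^ i‖ := by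
      rw [h0]
      simp only [one_pow, Finset.sum_const, Finset.card_range, nsmul_eq_mul, mul_one,
        Complex.norm_natCast]
      have : (1 : ℝ) ≤ M := by exact_mod_cast hM
      linarith
    obtain ⟨r, hr, hsub⟩ := Metric.mem_nhds_iff.1 (h1.eventually (lt_mem_nhds h2))
    exact ⟨r, hr, fun x hx => (hsub hx).le⟩
  obtain ⟨Q, -, hQ2, hQ3⟩ := divide_order (F := fun x => H x - 1) (K := K) (M := C0 + 1)
    (C := max (2 * C1) ((C0 + 1) * (r⁻¹) ^ K)) (hH.sub_const _) hb1 (by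
    intro x hx
    have hx1 : x ∈ ball (0 : ℂ) 1 := ball_subset_ball (by norm_num) hx
    by_cases h : ‖x‖ < r
    · have h1 := hr2 x (by rwa [mem_ball_zero_iff])
      have h2 := hp x hx1
      have h3 : H x ^ M - 1 = (∑ i ∈ Finset.range M, H x ^ i) * (H x - 1) :=
        (geom_sum_mul (H x) M).symm
      rw [h3, norm_mul] at h2
      have h4 : 1 / 2 * ‖H x - 1‖ ≤ C1 * ‖x‖ ^ K :=
        (mul_le_mul_of_nonneg_right h1 (norm_nonneg _)).trans h2
      have h5 : 2 * C1 * ‖x‖ ^ K ≤ max (2 * C1) ((C0 + 1) * (r⁻¹) ^ K) * ‖x‖ ^ K :=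
        mul_le_mul_of_nonneg_right (le_max_left _ _) (by positivity)
      linarith
    · push Not at h
      have h1 := hb1 x hx1
      have h2 : 1 ≤ (r⁻¹ * ‖x‖) ^ K := by
        apply one_le_pow₀
        rw [inv_mul_eq_div, le_div_iff₀ hr]
        linarith
      have h5 : (C0 + 1) * (r⁻¹) ^ K * ‖x‖ ^ K ≤
          max (2 * C1) ((C0 + 1) * (r⁻¹) ^ K) * ‖x‖ ^ K :=
        mul_le_mul_of_nonneg_right (le_max_right _ _) (by positivity)
      have h6 : (C0 + 1) * 1 ≤ (C0 + 1) * (r⁻¹ * ‖x‖) ^ K := mul_le_mul_of_nonneg_left h2 hC0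
      rw [mul_pow] at h6
      linarith)
  intro x hx
  rw [hQ3 x hx, norm_mul, norm_pow, mul_comm]
  exact mul_le_mul_of_nonneg_right (hQ2 x hx) (by positivity)

end Pool.Agent.TH907.ML
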