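import Mathlib
import Pool.Agent.TH907.ML.M3

set_option autoImplicit false

/-! # Existence of the Faber data -/

namespace Pool.Agent.TH907.ML

open Complex Set Topology Filter Metric MeasureTheory N62a1eb23 Pool.Agent.H712R2 Pool.Agent.H713R2
open Pool.Agent.TH653.MB
open Polynomial (X C)

/-- Faber polynomials `G n` of degree `q d ^ n`, with their homogeneous forms `H n` -/
structure IsFab (d : ℕ) (β : ℂ → ℂ) (q : ℕ) (G : ℕ → Polynomial ℂ) (H : ℕ → ℂ → ℂ) (D n₀ : ℕ)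
    (K : ℝ) : Prop where
  diff : ∀ n, DifferentiableOn ℂ (H n) (ball 0 1)
  eval : ∀ n, n₀ ≤ n → ∀ x ∈ ball (0 : ℂ) 1, x ≠ 0 →
    H n x = x ^ (q * d ^ n) * (G n).eval (x⁻¹ * β x)
  order : ∀ n, n₀ ≤ n → ∀ x ∈ ball (0 : ℂ) 1, ‖H n x - 1‖ ≤ K * ‖x‖ ^ (q * d ^ n + d ^ n - D)
  bound : ∀ n, ∀ w ∈ multibrotSet d, ‖(G n).eval w‖ ≤ K
  large : D < d ^ n₀

variable {d : ℕ} {β : ℂ → ℂ}

theorem exists_D (S : Polynomial (Polynomial ℂ)) : ∃ D, ∀ j, (S.coeff j).natDegree ≤ D := by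
  refine ⟨(Finset.range (S.natDegree + 1)).sup (fun j => (S.coeff j).natDegree), fun j => ?_⟩
  by_cases h : j ≤ S.natDegree
  · exact Finset.le_sup (f := fun j => (S.coeff j).natDegree) (Finset.mem_range.2 (by omega))
  · rw [Polynomial.coeff_eq_zero_of_natDegree_lt (by omega)]
    simp

/-- the ring homomorphism to complex coefficients -/
noncomputable def cmap : Polynomial ℚ →+* Polynomial ℂ := Polynomial.mapRingHom (algebraMap ℚ ℂ)

theorem exists_fab (hd : 2 ≤ d) (hβ : IsBeta d β) {b a : ℕ} (hb : b < d) (hq : 1 ≤ b + d * a) :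
    ∃ T : Polynomial (Polynomial ℚ), T.Monic ∧ T.natDegree = a ∧ ∃ (D n₀ : ℕ) (K : ℝ),
      IsFab d β (b + d * a) (GG d (T.map cmap) b) (HH d β (T.map cmap) b a D) D n₀ K := by
  have hda : 1 ≤ d ^ a := Nat.one_le_pow _ _ (by omega)
  have hM1 : 1 ≤ d ^ (a + 1) := Nat.one_le_pow _ _ (by omega)
  obtain ⟨M, hM⟩ : ∃ M, M = d ^ (a + 1) := ⟨_, rfl⟩
  have hMd : M = d ^ a * d := by rw [hM, pow_succ]
  have hM2 : 2 ≤ M := by
    rw [hMd]
    nlinarith
  have hMa : a + 2 ≤ M := by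
    have h1 : a + 1 < 2 ^ (a + 1) := Nat.lt_two_pow_self
    have h2 : 2 ^ (a + 1) ≤ d ^ (a + 1) := Nat.pow_le_pow_left hd _
    omega
  obtain ⟨b0, hb0⟩ : ∃ b0, b0 = b * d ^ a := ⟨_, rfl⟩
  obtain ⟨q, hqd⟩ : ∃ q, q = b + d * a := ⟨_, rfl⟩
  have hqd2 : q * d ^ a = b0 + a * M := by rw [hqd, hb0, hMd]; ring
  obtain ⟨hPm, hPd⟩ := PHI_monic ℚ hd a
  obtain ⟨T, hTm, hTd, hTe⟩ := approx_root (R := Polynomial ℚ) (M := M) (by omega) a b0
    ((PHI ℚ d a) ^ q) (hPm.pow q) (by rw [hPm.natDegree_pow, hPd, hqd2]) a le_rfl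
  refine ⟨T, hTm, hTd, ?_⟩
  obtain ⟨T', hT'⟩ : ∃ T' : Polynomial (Polynomial ℂ), T' = T.map cmap := ⟨_, rfl⟩
  have hT'm : T'.Monic := by rw [hT']; exact hTm.map _
  have hT'd : T'.natDegree = a := by rw [hT', hTm.natDegree_map, hTd]
  obtain ⟨Rem, hRem⟩ : ∃ Rem : Polynomial (Polynomial ℂ),
      Rem = (X ^ b0 * T ^ M - (PHI ℚ d a) ^ q).map cmap := ⟨_, rfl⟩
  have hRem2 : X ^ b0 * T' ^ M = (PHI ℂ d a) ^ q + Rem := by
    have h1 : (PHI ℚ d a).map cmap = PHI ℂ d a := PHI_map _ d a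
    rw [hRem, Polynomial.map_sub, Polynomial.map_mul, Polynomial.map_pow, Polynomial.map_pow,
      Polynomial.map_pow, Polynomial.map_X, ← hT', h1]
    ring
  have hpos : a + 1 ≤ b0 + a * M := by
    rcases Nat.eq_zero_or_pos a with h | h
    · subst h
      have : 1 ≤ b := by simpa using hq
      rw [hb0, pow_zero]
      omega
    · have : a * 2 ≤ a * M := Nat.mul_le_mul_left a hM2
      omega
  obtain ⟨B', hB'⟩ : ∃ B', B' + (a + 1) = b0 + a * M := ⟨b0 + a * M - (a + 1), by omega⟩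
  have hRd : Rem.natDegree ≤ B' := by
    rw [hRem]
    refine Polynomial.natDegree_map_le.trans ?_
    rw [Polynomial.natDegree_le_iff_coeff_eq_zero]
    intro l hl
    exact (Polynomial.degree_lt_iff_coeff_zero _ _).1 hTe l (by omega)
  obtain ⟨D1, hD1⟩ := exists_D (T' - X ^ a)
  obtain ⟨D2, hD2⟩ := exists_D Rem
  obtain ⟨D, hD⟩ : ∃ D, D = max D1 D2 := ⟨_, rfl⟩
  have hD1' : ∀ j, ((T' - X ^ a).coeff j).natDegree ≤ D := fun j =>
    (hD1 j).trans (by rw [hD]; exact le_max_left _ _)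
  have hD2' : ∀ j, (Rem.coeff j).natDegree ≤ D := fun j =>
    (hD2 j).trans (by rw [hD]; exact le_max_right _ _)
  obtain ⟨C0, hC0⟩ : ∃ C0 : ℝ, C0 = 2 ^ b * (2 ^ (d * a) + NN d (T' - X ^ a) (a - 1) D) := ⟨_, rfl⟩
  have hNN := NN_nonneg d (T' - X ^ a) (a - 1) D
  have hC00 : 0 ≤ C0 := by rw [hC0]; positivity
  refine ⟨D, D, C0 + 1, ?_⟩
  rw [← hT', ← hqd]
  refine ⟨fun n => HH_diff hβ T' b a D n, ?_, ?_, ?_, ?_⟩
  · intro n hn x _ hx0
    rw [hqd]
    apply HH_eval hd hT'm hT'd hD1' _ hx0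
    have h1 : n + 1 < d ^ (n + 1) := Nat.lt_pow_self (by omega)
    omega
  · intro n hn x hx
    have hn1 : n + 1 < d ^ (n + 1) := Nat.lt_pow_self (by omega)
    have hn2 : n < d ^ n := Nat.lt_pow_self (by omega)
    obtain ⟨E, hE⟩ : ∃ E, E = d ^ n := ⟨_, rfl⟩
    have hE1 : d ^ (n + 1) = E * d := by rw [hE, pow_succ]
    have hE2 : d ^ (n + 1 + a + 1) = E * d * M := by rw [hE, hM, ← pow_succ, ← pow_add]; congr 1
    have hKle : q * d ^ n + d ^ n - D ≤ (a + 1) * d ^ (n + 1) - D := by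
      apply Nat.sub_le_sub_right
      rw [hqd, hE1, ← hE]
      have : (b + 1) * E ≤ d * E := Nat.mul_le_mul_right _ hb
      nlinarith
    have hK1 : (a + 1) * d ^ (n + 1) + 1 ≤ d ^ (n + 1 + a + 1) := by
      rw [hE2, hE1]
      have h1 : E * d * (a + 2) ≤ E * d * M := Nat.mul_le_mul_left _ hMa
      have h2 : 1 ≤ E * d := by rw [← hE1]; omega
      nlinarith
    refine root_order (M := M) (C1 := (q : ℝ) * 2 ^ q * 3 + NN d Rem B' D) (by omega)
      (HH_diff hβ T' b a D n) (HH_zero hd hβ T' (by omega)) (fun y hy => by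
        rw [hC0]; exact HH_norm hd hβ T' b a D n hy) ?_ x hx
    intro y hy
    by_cases hy0 : y = 0
    · subst hy0
      rw [HH_zero hd hβ T' (by omega), one_pow, sub_self, norm_zero]
      have := NN_nonneg d Rem B' D
      positivity
    · have hkey : HH d β T' b a D n y ^ M = (BB d β (n + 1 + a) y) ^ q +
          y ^ ((a + 1) * d ^ (n + 1) - D) * PhiS d β Rem B' D n y := by
        rw [HH_eval hd hT'm hT'd hD1' (by omega) hy0, PhiS_eval hd Rem n hRd hD2' hy0,
          BB_eq hd β (n + 1 + a) y hy0, mul_pow, ← Polynomial.eval_pow, mul_pow]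
        have h1 : (GG d T' b n) ^ M = (PP d (n + 2 + a)) ^ q + Rem.eval ((PP d (n + 1)) ^ d) := by
          rw [← PHI_eval, ← Polynomial.eval_pow, ← Polynomial.eval_add, ← hRem2]
          unfold GG
          rw [Polynomial.eval_mul, Polynomial.eval_pow, Polynomial.eval_pow, Polynomial.eval_X,
            mul_pow, ← pow_mul, ← pow_mul, hb0, hMd]
          congr 2
          ring
        rw [h1, Polynomial.eval_add, Polynomial.eval_pow, eval_PP, mul_add]
        congr 1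
        · rw [show n + 2 + a = n + 1 + a + 1 by omega]
          congr 1
          rw [← pow_mul, ← pow_mul]
          congr 1
          rw [← hqd, hM, show n + 1 + a = n + (a + 1) by omega, pow_add]
          ring
        · rw [← mul_assoc, ← pow_add, ← pow_mul]
          congr 2
          have h2 : (a + 1) * d ^ (n + 1) - D + (B' * d ^ (n + 1) + D) =
              (B' + (a + 1)) * d ^ (n + 1) := by
            have h3 : d ^ (n + 1) ≤ (a + 1) * d ^ (n + 1) := Nat.le_mul_of_pos_left _ (by omega)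
            have h4 : (B' + (a + 1)) * d ^ (n + 1) = B' * d ^ (n + 1) + (a + 1) * d ^ (n + 1) :=
              add_mul _ _ _
            obtain ⟨Y, hY⟩ : ∃ Y, Y = (a + 1) * d ^ (n + 1) := ⟨_, rfl⟩
            rw [h4, ← hY]
            rw [← hY] at h3
            omega
          rw [h2, hB', ← hqd2, ← hqd, hMd, hE1, ← hE]
          ring
      rw [hkey]
      have h1 : (BB d β (n + 1 + a) y) ^ q + y ^ ((a + 1) * d ^ (n + 1) - D) * PhiS d β Rem B' D n y - 1
          = ((BB d β (n + 1 + a) y) ^ q - 1) +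
            y ^ ((a + 1) * d ^ (n + 1) - D) * PhiS d β Rem B' D n y := by ring
      rw [h1]
      refine (norm_add_le _ _).trans ?_
      rw [norm_mul, norm_pow]
      have hsplit : ((q : ℝ) * 2 ^ q * 3 + NN d Rem B' D) * ‖y‖ ^ (q * d ^ n + d ^ n - D) =
          (q : ℝ) * 2 ^ q * 3 * ‖y‖ ^ (q * d ^ n + d ^ n - D) +
          NN d Rem B' D * ‖y‖ ^ (q * d ^ n + d ^ n - D) := by ring
      rw [hsplit]
      have h2 := pow_sub_one_le (AR.BB_le_two hd hβ (n + 1 + a) hy) q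
      have h3 := BB_sub_one_le hd hβ (n + 1 + a) hy
      have h4 := PhiS_norm hd hβ Rem B' D n hy
      have hy1 : ‖y‖ ≤ 1 := by rw [mem_ball_zero_iff] at hy; exact hy.le
      have h5 : ‖y‖ ^ (d ^ (n + 1 + a + 1) - 1) ≤ ‖y‖ ^ (q * d ^ n + d ^ n - D) :=
        pow_le_pow_of_le_one (norm_nonneg _) hy1 (by omega)
      have h6 : ‖y‖ ^ ((a + 1) * d ^ (n + 1) - D) ≤ ‖y‖ ^ (q * d ^ n + d ^ n - D) :=
        pow_le_pow_of_le_one (norm_nonneg _) hy1 hKle
      have h7 := NN_nonneg d Rem B' D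
      apply add_le_add
      · refine h2.trans ?_
        rw [mul_assoc ((q : ℝ) * 2 ^ q)]
        apply mul_le_mul_of_nonneg_left _ (by positivity)
        exact h3.trans (mul_le_mul_of_nonneg_left h5 (by norm_num))
      · rw [mul_comm]
        exact mul_le_mul h4 h6 (by positivity) h7
  · intro n w hw
    have hm := (mem_multibrot_iff hd w).1 hw
    have hw1 : ‖w‖ ≤ 2 := by
      have := hm 1
      rwa [P_one hd] at this
    have hw2 := hm (n + 1)
    unfold GG
    rw [Polynomial.eval_mul, Polynomial.eval_pow, eval_PP, norm_mul, norm_pow]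
    have h1 : T'.eval ((PP d (n + 1)) ^ d) = ((PP d (n + 1)) ^ d) ^ a +
        (T' - X ^ a).eval ((PP d (n + 1)) ^ d) := by simp
    have h2 : ‖(T'.eval ((PP d (n + 1)) ^ d)).eval w‖ ≤
        2 ^ (d * a) + NN d (T' - X ^ a) (a - 1) D := by
      rw [h1, Polynomial.eval_add, Polynomial.eval_pow, Polynomial.eval_pow, eval_PP, ← pow_mul]
      refine (norm_add_le _ _).trans ?_
      rw [norm_pow]
      have h3 : ‖P d (n + 1) w‖ ^ (d * a) ≤ 2 ^ (d * a) := pow_le_pow_left₀ (norm_nonneg _) hw2 _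
      have h4 : ‖((T' - X ^ a).eval ((PP d (n + 1)) ^ d)).eval w‖ ≤
          NN d (T' - X ^ a) (a - 1) D := by
        rcases Nat.eq_zero_or_pos a with h | h
        · have h3 : T' - X ^ a = 0 := by
            rw [h] at hT'd ⊢
            rw [hT'm.natDegree_eq_zero.1 hT'd, pow_zero, sub_self]
          rw [h3, Polynomial.eval_zero, Polynomial.eval_zero, norm_zero]
          exact NN_nonneg _ _ _ _
        · exact evalS_norm _ n (sub_natDegree hT'm hT'd h) hD1' hw1 hw2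
      linarith
    calc ‖P d (n + 1) w‖ ^ b * ‖(T'.eval ((PP d (n + 1)) ^ d)).eval w‖
        ≤ 2 ^ b * (2 ^ (d * a) + NN d (T' - X ^ a) (a - 1) D) := by gcongr
      _ = C0 := hC0.symm
      _ ≤ C0 + 1 := by linarith
  · exact Nat.lt_pow_self (by omega)

end Pool.Agent.TH907.ML
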