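import Mathlib
import Pool.Agent.TH907.ML.M4

set_option autoImplicit false

/-! # The general main estimate -/

namespace Pool.Agent.TH907.ML

open Complex Set Topology Filter Metric MeasureTheory N62a1eb23 Pool.Agent.H712R2 Pool.Agent.H713R2
open Pool.Agent.TH653.MB
open Real (circleAverage)

variable {d : ℕ} {β : ℂ → ℂ}

theorem tc_fab_zero {q : ℕ} {G : ℕ → Polynomial ℂ} {H : ℕ → ℂ → ℂ} {D n₀ : ℕ} {K : ℝ}
    (hF : IsFab d β q G H D n₀ K) (hd : 2 ≤ d) {n : ℕ} (hn : n₀ ≤ n) : H n 0 = 1 := by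
  have h1 := hF.order n hn 0 (mem_ball_self one_pos)
  have h2 : D < d ^ n := lt_of_lt_of_le hF.large (Nat.pow_le_pow_right (by omega) hn)
  rw [norm_zero, zero_pow (by omega), mul_zero] at h1
  have := norm_le_zero_iff.1 h1
  linear_combination this

theorem tc_fab {q : ℕ} {G : ℕ → Polynomial ℂ} {H : ℕ → ℂ → ℂ} {D n₀ : ℕ} {K : ℝ}
    (hF : IsFab d β q G H D n₀ K) {n k : ℕ} (hn : n₀ ≤ n) (hk1 : 1 ≤ k)
    (hk : k < q * d ^ n + d ^ n - D) : tc (H n) k = 0 := by
  have h1 := tc_eq_zero_of_order (F := fun x => H n x - 1) one_pos hk ((hF.diff n).sub_const _)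
    (hF.order n hn)
  rw [tc_sub one_pos (hF.diff n) (differentiableOn_const (c := (1 : ℂ)))] at h1
  obtain ⟨l, rfl⟩ := Nat.exists_eq_add_of_le' hk1
  rw [tc_const_succ, sub_zero] at h1
  exact h1

theorem fab_coef (hd : 2 ≤ d) (hβ : IsBeta d β) {q : ℕ} {G : ℕ → Polynomial ℂ} {H : ℕ → ℂ → ℂ}
    {D n₀ : ℕ} {K : ℝ} (hF : IsFab d β q G H D n₀ K) (hq : 1 ≤ q) {n : ℕ} (hn : n₀ ≤ n) (w : ℂ) :
    tc (LL β w) (q * d ^ n - 1) = - (G n).eval w := by
  have h2 : D < d ^ n := lt_of_lt_of_le hF.large (Nat.pow_le_pow_right (by omega) hn)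
  have hm : 1 ≤ q * d ^ n := Nat.mul_pos (by omega) (by omega)
  obtain ⟨m, hm'⟩ : ∃ m, q * d ^ n = m + 1 := Nat.exists_eq_add_of_le' hm
  have h := coef_gen hβ w (G n) (q * d ^ n) (hF.diff n) (hF.eval n hn)
  rw [tc_fab hF hn hm (by omega), zero_sub, hm', Finset.sum_range_succ, Nat.sub_self, tc_zero,
    tc_fab_zero hF hd hn, mul_one] at h
  have h3 : ∑ b ∈ Finset.range m, tc (LL β w) b * tc (H n) (m + 1 - (b + 1)) = 0 := by
    apply Finset.sum_eq_zero
    intro b hb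
    rw [Finset.mem_range] at hb
    rw [tc_fab hF hn (by omega) (by omega), mul_zero]
  rw [h3, zero_add] at h
  rw [hm', Nat.add_sub_cancel, h, neg_neg]

/-- the zero of `β - w x` is simple and unique -/
theorem blaschkeF (hd : 2 ≤ d) (hβ : IsBeta d β) {q : ℕ} {G : ℕ → Polynomial ℂ}
    {H : ℕ → ℂ → ℂ} {D n₀ : ℕ} {K : ℝ} (hF : IsFab d β q G H D n₀ K) (hq : 1 ≤ q) (hK0 : 0 ≤ K)
    (w : ℂ) {ρ σ R : ℝ} (hρ : 0 < ρ) (hρσ : ρ < σ)
    (hσ1 : σ < 1) {n : ℕ} (hn : n₀ ≤ n) (hR : ρ ^ (d ^ n) = R⁻¹) (hR1 : 1 ≤ R)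
    (hw : (∀ x ∈ ball (0 : ℂ) σ, hh β w x ≠ 0) ∨ ∃ a, ‖a‖ < ρ ^ 2 / σ ∧ hh β w a = 0) :
    ∃ h : ℂ → ℂ, DifferentiableOn ℂ h (ball 0 1) ∧ (∀ x ∈ ball (0 : ℂ) σ, h x ≠ 0) ∧
      (∀ x, ‖x‖ = ρ → ‖h x‖ = ‖hh β w x‖) ∧ 1 ≤ ‖h 0‖ ∧
      ‖tc (logDeriv h) (q * d ^ n - 1)‖ ≤ (1 + K) * R ^ q := by
  have hσ0 : 0 < σ := hρ.trans hρσ
  have hR0 : 0 < R := by linarith
  obtain ⟨m, hm⟩ : ∃ m, m = q * d ^ n := ⟨_, rfl⟩
  have hdn1 : 1 ≤ d ^ n := Nat.one_le_pow _ _ (by omega)
  have hm1 : 1 ≤ m := by rw [hm]; exact Nat.mul_pos (by omega) (by omega)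
  have hc := fab_coef hd hβ hF hq hn w
  have hDn : D < d ^ n := lt_of_lt_of_le hF.large (Nat.pow_le_pow_right (by omega) hn)
  have hRq1 : 1 ≤ R ^ q := one_le_pow₀ hR1
  rw [← hm] at hc ⊢
  rcases hw with hw | ⟨a, ha, hza⟩
  · refine ⟨hh β w, hh_diff hβ w, hw, fun x _ => rfl, by rw [hh_zero hβ, norm_one], ?_⟩
    rw [← LL_eq, hc, norm_neg]
    by_cases hwM : w ∈ multibrotSet d
    · have := hF.bound n w hwM
      nlinarith
    · obtain ⟨x, hx, hx0, hxw⟩ := hβ.surj w hwM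
      have h2 : hh β w x = 0 := by
        unfold hh
        rw [← hxw]
        field_simp
        ring
      have h3 : ρ ≤ ‖x‖ := by
        by_contra hlt
        push Not at hlt
        exact hw x (by rw [mem_ball_zero_iff]; linarith) h2
      have h4 := hF.eval n hn x hx hx0
      rw [hxw, ← hm] at h4
      have hx1 : ‖x‖ < 1 := by rwa [mem_ball_zero_iff] at hx
      have h5 : ‖H n x‖ ≤ 1 + K := by
        have e1 := hF.order n hn x hx
        have e2 : K * ‖x‖ ^ (q * d ^ n + d ^ n - D) ≤ K * 1 :=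
          mul_le_mul_of_nonneg_left (pow_le_one₀ (norm_nonneg _) hx1.le) hK0
        have e3 := norm_add_le (H n x - 1) 1
        rw [sub_add_cancel, norm_one] at e3
        linarith
      rw [h4, norm_mul, norm_pow] at h5
      have h6 : (R ^ q)⁻¹ ≤ ‖x‖ ^ m := by
        rw [← inv_pow, ← hR, ← pow_mul, hm, mul_comm q]
        exact pow_le_pow_left₀ hρ.le h3 _
      have h7 : (R ^ q)⁻¹ * ‖(G n).eval w‖ ≤ 1 + K :=
        (mul_le_mul_of_nonneg_right h6 (norm_nonneg _)).trans h5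
      rw [inv_mul_le_iff₀ (by positivity)] at h7
      linarith
  · -- the zero is inside
    have haρ : ‖a‖ < ρ := by
      refine ha.trans ?_
      rw [div_lt_iff₀ hσ0]
      nlinarith
    have ha1 : a ∈ ball (0 : ℂ) 1 := by rw [mem_ball_zero_iff]; linarith
    have ha0 : a ≠ 0 := by
      rintro rfl
      rw [hh_zero hβ] at hza
      exact one_ne_zero hza
    have han : 0 < ‖a‖ := norm_pos_iff.2 ha0
    have hwa : a⁻¹ * β a = w := by
      unfold hh at hza
      have : β a = w * a := by linear_combination hza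
      rw [this]
      field_simp
    obtain ⟨u, hu⟩ : ∃ u, u = dslope (hh β w) a := ⟨_, rfl⟩
    have hud : DifferentiableOn ℂ u (ball 0 1) := by
      rw [hu]
      exact (Complex.differentiableOn_dslope (isOpen_ball.mem_nhds ha1)).mpr (hh_diff hβ w)
    have huh : ∀ x, hh β w x = (x - a) * u x := by
      intro x
      have := sub_smul_dslope (hh β w) a x
      rw [hza, sub_zero, smul_eq_mul] at this
      rw [hu, this]
    have hune : ∀ x ∈ ball (0 : ℂ) 1, u x ≠ 0 := by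
      intro x hx hux
      by_cases hxa : x = a
      · subst hxa
        rw [hu, dslope_same] at hux
        have h1 : HasDerivAt β (deriv β x) x :=
          (hβ.diff.differentiableAt (isOpen_ball.mem_nhds ha1)).hasDerivAt
        have h2 : HasDerivAt (hh β w) (deriv β x - w * 1) x := h1.sub ((hasDerivAt_id x).const_mul w)
        rw [h2.deriv, mul_one] at hux
        apply qq_ne hβ ha1
        unfold qq
        have h3 : deriv β x = w := by linear_combination hux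
        have h4 : β x = w * x := by
          unfold hh at hza
          linear_combination hza
        rw [h3, h4]
        ring
      · have h1 : hh β w x = 0 := by rw [huh, hux, mul_zero]
        have hx0 : x ≠ 0 := by
          rintro rfl
          rw [hh_zero hβ] at h1
          exact one_ne_zero h1
        apply hxa
        apply hβ.inj x hx a ha1 hx0 ha0
        rw [hwa]
        unfold hh at h1
        have : β x = w * x := by linear_combination h1
        rw [this]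
        field_simp
    have hρC : (ρ : ℂ) ≠ 0 := by exact_mod_cast hρ.ne'
    obtain ⟨b, hb⟩ : ∃ b : ℂ, b = (starRingEnd ℂ) a / (ρ : ℂ) ^ 2 := ⟨_, rfl⟩
    have hbn : ‖b‖ = ‖a‖ / ρ ^ 2 := by
      rw [hb, norm_div, norm_pow, Complex.norm_conj, Complex.norm_real, Real.norm_eq_abs,
        abs_of_pos hρ]
    have hbne : ∀ x ∈ ball (0 : ℂ) σ, 1 - b * x ≠ 0 := by
      intro x hx h
      rw [mem_ball_zero_iff] at hx
      have h1 : b * x = 1 := by linear_combination -h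
      have h2 : ‖b‖ * ‖x‖ = 1 := by rw [← norm_mul, h1, norm_one]
      have h3 : ‖b‖ * ‖x‖ ≤ ‖b‖ * σ := mul_le_mul_of_nonneg_left hx.le (norm_nonneg _)
      have h4 : ‖b‖ * σ < 1 := by
        rw [hbn, div_mul_eq_mul_div, div_lt_one (by positivity)]
        rwa [lt_div_iff₀ hσ0] at ha
      linarith
    refine ⟨fun x => u x * ((ρ : ℂ) * (1 - b * x)), hud.mul (by fun_prop), ?_, ?_, ?_, ?_⟩
    · intro x hx
      exact mul_ne_zero (hune x (ball_subset_ball hσ1.le hx)) (mul_ne_zero hρC (hbne x hx))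
    · intro x hx
      rw [huh, norm_mul, norm_mul (x - a), mul_comm ‖x - a‖]
      congr 1
      have hx0 : x ≠ 0 := by
        rintro rfl
        rw [norm_zero] at hx
        linarith
      have h1 : (starRingEnd ℂ) x * x = (ρ : ℂ) ^ 2 := by
        rw [mul_comm, Complex.mul_conj, Complex.normSq_eq_norm_sq, hx]
        push_cast
        rfl
      have h2 : (ρ : ℂ) * (1 - b * x) = ((starRingEnd ℂ) (x - a)) * (x / ρ) := by
        rw [hb, map_sub]
        field_simp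
        rw [← h1]
        ring
      rw [h2, norm_mul, Complex.norm_conj, norm_div, hx, Complex.norm_real, Real.norm_eq_abs,
        abs_of_pos hρ, div_self hρ.ne', mul_one]
    · simp only [mul_zero, sub_zero, mul_one]
      have h1 : u 0 = -a⁻¹ := by
        have := huh 0
        rw [hh_zero hβ, zero_sub] at this
        field_simp
        linear_combination this
      rw [h1, norm_mul, norm_neg, norm_inv, Complex.norm_real, Real.norm_eq_abs, abs_of_pos hρ]
      rw [← div_eq_inv_mul, le_div_iff₀ han]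
      linarith
    · have h0m : (0 : ℂ) ∈ ball (0 : ℂ) 1 := mem_ball_self one_pos
      have hnb : ball (0 : ℂ) 1 ∈ 𝓝 (0 : ℂ) := isOpen_ball.mem_nhds h0m
      have hua : AnalyticAt ℂ u 0 := hud.analyticAt hnb
      have hu0 : u 0 ≠ 0 := hune 0 h0m
      -- the coefficient of `u' / u`
      have h1 : tc (LL β w) (m - 1) = tc (logDeriv u) (m - 1) - a⁻¹ ^ (m - 1 + 1) := by
        rw [LL_eq]
        have h2 : hh β w = fun x => (-a * (1 - a⁻¹ * x)) * u x := by
          funext x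
          rw [huh]
          field_simp
          ring
        rw [h2, tc_logDeriv_mul (f := fun x => -a * (1 - a⁻¹ * x)) (by fun_prop) hua (by simpa using ha0) hu0]
        have h3 : logDeriv (fun x => -a * (1 - a⁻¹ * x)) = logDeriv (fun x => 1 - a⁻¹ * x) := by
          funext x
          exact logDeriv_const_mul x (-a) (neg_ne_zero.2 ha0)
        rw [h3, tc_inv_linear]
        ring
      have h2 : tc (logDeriv (fun x => u x * ((ρ : ℂ) * (1 - b * x)))) (m - 1) =
          tc (logDeriv u) (m - 1) - b ^ (m - 1 + 1) := by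
        rw [tc_logDeriv_mul hua (g := fun x => (ρ : ℂ) * (1 - b * x)) (by fun_prop) hu0 (by simpa using hρ.ne')]
        have h3 : logDeriv (fun x => (ρ : ℂ) * (1 - b * x)) = logDeriv (fun x => 1 - b * x) := by
          funext x
          exact logDeriv_const_mul x (ρ : ℂ) hρC
        rw [h3, tc_inv_linear]
        ring
      rw [h2]
      rw [Nat.sub_add_cancel hm1] at h1 ⊢
      have h3 : tc (logDeriv u) (m - 1) = a⁻¹ ^ m - (G n).eval w := by
        linear_combination hc - h1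
      have h4 : (G n).eval w = a⁻¹ ^ m * H n a := by
        have h5 := hF.eval n hn a ha1 ha0
        rw [hwa, ← hm] at h5
        rw [h5, ← mul_assoc, ← mul_pow, inv_mul_cancel₀ ha0, one_pow, one_mul]
      rw [h3, h4]
      have h5 : a⁻¹ ^ m - a⁻¹ ^ m * H n a - b ^ m =
          -(a⁻¹ ^ m * (H n a - 1)) - b ^ m := by ring
      rw [h5]
      refine (norm_sub_le _ _).trans ?_
      rw [norm_neg, norm_mul, norm_pow, norm_inv, norm_pow]
      have h6 : ‖b‖ ^ m ≤ R ^ q := by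
        have h7 : ‖b‖ ≤ ρ⁻¹ := by
          rw [hbn, div_le_iff₀ (by positivity)]
          have : ρ⁻¹ * ρ ^ 2 = ρ := by field_simp
          rw [this]
          exact haρ.le
        calc ‖b‖ ^ m ≤ ρ⁻¹ ^ m := pow_le_pow_left₀ (norm_nonneg _) h7 m
          _ = R ^ q := by
              rw [hm, mul_comm, pow_mul, inv_pow, hR, inv_inv]
      have h7 : ‖a‖⁻¹ ^ m * ‖H n a - 1‖ ≤ K := by
        have h9 := hF.order n hn a ha1
        have h10 : ‖a‖ ^ (q * d ^ n + d ^ n - D) ≤ ‖a‖ ^ m :=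
          pow_le_pow_of_le_one (norm_nonneg _) (by rw [mem_ball_zero_iff] at ha1; exact ha1.le)
            (by omega)
        calc ‖a‖⁻¹ ^ m * ‖H n a - 1‖
            ≤ ‖a‖⁻¹ ^ m * (K * ‖a‖ ^ m) :=
              mul_le_mul_of_nonneg_left (h9.trans (mul_le_mul_of_nonneg_left h10 hK0))
                (by positivity)
          _ = K := by
              rw [inv_pow]
              field_simp
      nlinarith

/-- **the main estimate** -/
theorem main_estF (hd : 2 ≤ d) (hβ : IsBeta d β) {q : ℕ} {G : ℕ → Polynomial ℂ}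
    {H : ℕ → ℂ → ℂ} {D n₀ : ℕ} {K : ℝ} (hF : IsFab d β q G H D n₀ K) (hq : 1 ≤ q) (hK0 : 0 ≤ K)
    {k j e n : ℕ} (hn : n = k + j) (hn1 : 1 ≤ n) (hn0 : n₀ ≤ n) (he : q + 1 ≤ d ^ (e + 1)) :
    ‖tc (logDeriv (qq β)) (q * d ^ n - 1) +
      ((d - 1 : ℕ) : ℂ) * ∑ i ∈ Finset.Ico k (n + e), tc (logDeriv (BB d β i)) (q * d ^ n - 1)‖ ≤
    (1 + K) * (2 * R0 d) ^ q * d ^ k + (2 * R0 d) ^ q * (8 * (q * d ^ n : ℕ) *
      (Pool.Agent.TH653.MB.AA' d (j + e) / (d : ℝ) ^ k) * Real.sqrt ((1 + EE β) * (d ^ n : ℕ))) := by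
  have hdn : 2 ≤ d ^ n := two_le_pow hd (by omega)
  have hmN : q * d ^ n + 2 ≤ d ^ (n + e + 1) := by
    have h1 : d ^ (n + e + 1) = d ^ n * d ^ (e + 1) := by rw [← pow_add]; congr 1
    have h2 : d ^ n * (q + 1) ≤ d ^ n * d ^ (e + 1) := Nat.mul_le_mul_left _ he
    rw [h1]
    nlinarith
  have hNN : d ^ n ≤ d ^ (n + e) := Nat.pow_le_pow_right (by omega) (by omega)
  obtain ⟨m, hm⟩ : ∃ m, m = q * d ^ n := ⟨_, rfl⟩
  have hm1 : 1 ≤ m := by rw [hm]; exact Nat.mul_pos (by omega) (by omega)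
  have hR := R0_ge d
  have hR0 : 0 < R0 d := by linarith
  -- the radii
  obtain ⟨N, hN⟩ : ∃ N, N = d ^ n := ⟨_, rfl⟩
  have hN0 : N ≠ 0 := by omega
  have hN0' : (0 : ℝ) < N := by exact_mod_cast (show 0 < N by omega)
  have hpw : ∀ R : ℝ, 0 < R → Real.exp (-(Real.log R / N)) ^ N = R⁻¹ := by
    intro R hR
    rw [← Real.exp_nat_mul]
    have : (N : ℝ) * (-(Real.log R / N)) = -Real.log R := by field_simp
    rw [this, Real.exp_neg, Real.exp_log hR]
  have hlt : Real.exp (-(Real.log (2 * R0 d) / N)) < Real.exp (-(Real.log (R0 d) / N)) := by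
    apply Real.exp_lt_exp.2
    apply neg_lt_neg
    apply div_lt_div_of_pos_right _ hN0'
    exact Real.log_lt_log hR0 (by linarith)
  obtain ⟨ρ, σ, h1, h2, h3, h4⟩ := exists_gap (zeros_finite hβ (crit d k)) (Real.exp_pos _) hlt
  have hρ : 0 < ρ := (Real.exp_pos _).trans h1
  have hσ0 : 0 < σ := hρ.trans h2
  have hb1 : Real.exp (-(Real.log (R0 d) / N)) < 1 := by
    rw [Real.exp_lt_one_iff]
    have : 0 < Real.log (R0 d) / N := div_pos (Real.log_pos (by linarith)) hN0'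
    linarith
  have hσ1 : σ < 1 := h3.trans hb1
  have hρ1 : ρ < 1 := h2.trans hσ1
  have hσN : σ ^ N ≤ (R0 d)⁻¹ := by
    rw [← hpw (R0 d) hR0]
    exact pow_le_pow_left₀ hσ0.le h3.le N
  have hρN : (2 * R0 d)⁻¹ ≤ ρ ^ N := by
    rw [← hpw (2 * R0 d) (by linarith)]
    exact pow_le_pow_left₀ (Real.exp_pos _).le h1.le N
  obtain ⟨R, hRdef⟩ : ∃ R, R = (ρ ^ N)⁻¹ := ⟨_, rfl⟩
  have hρNpos : 0 < ρ ^ N := pow_pos hρ N
  have hR2 : R ≤ 2 * R0 d := by
    rw [hRdef]
    have := inv_anti₀ (by positivity) hρN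
    rwa [inv_inv] at this
  have hρσN : ρ ^ N ≤ σ ^ N := pow_le_pow_left₀ hρ.le h2.le N
  have hR1 : 1 ≤ R := by
    rw [hRdef]
    exact (one_le_inv₀ hρNpos).2 (pow_le_one₀ hρ.le hρ1.le)
  have hRinv : ρ ^ (d ^ n) = R⁻¹ := by rw [hRdef, inv_inv, ← hN]
  have hsubσ : ball (0 : ℂ) σ ⊆ ball 0 1 := ball_subset_ball hσ1.le
  -- the zero free factors
  obtain ⟨CF, hCF⟩ : ∃ CF, CF = (1 + K) * (2 * R0 d) ^ q := ⟨_, rfl⟩
  have hCF0 : 0 ≤ CF := by rw [hCF]; positivity
  have hex : ∀ w, w ∈ crit d k → ∃ h : ℂ → ℂ, DifferentiableOn ℂ h (ball 0 1) ∧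
      (∀ x ∈ ball (0 : ℂ) σ, h x ≠ 0) ∧ (∀ x, ‖x‖ = ρ → ‖h x‖ = ‖hh β w x‖) ∧ 1 ≤ ‖h 0‖ ∧
      ‖tc (logDeriv h) (m - 1)‖ ≤ CF := by
    intro w hw
    obtain ⟨h, e1, e2, e3, e4, e5⟩ := blaschkeF hd hβ hF hq hK0 w hρ h2 hσ1 (n := n) hn0 hRinv hR1 (by
      by_cases hz : ∃ a ∈ ball (0 : ℂ) 1, hh β w a = 0
      · obtain ⟨a, ha1, ha2⟩ := hz
        rcases h4 ‖a‖ ⟨w, hw, a, ha1, ha2, rfl⟩ with h5 | h5
        · exact Or.inr ⟨a, h5, ha2⟩
        · left
          intro x hx hx0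
          have h6 := hh_unique hβ (hsubσ hx) ha1 hx0 ha2
          rw [h6, mem_ball_zero_iff] at hx
          linarith
      · left
        push Not at hz
        exact fun x hx => hz x (hsubσ hx))
    refine ⟨h, e1, e2, e3, e4, ?_⟩
    rw [hm]
    refine e5.trans ?_
    rw [hCF]
    have : R ^ q ≤ (2 * R0 d) ^ q := pow_le_pow_left₀ (by linarith) hR2 _
    exact mul_le_mul_of_nonneg_left this (by linarith)
  choose! Hw hH1 hH2 hH3 hH4 hH5 using hex
  -- the product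
  obtain ⟨Yh, hYh⟩ : ∃ Yh : ℂ → ℂ, Yh = fun x => ((crit d k).map (fun w => Hw w x)).prod := ⟨_, rfl⟩
  have h0m : (0 : ℂ) ∈ ball (0 : ℂ) 1 := mem_ball_self one_pos
  have h0σ : (0 : ℂ) ∈ ball (0 : ℂ) σ := mem_ball_self hσ0
  have hnb1 := isOpen_ball.mem_nhds h0m
  have hprod : ∀ S : Multiset ℂ, (∀ w ∈ S, w ∈ crit d k) →
      DifferentiableOn ℂ (fun x => (S.map (fun w => Hw w x)).prod) (ball 0 1) ∧
      (∀ x ∈ ball (0 : ℂ) σ, (S.map (fun w => Hw w x)).prod ≠ 0) ∧
      (∀ x, ‖x‖ = ρ → ‖(S.map (fun w => Hw w x)).prod‖ = ‖(S.map (fun w => hh β w x)).prod‖) ∧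
      1 ≤ ‖(S.map (fun w => Hw w 0)).prod‖ ∧
      ‖(S.map (fun w => tc (logDeriv (Hw w)) (m - 1))).sum‖ ≤ CF * Multiset.card S := by
    intro S
    induction S using Multiset.induction with
    | empty => intro _; simp
    | cons w S ih =>
      intro hS
      obtain ⟨i1, i2, i3, i4, i5⟩ := ih (fun v hv => hS v (Multiset.mem_cons_of_mem hv))
      have hw := hS w (Multiset.mem_cons_self w S)
      simp only [Multiset.map_cons, Multiset.prod_cons, Multiset.sum_cons, Multiset.card_cons]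
      refine ⟨(hH1 w hw).mul i1, fun x hx => mul_ne_zero (hH2 w hw x hx) (i2 x hx), ?_, ?_, ?_⟩
      · intro x hx
        rw [norm_mul, norm_mul, hH3 w hw x hx, i3 x hx]
      · rw [norm_mul]
        exact one_le_mul_of_one_le_of_one_le (hH4 w hw) i4
      · refine (norm_add_le _ _).trans ?_
        have := hH5 w hw
        push_cast
        linarith
  obtain ⟨p1, p2, p3, p4, p5⟩ := hprod (crit d k) (fun w hw => hw)
  have hYhd : DifferentiableOn ℂ Yh (ball 0 1) := by rw [hYh]; exact p1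
  have hYhne : ∀ x ∈ ball (0 : ℂ) σ, Yh x ≠ 0 := by rw [hYh]; exact p2
  have hYhn : ∀ x, ‖x‖ = ρ → ‖Yh x‖ = ‖YY d β k x‖ := by
    intro x hx
    rw [hYh, YY_prod hd hβ k x]
    exact p3 x hx
  have hYh0 : 1 ≤ ‖Yh 0‖ := by rw [hYh]; exact p4
  have hYhtc : tc (logDeriv Yh) (m - 1) =
      ((crit d k).map (fun w => tc (logDeriv (Hw w)) (m - 1))).sum := by
    rw [hYh]
    exact (tc_logDeriv_prod _ (fun w hw => (hH1 w hw).analyticAt hnb1)
      (fun w hw => hH2 w hw 0 h0σ) _).2.2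
  -- the products `VP`
  have hVPd : DifferentiableOn ℂ (VP d β k (n + e)) (ball 0 1) := by
    unfold VP
    exact DifferentiableOn.fun_finsetProd fun i _ => (BB_diff hβ.diff i).pow _
  have hVPne : ∀ x ∈ ball (0 : ℂ) 1, VP d β k (n + e) x ≠ 0 := by
    intro x hx
    unfold VP
    exact Finset.prod_ne_zero_iff.2 fun i _ => pow_ne_zero _ (Pool.Agent.W677.MB.BB_ne hd hβ i hx)
  have hVP0 : VP d β k (n + e) 0 = 1 := by
    unfold VP
    exact Finset.prod_eq_one fun i _ => by rw [BB_zero_val hd hβ, one_pow]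
  have hVPtc : tc (logDeriv (VP d β k (n + e))) (m - 1) =
      ((d - 1 : ℕ) : ℂ) * ∑ i ∈ Finset.Ico k (n + e), tc (logDeriv (BB d β i)) (m - 1) := by
    unfold VP
    rw [tc_logDeriv_finset_prod (Finset.Ico k (n + e)) (f := fun i x => BB d β i x ^ (d - 1))
      (fun i _ => by have := BB_analyticAt (d := d) hβ i; fun_prop)
      (fun i _ => pow_ne_zero _ (by rw [BB_zero_val hd hβ]; exact one_ne_zero)), Finset.mul_sum]
    apply Finset.sum_congr rfl
    intro i _
    rw [tc_logDeriv_pow (BB_analyticAt hβ i) (by rw [BB_zero_val hd hβ]; exact one_ne_zero)]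
  -- the quotient
  have hden : DifferentiableOn ℂ (fun x => VP d β k (n + e) x * Yh x) (ball 0 σ) :=
    (hVPd.mono hsubσ).mul (hYhd.mono hsubσ)
  have hdenne : ∀ x ∈ ball (0 : ℂ) σ, VP d β k (n + e) x * Yh x ≠ 0 := fun x hx =>
    mul_ne_zero (hVPne x (hsubσ hx)) (hYhne x hx)
  obtain ⟨f, hf⟩ : ∃ f : ℂ → ℂ, f = fun x => YY d β (n + e) x / (VP d β k (n + e) x * Yh x) := ⟨_, rfl⟩
  have hYσ : ∀ x ∈ ball (0 : ℂ) σ, YY d β (n + e) x ≠ 0 := by
    intro x hx
    apply YY_ne hd hβ (n + e) (hsubσ hx)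
    rw [mem_ball_zero_iff] at hx
    refine (pow_le_pow_of_le_one (norm_nonneg _) (hx.le.trans hσ1.le) hNN).trans ?_
    rw [← hN]
    exact (pow_le_pow_left₀ (norm_nonneg _) hx.le N).trans hσN
  have hfd : DifferentiableOn ℂ f (ball 0 σ) := by
    rw [hf]
    exact ((YY_diff hβ (n + e)).mono hsubσ).div hden hdenne
  have hfne : ∀ x ∈ ball (0 : ℂ) σ, f x ≠ 0 := by
    intro x hx
    rw [hf]
    exact div_ne_zero (hYσ x hx) (hdenne x hx)
  have hf0 : ‖f 0‖ ≤ 1 := by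
    rw [hf]
    simp only
    rw [YY_zero_val hd hβ, hVP0, one_mul, norm_div, norm_one]
    rw [div_le_one (by linarith)]
    exact hYh0
  -- the coefficients
  have hnbσ := isOpen_ball.mem_nhds h0σ
  have hYtc : tc (logDeriv (YY d β (n + e))) (m - 1) = tc (logDeriv f) (m - 1) +
      (tc (logDeriv (VP d β k (n + e))) (m - 1) + tc (logDeriv Yh) (m - 1)) := by
    rw [← tc_logDeriv_mul (hVPd.analyticAt hnb1) (hYhd.analyticAt hnb1) (hVPne 0 h0m) (hYhne 0 h0σ),
      ← tc_logDeriv_mul (hfd.analyticAt hnbσ) (hden.analyticAt hnbσ) (hfne 0 h0σ) (hdenne 0 h0σ)]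
    apply tc_congr
    filter_upwards [hnbσ] with x hx
    refine (logDeriv_congr_nhds ?_).eq_of_nhds
    filter_upwards [isOpen_ball.mem_nhds hx] with y hy
    rw [hf]
    exact (div_mul_cancel₀ _ (hdenne y hy)).symm
  have hqtc : tc (logDeriv (qq β)) (m - 1) = - tc (logDeriv (YY d β (n + e))) (m - 1) := by
    apply tc_qq hd hβ (n + e)
    omega
  -- the error
  obtain ⟨A, hA⟩ : ∃ A, A = Pool.Agent.TH653.MB.AA' d (j + e) / (d : ℝ) ^ k := ⟨_, rfl⟩
  have hA0 : 0 ≤ A := by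
    rw [hA]
    exact div_nonneg (AA'_nonneg d (j + e)) (by positivity)
  have hqc := (qq_diff hβ).continuousOn.norm
  have hqci : CircleIntegrable (fun x => ‖qq β x‖) 0 ρ := ci_of_diff hρ hρ1 hqc
  have hbound := tc_logDeriv_bound hρ h2 hfd hfne hf0 (e := fun x => 2 * A * ‖qq β x‖)
    (hqci.const_smul (a := 2 * A)) (fun x _ => by positivity) (by
      intro x hx
      rw [mem_sphere_zero_iff_norm] at hx
      have hx1 : x ∈ ball (0 : ℂ) 1 := by rw [mem_ball_zero_iff, hx]; exact hρ1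
      have hxσ : x ∈ ball (0 : ℂ) σ := by rw [mem_ball_zero_iff, hx]; exact h2
      have hY := half_le_YY hd hβ (n + e) hx1 (by
        refine (pow_le_pow_of_le_one (norm_nonneg _) (by rw [hx]; exact hρ1.le) hNN).trans ?_
        rw [hx, ← hN]
        exact hρσN.trans hσN)
      have hS := S_bound hd hβ k (j + e) hx1
      rw [← add_assoc, ← hn, ← hA] at hS
      have hYpos : 0 < ‖YY d β (n + e) x‖ := norm_pos_iff.2 (hYσ x hxσ)
      have hDpos : 0 < ‖VP d β k (n + e) x * Yh x‖ := norm_pos_iff.2 (hdenne x hxσ)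
      have hD : ‖VP d β k (n + e) x * Yh x‖ ≤ ‖YY d β (n + e) x‖ + A := by
        have e1 : ‖VP d β k (n + e) x * Yh x‖ = ‖VP d β k (n + e) x * YY d β k x‖ := by
          rw [norm_mul, norm_mul, hYhn x hx]
        rw [e1]
        have e2 := norm_sub_norm_le (VP d β k (n + e) x * YY d β k x) (YY d β (n + e) x)
        rw [norm_sub_rev] at e2
        linarith
      have hfx : ‖f x‖ = ‖YY d β (n + e) x‖ / ‖VP d β k (n + e) x * Yh x‖ := by
        rw [hf]
        simp only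
        rw [norm_div]
      rw [hfx, neg_le, ← Real.log_inv, inv_div]
      have e3 : ‖VP d β k (n + e) x * Yh x‖ / ‖YY d β (n + e) x‖ ≤ 1 + 2 * A * ‖qq β x‖ := by
        rw [div_le_iff₀ hYpos]
        nlinarith
      refine (Real.log_le_sub_one_of_pos (by positivity)).trans ?_
      linarith) hm1
  have hav : circleAverage (fun x => 2 * A * ‖qq β x‖) 0 ρ ≤
      2 * A * Real.sqrt ((1 + EE β) * (d ^ n : ℕ)) := by
    have e1 : circleAverage (fun x => 2 * A * ‖qq β x‖) 0 ρ =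
        2 * A * circleAverage (fun x => ‖qq β x‖) 0 ρ :=
      Real.circleAverage_fun_smul (a := 2 * A) (f := fun x => ‖qq β x‖)
    rw [e1]
    apply mul_le_mul_of_nonneg_left _ (by positivity)
    rw [← hN]
    apply av_qq hβ (by omega) hρ hρ1
    exact (hρσN.trans hσN).trans (inv_le_exp (by linarith))
  have hρm : ρ ^ m = (R ^ q)⁻¹ := by
    rw [hm, mul_comm, pow_mul, hRinv, inv_pow]
  have hRd : 0 < R ^ q := by positivity
  have hfb : ‖tc (logDeriv f) (m - 1)‖ ≤ (2 * R0 d) ^ q * (8 * m * A *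
      Real.sqrt ((1 + EE β) * (d ^ n : ℕ))) := by
    rw [hρm] at hbound
    have e1 : ‖tc (logDeriv f) (m - 1)‖ =
        R ^ q * (‖tc (logDeriv f) (m - 1)‖ * (R ^ q)⁻¹) := by field_simp
    rw [e1]
    have e2 : R ^ q ≤ (2 * R0 d) ^ q := pow_le_pow_left₀ (by linarith) hR2 _
    have e3 : 4 * (m : ℝ) * circleAverage (fun x => 2 * A * ‖qq β x‖) 0 ρ ≤
        4 * m * (2 * A * Real.sqrt ((1 + EE β) * (d ^ n : ℕ))) :=
      mul_le_mul_of_nonneg_left hav (by positivity)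
    apply mul_le_mul e2 _ (by positivity) (by positivity)
    refine hbound.trans (e3.trans (le_of_eq ?_))
    ring
  have hcard : ((Multiset.card (crit d k) : ℕ) : ℝ) ≤ (d : ℝ) ^ k := by
    rw [card_crit hd]
    have : d ^ k - 1 ≤ d ^ k := Nat.sub_le _ _
    exact_mod_cast this
  have hYhb : ‖tc (logDeriv Yh) (m - 1)‖ ≤ CF * (d : ℝ) ^ k := by
    rw [hYhtc]
    exact p5.trans (mul_le_mul_of_nonneg_left hcard hCF0)
  rw [← hm, ← hA, hqtc, hYtc, hVPtc, ← hCF]
  obtain ⟨Sg, hSg⟩ : ∃ Sg, Sg = ((d - 1 : ℕ) : ℂ) *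
      ∑ i ∈ Finset.Ico k (n + e), tc (logDeriv (BB d β i)) (m - 1) := ⟨_, rfl⟩
  rw [← hSg]
  have hfin : -(tc (logDeriv f) (m - 1) + (Sg + tc (logDeriv Yh) (m - 1))) + Sg =
      -(tc (logDeriv Yh) (m - 1) + tc (logDeriv f) (m - 1)) := by ring
  rw [hfin, norm_neg]
  refine (norm_add_le _ _).trans ?_
  linarith

end Pool.Agent.TH907.ML
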