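import Mathlib
import Pool.Agent.TH907.ML.M5

set_option autoImplicit false

/-! # The coefficients of `log V_i` at `q d ^ n` -/

namespace Pool.Agent.TH907.ML

open Complex Set Topology Filter Metric MeasureTheory N62a1eb23 Pool.Agent.H712R2 Pool.Agent.H713R2
open Pool.Agent.TH653.MB
open Polynomial (X C)

variable {d : ℕ} {β : ℂ → ℂ}

theorem GG_eval (T : Polynomial (Polynomial ℂ)) (b n : ℕ) (w : ℂ) :
    (GG d T b n).eval w = (P d (n + 1) w) ^ b *
      (T.map (Polynomial.evalRingHom w)).eval ((P d (n + 1) w) ^ d) := by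
  unfold GG
  rw [Polynomial.eval_mul, Polynomial.eval_pow, eval_PP]
  congr 1
  have h1 : ((T.eval ((PP d (n + 1)) ^ d)).eval w) =
      (Polynomial.evalRingHom w) (T.eval₂ (RingHom.id _) ((PP d (n + 1)) ^ d)) := rfl
  rw [h1, Polynomial.hom_eval₂, Polynomial.eval_map, RingHom.comp_id, map_pow,
    Polynomial.coe_evalRingHom, eval_PP]

/-- at the centres of period dividing `i + 1` the values are periodic -/
theorem GG_periodic (T : Polynomial (Polynomial ℂ)) (b : ℕ) {i s n : ℕ} (hn : n = i + 1 + s) {w : ℂ}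
    (hw : w ∈ (PP d (i + 1)).roots) : (GG d T b n).eval w = (GG d T b s).eval w := by
  rw [GG_eval, GG_eval, hn, add_assoc, P_periodic (roots_P hw)]

theorem tc_BB_fab (hd : 2 ≤ d) (hβ : IsBeta d β) {q : ℕ} {G : ℕ → Polynomial ℂ} {H : ℕ → ℂ → ℂ}
    {D n₀ : ℕ} {K : ℝ} (hF : IsFab d β q G H D n₀ K) (hq : 1 ≤ q) {n : ℕ} (hn : n₀ ≤ n) (i : ℕ) :
    tc (logDeriv (BB d β i)) (q * d ^ n - 1) =
      - ((PP d (i + 1)).roots.map (fun w => (G n).eval w)).sum := by
  rw [tc_BB hd hβ]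
  simp only [fab_coef hd hβ hF hq hn]
  rw [Multiset.sum_map_neg]

/-- the constant term of `G s (ψ)` -/
noncomputable def gam (β : ℂ → ℂ) (p : Polynomial ℂ) : ℂ := tc (hom β p p.natDegree) p.natDegree

theorem tc_BB_low_s (hd : 2 ≤ d) (hβ : IsBeta d β) {q b : ℕ} {T : Polynomial (Polynomial ℂ)}
    {H : ℕ → ℂ → ℂ} {D n₀ : ℕ} {K : ℝ} (hF : IsFab d β q (GG d T b) H D n₀ K) (hq : 1 ≤ q)
    {n i s : ℕ} (hn : n₀ ≤ n) (his : n = i + 1 + s) (hs : (GG d T b s).natDegree + 1 < d ^ (i + 1)) :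
    tc (logDeriv (BB d β i)) (q * d ^ n - 1) = - ((d : ℂ) ^ i * gam β (GG d T b s)) := by
  rw [tc_BB_fab hd hβ hF hq hn i]
  have h1 : (PP d (i + 1)).roots.map (fun w => (GG d T b n).eval w) =
      (PP d (i + 1)).roots.map (fun w => (GG d T b s).eval w) :=
    Multiset.map_congr rfl fun w hw => GG_periodic T b his hw
  rw [h1, sum_roots hd hβ _ _ (hom_diff hβ _ _) (fun x _ hx0 => hom_eval _ le_rfl hx0) hs]
  rfl

theorem tc_BB_high_s (hd : 2 ≤ d) (hβ : IsBeta d β) {q b : ℕ} {T : Polynomial (Polynomial ℂ)}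
    {H : ℕ → ℂ → ℂ} {D n₀ : ℕ} {K : ℝ} (hF : IsFab d β q (GG d T b) H D n₀ K) (hq : 1 ≤ q)
    {n i s : ℕ} (hn : n₀ ≤ n) (his : n = i + 1 + s) (hs0 : n₀ ≤ s)
    (hs : q * d ^ s + 1 < d ^ (i + 1)) :
    tc (logDeriv (BB d β i)) (q * d ^ n - 1) = 0 := by
  rw [tc_BB_fab hd hβ hF hq hn i]
  have h1 : (PP d (i + 1)).roots.map (fun w => (GG d T b n).eval w) =
      (PP d (i + 1)).roots.map (fun w => (GG d T b s).eval w) :=
    Multiset.map_congr rfl fun w hw => GG_periodic T b his hw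
  have h2 : D < d ^ s := lt_of_lt_of_le hF.large (Nat.pow_le_pow_right (by omega) hs0)
  have h3 : 1 ≤ q * d ^ s := Nat.mul_pos (by omega) (by omega)
  rw [h1, sum_roots hd hβ _ _ (hF.diff s) (hF.eval s hs0) hs, tc_fab hF hs0 h3 (by omega),
    mul_zero, neg_zero]

theorem exists_fabC (hd : 2 ≤ d) (hβ : IsBeta d β) {b a : ℕ} (hb : b < d) (hq : 1 ≤ b + d * a) :
    ∃ T : Polynomial (Polynomial ℂ), T.Monic ∧ T.natDegree = a ∧ ∃ (D n₀ : ℕ) (K : ℝ)
      (H : ℕ → ℂ → ℂ), IsFab d β (b + d * a) (GG d T b) H D n₀ K := by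
  obtain ⟨T, h1, h2, D, n₀, K, h3⟩ := exists_fab hd hβ hb hq
  exact ⟨T.map cmap, h1.map _, by rw [h1.natDegree_map, h2], D, n₀, K, _, h3⟩

theorem GG_add (S S' : Polynomial (Polynomial ℂ)) (b n : ℕ) :
    GG d (S + S') b n = GG d S b n + GG d S' b n := by
  unfold GG
  rw [Polynomial.eval_add, mul_add]

theorem GG_C_mul (ρ : Polynomial ℂ) (S : Polynomial (Polynomial ℂ)) (b n : ℕ) :
    GG d (C ρ * S) b n = ρ * GG d S b n := by
  unfold GG
  rw [Polynomial.eval_mul, Polynomial.eval_C]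
  ring

theorem sum_term_zero (hd : 2 ≤ d) (hβ : IsBeta d β) {q : ℕ} {G : ℕ → Polynomial ℂ}
    {H : ℕ → ℂ → ℂ} {D n₀ : ℕ} {K : ℝ} (hF : IsFab d β q G H D n₀ K) (hq : 1 ≤ q) {r : ℕ}
    (hr : q < d ^ r) (ρ : Polynomial ℂ) :
    ∃ n₁, ∀ n, n₁ ≤ n →
      ((PP d (n + r + 1)).roots.map (fun w => (ρ * G n).eval w)).sum = 0 := by
  obtain ⟨D', hD'⟩ : ∃ D', D' = ρ.natDegree := ⟨_, rfl⟩
  refine ⟨n₀ + D + D' + 2, fun n hn => ?_⟩
  have hn0 : n₀ ≤ n := by omega
  have h1 : n < d ^ n := Nat.lt_pow_self (by omega)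
  obtain ⟨m, hm⟩ : ∃ m, m = q * d ^ n := ⟨_, rfl⟩
  have hm1 : 1 ≤ m := by rw [hm]; exact Nat.mul_pos (by omega) (by omega)
  have hρ : ρ.natDegree ≤ D' := hD'.symm.le
  have hE : m + D' + 1 < d ^ (n + r + 1) := by
    have h2 : d ^ (n + r + 1) = d ^ n * d ^ r * d := by rw [pow_succ, pow_add]
    have h3 : d ^ n * (q + 1) ≤ d ^ n * d ^ r := Nat.mul_le_mul_left _ hr
    have h4 : d ^ n * d ^ r * 2 ≤ d ^ n * d ^ r * d := Nat.mul_le_mul_left _ hd
    have h5 : d ^ n * (q + 1) = m + d ^ n := by rw [hm]; ring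
    omega
  rw [sum_roots hd hβ (ρ * G n) (m + D') (H := fun x => hom β ρ D' x * H n x)
    ((hom_diff hβ ρ D').mul (hF.diff n)) (by
      intro x hx hx0
      rw [hom_eval ρ hρ hx0, hF.eval n hn0 x hx hx0, Polynomial.eval_mul, ← hm, pow_add]
      ring) hE, tc_mul one_pos (hom_diff hβ ρ D') (hF.diff n)]
  rw [Finset.sum_eq_zero, mul_zero]
  intro p hp
  rw [Finset.HasAntidiagonal.mem_antidiagonal] at hp
  rcases Nat.eq_zero_or_pos p.2 with h2 | h2
  · have h3 : p.1 = m + D' := by omega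
    rw [h3, tc_deep_zero hβ (G n) ρ (E := m) (D := D') (K := q * d ^ n + d ^ n - D) hm1 (by omega)
      (hF.diff n) (by rw [hm]; exact hF.eval n hn0) (hF.order n hn0) (hom_diff hβ ρ D')
      (fun x _ hx0 => hom_eval ρ hρ hx0), zero_mul]
  · rw [tc_fab hF hn0 h2 (by omega), mul_zero]

theorem sum_add_aux (S : Multiset ℂ) (A B : Polynomial ℂ)
    (hA : (S.map (fun w => A.eval w)).sum = 0) (hB : (S.map (fun w => B.eval w)).sum = 0) :
    (S.map (fun w => (A + B).eval w)).sum = 0 := by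
  simp only [Polynomial.eval_add]
  rw [Multiset.sum_map_add, hA, hB, add_zero]

theorem sum_GG_zero (hd : 2 ≤ d) (hβ : IsBeta d β) {b : ℕ} (hb1 : 1 ≤ b) (hb : b < d) {r : ℕ} (J : ℕ)
    (hJ : b + d * J < d ^ r) (S : Polynomial (Polynomial ℂ)) (hS : S.natDegree ≤ J) :
    ∃ n₁, ∀ n, n₁ ≤ n → ((PP d (n + r + 1)).roots.map (fun w => (GG d S b n).eval w)).sum = 0 := by
  induction J generalizing S with
  | zero =>
    obtain ⟨T, hT1, hT2, D, n₀, K, H, hF⟩ := exists_fabC hd hβ (a := 0) hb (by omega)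
    have hT3 : T = 1 := hT1.natDegree_eq_zero.1 hT2
    subst hT3
    have hSc : S = C (S.coeff 0) * 1 := by
      rw [mul_one]
      exact Polynomial.eq_C_of_natDegree_le_zero hS
    obtain ⟨n₁, h1⟩ := sum_term_zero hd hβ hF (by omega) hJ (S.coeff 0)
    refine ⟨n₁, fun n hn => ?_⟩
    rw [hSc, GG_C_mul]
    exact h1 n hn
  | succ J ih =>
    obtain ⟨T, hT1, hT2, D, n₀, K, H, hF⟩ := exists_fabC hd hβ (a := J + 1) hb (by omega)
    obtain ⟨n₁, h1⟩ := sum_term_zero hd hβ hF (by omega) hJ (S.coeff (J + 1))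
    have h2 : (S - C (S.coeff (J + 1)) * T).natDegree ≤ J := by
      have h3 : (S - C (S.coeff (J + 1)) * T).natDegree ≤ J + 1 := by
        refine (Polynomial.natDegree_sub_le _ _).trans (max_le hS ?_)
        refine (Polynomial.natDegree_C_mul_le _ _).trans hT2.le
      have h4 : (S - C (S.coeff (J + 1)) * T).coeff (J + 1) = 0 := by
        rw [Polynomial.coeff_sub, Polynomial.coeff_C_mul]
        have : T.coeff (J + 1) = 1 := by
          rw [← hT2]
          exact hT1.coeff_natDegree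
        rw [this, mul_one, sub_self]
      rw [Polynomial.natDegree_le_iff_coeff_eq_zero] at h3 ⊢
      intro l hl
      rcases eq_or_lt_of_le (Nat.succ_le_of_lt hl) with h5 | h5
      · rw [← h5]
        exact h4
      · exact h3 l h5
    obtain ⟨n₂, h3⟩ := ih (by
      have : d * (J + 1) = d * J + d := by ring
      omega) _ h2
    refine ⟨max n₁ n₂, fun n hn => ?_⟩
    have h4 : S = C (S.coeff (J + 1)) * T + (S - C (S.coeff (J + 1)) * T) := by ring
    have h5 : GG d S b n = S.coeff (J + 1) * GG d T b n + GG d (S - C (S.coeff (J + 1)) * T) b n := by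
      conv_lhs => rw [h4]
      rw [GG_add, GG_C_mul]
    rw [h5]
    exact sum_add_aux _ _ _ (h1 n (le_trans (le_max_left _ _) hn))
      (h3 n (le_trans (le_max_right _ _) hn))

/-- beyond the index `n` all coefficients vanish -/
theorem tc_BB_beyond (hd : 2 ≤ d) (hβ : IsBeta d β) {q b a : ℕ} (hb1 : 1 ≤ b) (hb : b < d)
    {T : Polynomial (Polynomial ℂ)}
    {H : ℕ → ℂ → ℂ} {D n₀ : ℕ} {K : ℝ} (hF : IsFab d β q (GG d T b) H D n₀ K)
    (hq : q = b + d * a) (r : ℕ) :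
    ∃ n₁, ∀ n, n₁ ≤ n → tc (logDeriv (BB d β (n + r))) (q * d ^ n - 1) = 0 := by
  cases r with
  | zero =>
    refine ⟨n₀, fun n hn => ?_⟩
    rw [tc_BB_fab hd hβ hF (by omega) hn, neg_eq_zero]
    apply Multiset.sum_eq_zero
    intro v hv
    rw [Multiset.mem_map] at hv
    obtain ⟨w, hw, rfl⟩ := hv
    rw [add_zero] at hw
    rw [GG_eval, roots_P hw, zero_pow (by omega), zero_mul]
  | succ r =>
    obtain ⟨hPm, hPd⟩ := PHI_monic ℂ hd r
    have hmod : T %ₘ (PHI ℂ d r) + PHI ℂ d r * (T /ₘ (PHI ℂ d r)) = T :=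
      Polynomial.modByMonic_add_div T _
    have hdr : 1 ≤ d ^ r := Nat.one_le_pow _ _ (by omega)
    have hdeg : (T %ₘ (PHI ℂ d r)).natDegree ≤ d ^ r - 1 := by
      have h1 := Polynomial.degree_modByMonic_lt T hPm
      rw [Polynomial.degree_eq_natDegree hPm.ne_zero, hPd] at h1
      by_cases h0 : T %ₘ (PHI ℂ d r) = 0
      · rw [h0, Polynomial.natDegree_zero]
        omega
      · have := (Polynomial.natDegree_lt_iff_degree_lt h0).2 h1
        omega
    obtain ⟨n₁, h1⟩ := sum_GG_zero hd hβ hb1 hb (r := r + 1) (d ^ r - 1) (by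
      obtain ⟨E, hE⟩ : ∃ E, d ^ r = E + 1 := Nat.exists_eq_add_of_le' hdr
      rw [pow_succ, hE, Nat.add_sub_cancel, add_mul, one_mul, mul_comm d]
      omega) _ hdeg
    refine ⟨max n₀ n₁, fun n hn => ?_⟩
    rw [tc_BB_fab hd hβ hF (by omega) (le_trans (le_max_left _ _) hn), neg_eq_zero]
    rw [← h1 n (le_trans (le_max_right _ _) hn)]
    congr 1
    apply Multiset.map_congr rfl
    intro w hw
    have h2 : (PHI ℂ d r).eval ((PP d (n + 1)) ^ d) = PP d (n + (r + 1) + 1) := by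
      rw [PHI_eval]
      congr 1
      omega
    have h3 : GG d T b n = GG d (T %ₘ (PHI ℂ d r)) b n +
        PP d (n + (r + 1) + 1) * GG d (T /ₘ (PHI ℂ d r)) b n := by
      conv_lhs => rw [← hmod]
      rw [GG_add, ← h2]
      congr 1
      unfold GG
      rw [Polynomial.eval_mul]
      ring
    rw [h3, Polynomial.eval_add, Polynomial.eval_mul, eval_PP, roots_P hw, zero_mul, add_zero]

end Pool.Agent.TH907.ML
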