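import Mathlib
import Pool.Agent.TH907.ML.M6

set_option autoImplicit false

/-! # The limits, with a rate -/

namespace Pool.Agent.TH907.ML

open Complex Set Topology Filter Metric MeasureTheory N62a1eb23 Pool.Agent.H712R2 Pool.Agent.H713R2
open Pool.Agent.TH653.MB
open Polynomial (X C)

variable {d : ℕ} {β : ℂ → ℂ}

theorem AAb (hd : 2 ≤ d) (j : ℕ) : Pool.Agent.TH653.MB.AA' d j ≤ (2 : ℝ) ^ ((d - 1) * j) - 1 := by
  induction j with
  | zero => simp [Pool.Agent.TH653.MB.AA']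
  | succ j ih =>
    simp only [Pool.Agent.TH653.MB.AA']
    have h1 : (2 : ℝ) ≤ 2 ^ (d - 1) := by
      calc (2 : ℝ) = 2 ^ 1 := (pow_one _).symm
        _ ≤ 2 ^ (d - 1) := pow_le_pow_right₀ (by norm_num) (by omega)
    have h2 : (2 : ℝ) ^ ((d - 1) * (j + 1)) = 2 ^ (d - 1) * 2 ^ ((d - 1) * j) := by
      rw [← pow_add]
      congr 1
      ring
    rw [h2]
    have h3 : (2 : ℝ) ^ (d - 1) * Pool.Agent.TH653.MB.AA' d j ≤
        2 ^ (d - 1) * (2 ^ ((d - 1) * j) - 1) := mul_le_mul_of_nonneg_left ih (by positivity)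
    linarith

/-- the sum of the coefficients -/
theorem sum_eval (hd : 2 ≤ d) (hβ : IsBeta d β) {q b a : ℕ} (hb1 : 1 ≤ b) (hb : b < d)
    {T : Polynomial (Polynomial ℂ)}
    {H : ℕ → ℂ → ℂ} {D n₀ : ℕ} {K : ℝ} (hF : IsFab d β q (GG d T b) H D n₀ K)
    (hq : q = b + d * a) (e : ℕ) :
    ∃ N₁, ∀ n j, N₁ ≤ n → n₀ ≤ j → 2 * j + q + 1 ≤ n →
      ∑ i ∈ Finset.Ico (n - j) (n + e), tc (logDeriv (BB d β i)) (q * d ^ n - 1) =
        - ∑ s ∈ Finset.range n₀, (d : ℂ) ^ (n - 1 - s) * gam β (GG d T b s) := by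
  have hr := fun r => tc_BB_beyond hd hβ hb1 hb hF hq r
  choose N hN using hr
  obtain ⟨Nm, hNm⟩ : ∃ Nm, Nm = ∑ s ∈ Finset.range n₀, (GG d T b s).natDegree := ⟨_, rfl⟩
  have hNm1 : ∀ s, s < n₀ → (GG d T b s).natDegree ≤ Nm := by
    intro s hs
    rw [hNm]
    exact Finset.single_le_sum (f := fun s => (GG d T b s).natDegree) (fun _ _ => Nat.zero_le _)
      (Finset.mem_range.2 hs)
  refine ⟨(∑ r ∈ Finset.range e, N r) + n₀ + Nm + 2, fun n j hn hj hjn => ?_⟩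
  rw [← Finset.sum_Ico_consecutive _ (show n - j ≤ n by omega) (show n ≤ n + e by omega)]
  have h1 : ∑ i ∈ Finset.Ico n (n + e), tc (logDeriv (BB d β i)) (q * d ^ n - 1) = 0 := by
    rw [Finset.sum_Ico_eq_sum_range, Nat.add_sub_cancel_left]
    apply Finset.sum_eq_zero
    intro r hr
    apply hN
    have : N r ≤ ∑ r ∈ Finset.range e, N r :=
      Finset.single_le_sum (f := N) (fun _ _ => Nat.zero_le _) hr
    omega
  rw [h1, add_zero, Finset.sum_Ico_eq_sum_range, show n - (n - j) = j by omega,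
    ← Finset.sum_range_reflect]
  have hsub : Finset.range n₀ ⊆ Finset.range j := Finset.range_subset_range.2 hj
  rw [← Finset.sum_subset hsub]
  · rw [← Finset.sum_neg_distrib]
    apply Finset.sum_congr rfl
    intro s hs
    rw [Finset.mem_range] at hs
    have h2 : n - j + (j - 1 - s) = n - 1 - s := by omega
    rw [h2]
    apply tc_BB_low_s hd hβ hF (by omega) (by omega) (by omega)
    have h3 := hNm1 s hs
    have h4 : n - 1 - s + 1 < d ^ (n - 1 - s + 1) := Nat.lt_pow_self (by omega)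
    omega
  · intro s hs1 hs2
    rw [Finset.mem_range] at hs1
    rw [Finset.mem_range, not_lt] at hs2
    have h2 : n - j + (j - 1 - s) = n - 1 - s := by omega
    rw [h2]
    apply tc_BB_high_s hd hβ hF (by omega) (by omega) (by omega) hs2
    have h3 : q < d ^ q := Nat.lt_pow_self (by omega)
    have h4 : 1 ≤ d ^ s := Nat.one_le_pow _ _ (by omega)
    have h5 : (q + 1) * d ^ s ≤ d ^ q * d ^ s := Nat.mul_le_mul_right _ h3
    have h6 : d ^ q * d ^ s = d ^ (q + s) := (pow_add _ _ _).symm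
    have h7 : d ^ (q + s) < d ^ (n - 1 - s + 1) := Nat.pow_lt_pow_right (by omega) (by omega)
    have h8 : (q + 1) * d ^ s = q * d ^ s + d ^ s := by ring
    omega

/-- the limit -/
noncomputable def lim (d : ℕ) (β : ℂ → ℂ) (T : Polynomial (Polynomial ℂ)) (b q n₀ : ℕ) : ℂ :=
  ((d - 1 : ℕ) : ℂ) / q * ∑ s ∈ Finset.range n₀, gam β (GG d T b s) / (d : ℂ) ^ (s + 1)

theorem coef_rate (hd : 2 ≤ d) (hβ : IsBeta d β) {q b a : ℕ} (hb1 : 1 ≤ b) (hb : b < d)
    {T : Polynomial (Polynomial ℂ)}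
    {H : ℕ → ℂ → ℂ} {D n₀ : ℕ} {K : ℝ} (hF : IsFab d β q (GG d T b) H D n₀ K)
    (hq : q = b + d * a) :
    ∃ C : ℝ, ∀ n, ‖tc (logDeriv (qq β)) (q * d ^ n - 1) / ((q * d ^ n : ℕ) : ℂ) -
      lim d β T b q n₀‖ ≤ C / (d : ℝ) ^ (n / (2 * (d + 1))) := by
  have hq1 : 1 ≤ q := by omega
  have hd0 : (0 : ℝ) < d := by exact_mod_cast (show 0 < d by omega)
  have hd1 : (1 : ℝ) ≤ d := by exact_mod_cast (show 1 ≤ d by omega)
  have hd2 : (2 : ℝ) ≤ d := by exact_mod_cast hd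
  have hdC : (d : ℂ) ≠ 0 := by exact_mod_cast hd0.ne'
  have hq0 : (0 : ℝ) < q := by exact_mod_cast hq1
  have hq1' : (1 : ℝ) ≤ q := by exact_mod_cast hq1
  have hqC : (q : ℂ) ≠ 0 := by exact_mod_cast hq0.ne'
  have hK0 : 0 ≤ K := by
    have h1 := hF.bound 0 0 ((mem_multibrot_iff hd 0).2 (by
      intro k
      have : P d k 0 = 0 := by
        induction k with
        | zero => rfl
        | succ k ih => rw [P_succ, ih, zero_pow (by omega), add_zero]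
      rw [this, norm_zero]
      norm_num))
    exact (norm_nonneg _).trans h1
  obtain ⟨e, he⟩ : ∃ e, q + 1 ≤ d ^ (e + 1) := ⟨q, by
    have h1 : q + 1 < d ^ (q + 1) := Nat.lt_pow_self (by omega)
    omega⟩
  obtain ⟨N₁, hN₁⟩ := sum_eval hd hβ hb1 hb hF hq e
  have hR := R0_ge d
  have hR0 : 0 < R0 d := by linarith
  have hE := EE_nonneg β
  obtain ⟨κ, hκ⟩ : ∃ κ, κ = 2 * (d + 1) := ⟨_, rfl⟩
  obtain ⟨C1, hC1⟩ : ∃ C1 : ℝ, C1 = (1 + K) * (2 * R0 d) ^ q := ⟨_, rfl⟩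
  obtain ⟨C2, hC2⟩ : ∃ C2 : ℝ, C2 = (2 * R0 d) ^ q * 8 * 2 ^ ((d - 1) * e) * Real.sqrt (1 + EE β) :=
    ⟨_, rfl⟩
  have hC10 : 0 ≤ C1 := by rw [hC1]; positivity
  have hC20 : 0 ≤ C2 := by rw [hC2]; positivity
  obtain ⟨u, hu⟩ : ∃ u : ℕ → ℂ, u = fun n => tc (logDeriv (qq β)) (q * d ^ n - 1) /
      ((q * d ^ n : ℕ) : ℂ) - lim d β T b q n₀ := ⟨_, rfl⟩
  obtain ⟨N₂, hN₂⟩ : ∃ N₂, N₂ = N₁ + κ * (n₀ + 1) + 3 * (q + 1) + n₀ := ⟨_, rfl⟩
  have hev : ∀ n, N₂ ≤ n → ‖u n‖ ≤ (C1 + C2) / (d : ℝ) ^ (n / κ) := by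
    intro n hn
    obtain ⟨j, hj⟩ : ∃ j, j = n / κ := ⟨_, rfl⟩
    rw [← hj]
    have hκ0 : 0 < κ := by rw [hκ]; omega
    have hκj : κ * j ≤ n := by rw [hj]; exact Nat.mul_div_le n κ
    have hj0 : n₀ + 1 ≤ j := by
      rw [hj, Nat.le_div_iff_mul_le hκ0, mul_comm]
      omega
    have h6j : 6 * j ≤ n := by
      have : 6 * j ≤ κ * j := Nat.mul_le_mul_right _ (by rw [hκ]; omega)
      omega
    have hjn : 2 * j + q + 1 ≤ n := by omega
    have hest := main_estF hd hβ hF hq1 hK0 (k := n - j) (j := j) (e := e) (n := n) (by omega)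
      (by omega) (by omega) he
    rw [hN₁ n j (by omega) (by omega) hjn] at hest
    obtain ⟨m, hm⟩ : ∃ m, m = q * d ^ n := ⟨_, rfl⟩
    have hm1 : 1 ≤ m := by
      rw [hm]
      exact Nat.mul_pos hq1 (pow_pos (by omega) _)
    have hm0 : (0 : ℝ) < m := by exact_mod_cast hm1
    have hmC : (m : ℂ) ≠ 0 := by exact_mod_cast hm0.ne'
    have hmr : (m : ℝ) = q * (d : ℝ) ^ n := by rw [hm]; push_cast; ring
    have hmc : (m : ℂ) = q * (d : ℂ) ^ n := by rw [hm]; push_cast; ring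
    have e1 : u n = (tc (logDeriv (qq β)) (m - 1) + ((d - 1 : ℕ) : ℂ) *
        -∑ s ∈ Finset.range n₀, (d : ℂ) ^ (n - 1 - s) * gam β (GG d T b s)) / m := by
      rw [hu]
      simp only
      rw [← hm, add_div, sub_eq_add_neg]
      congr 1
      unfold lim
      rw [mul_neg, neg_div, Finset.mul_sum, Finset.mul_sum, Finset.sum_div]
      congr 1
      apply Finset.sum_congr rfl
      intro s hs
      rw [Finset.mem_range] at hs
      have h1 : (d : ℂ) ^ n = (d : ℂ) ^ (n - 1 - s) * (d : ℂ) ^ (s + 1) := by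
        rw [← pow_add]
        congr 1
        omega
      rw [hmc, h1]
      have := pow_ne_zero (n - 1 - s) hdC
      have := pow_ne_zero (s + 1) hdC
      field_simp
    rw [e1, norm_div, Complex.norm_natCast, div_le_iff₀ hm0]
    rw [← hm] at hest
    refine hest.trans ?_
    have hdj : (0 : ℝ) < (d : ℝ) ^ j := by positivity
    have hdk : (0 : ℝ) < (d : ℝ) ^ (n - j) := by positivity
    have hdn : (d : ℝ) ^ n = (d : ℝ) ^ (n - j) * (d : ℝ) ^ j := by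
      rw [← pow_add]
      congr 1
      omega
    have f1 : (1 + K) * (2 * R0 d) ^ q * (d : ℝ) ^ (n - j) ≤ C1 / (d : ℝ) ^ j * m := by
      rw [← hC1, hmr, hdn]
      have : C1 / (d : ℝ) ^ j * (q * ((d : ℝ) ^ (n - j) * (d : ℝ) ^ j)) =
          C1 * (d : ℝ) ^ (n - j) * q := by field_simp
      rw [this]
      exact le_mul_of_one_le_right (by positivity) hq1'
    obtain ⟨sn, hsn⟩ : ∃ sn, sn = Real.sqrt ((d : ℝ) ^ n) := ⟨_, rfl⟩
    have hsn0 : 0 < sn := by rw [hsn]; exact Real.sqrt_pos.2 (by positivity)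
    have hsn2 : sn * sn = (d : ℝ) ^ n := by rw [hsn]; exact Real.mul_self_sqrt (by positivity)
    have hsnj : (d : ℝ) ^ ((d + 1) * j) ≤ sn := by
      rw [hsn]
      apply Real.le_sqrt_of_sq_le
      rw [← pow_mul]
      apply pow_le_pow_right₀ hd1
      have : (d + 1) * j * 2 = κ * j := by rw [hκ]; ring
      omega
    have hs : Real.sqrt ((1 + EE β) * ((d ^ n : ℕ) : ℝ)) = Real.sqrt (1 + EE β) * sn := by
      rw [Real.sqrt_mul (by linarith), hsn]
      push_cast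
      rfl
    have hA : Pool.Agent.TH653.MB.AA' d (j + e) ≤ 2 ^ ((d - 1) * e) * (d : ℝ) ^ ((d - 1) * j) := by
      refine (AAb hd _).trans ?_
      have h1 : (2 : ℝ) ^ ((d - 1) * (j + e)) = 2 ^ ((d - 1) * e) * 2 ^ ((d - 1) * j) := by
        rw [← pow_add]
        congr 1
        ring
      rw [h1]
      have h2 : (2 : ℝ) ^ ((d - 1) * j) ≤ (d : ℝ) ^ ((d - 1) * j) :=
        pow_le_pow_left₀ (by norm_num) hd2 _
      have h3 : (2 : ℝ) ^ ((d - 1) * e) * 2 ^ ((d - 1) * j) ≤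
          2 ^ ((d - 1) * e) * (d : ℝ) ^ ((d - 1) * j) := mul_le_mul_of_nonneg_left h2 (by positivity)
      linarith
    have f2 : (2 * R0 d) ^ q * (8 * (m : ℝ) * (Pool.Agent.TH653.MB.AA' d (j + e) /
        (d : ℝ) ^ (n - j)) * Real.sqrt ((1 + EE β) * ((d ^ n : ℕ) : ℝ))) ≤
        C2 / (d : ℝ) ^ j * m := by
      rw [hs]
      have g1 : (2 * R0 d) ^ q * (8 * (m : ℝ) * (Pool.Agent.TH653.MB.AA' d (j + e) /
        (d : ℝ) ^ (n - j)) * (Real.sqrt (1 + EE β) * sn)) ≤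
        (2 * R0 d) ^ q * (8 * (m : ℝ) * ((2 ^ ((d - 1) * e) * (d : ℝ) ^ ((d - 1) * j)) /
        (d : ℝ) ^ (n - j)) * (Real.sqrt (1 + EE β) * sn)) := by gcongr
      refine g1.trans ?_
      have g2 : (2 * R0 d) ^ q * (8 * (m : ℝ) * ((2 ^ ((d - 1) * e) * (d : ℝ) ^ ((d - 1) * j)) /
        (d : ℝ) ^ (n - j)) * (Real.sqrt (1 + EE β) * sn)) =
        C2 * m * ((d : ℝ) ^ ((d - 1) * j) / (d : ℝ) ^ (n - j) * sn) := by
        rw [hC2]
        ring
      rw [g2]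
      have g3 : (d : ℝ) ^ ((d - 1) * j) / (d : ℝ) ^ (n - j) * sn ≤ 1 / (d : ℝ) ^ j := by
        rw [div_mul_eq_mul_div, div_le_div_iff₀ hdk hdj, one_mul]
        have h1 : (d : ℝ) ^ ((d - 1) * j) * (d : ℝ) ^ j * (d : ℝ) ^ j = (d : ℝ) ^ ((d + 1) * j) := by
          rw [← pow_add, ← pow_add]
          congr 1
          obtain ⟨f, hf⟩ : ∃ f, d = f + 1 := Nat.exists_eq_add_of_le' (by omega : 1 ≤ d)
          rw [hf, Nat.add_sub_cancel]
          ring
        have h2 : (d : ℝ) ^ ((d - 1) * j) * sn * (d : ℝ) ^ j * (d : ℝ) ^ j ≤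
            (d : ℝ) ^ (n - j) * (d : ℝ) ^ j := by
          calc (d : ℝ) ^ ((d - 1) * j) * sn * (d : ℝ) ^ j * (d : ℝ) ^ j =
              (d : ℝ) ^ ((d - 1) * j) * (d : ℝ) ^ j * (d : ℝ) ^ j * sn := by ring
            _ = (d : ℝ) ^ ((d + 1) * j) * sn := by rw [h1]
            _ ≤ sn * sn := mul_le_mul_of_nonneg_right hsnj hsn0.le
            _ = _ := by rw [hsn2, hdn]
        exact le_of_mul_le_mul_right h2 hdj
      calc C2 * m * ((d : ℝ) ^ ((d - 1) * j) / (d : ℝ) ^ (n - j) * sn) ≤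
          C2 * m * (1 / (d : ℝ) ^ j) := mul_le_mul_of_nonneg_left g3 (by positivity)
        _ = C2 / (d : ℝ) ^ j * m := by ring
    have f3 : (C1 + C2) / (d : ℝ) ^ j * m = C1 / (d : ℝ) ^ j * m + C2 / (d : ℝ) ^ j * m := by ring
    rw [f3]
    linarith
  refine ⟨(C1 + C2) + ∑ n ∈ Finset.range N₂, ‖u n‖ * (d : ℝ) ^ (n / κ), fun n => ?_⟩
  have hun : tc (logDeriv (qq β)) (q * d ^ n - 1) / ((q * d ^ n : ℕ) : ℂ) - lim d β T b q n₀ = u n := by
    rw [hu]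
  rw [hun, ← hκ]
  have hdj : (0 : ℝ) < (d : ℝ) ^ (n / κ) := by positivity
  have hS : 0 ≤ ∑ n ∈ Finset.range N₂, ‖u n‖ * (d : ℝ) ^ (n / κ) :=
    Finset.sum_nonneg fun _ _ => by positivity
  by_cases hn : N₂ ≤ n
  · refine (hev n hn).trans ?_
    apply div_le_div_of_nonneg_right _ hdj.le
    linarith
  · rw [le_div_iff₀ hdj]
    have := Finset.single_le_sum (f := fun n => ‖u n‖ * (d : ℝ) ^ (n / κ))
      (fun _ _ => by positivity) (Finset.mem_range.2 (not_le.1 hn))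
    linarith

end Pool.Agent.TH907.ML
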