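import Mathlib
import Pool.Agent.TH907.ML.M6

set_option autoImplicit false

/-! # Rationality -/

namespace Pool.Agent.TH907.ML

open Complex Set Topology Filter Metric MeasureTheory N62a1eb23 Pool.Agent.H712R2 Pool.Agent.H713R2
open Pool.Agent.TH653.MB
open Polynomial (X C)

variable {d : ℕ} {β : ℂ → ℂ}

/-- the rational numbers inside `ℂ` -/
noncomputable def QC : Subfield ℂ := (algebraMap ℚ ℂ).fieldRange

theorem mem_QC {z : ℂ} : z ∈ QC ↔ ∃ r : ℚ, (r : ℂ) = z := by
  unfold QC
  rw [RingHom.mem_fieldRange]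
  simp

theorem nat_mem_QC (n : ℕ) : (n : ℂ) ∈ QC := natCast_mem QC n

/-- coefficients rational below `k` -/
theorem tc_mul_mem {F G : ℂ → ℂ} (hF : DifferentiableOn ℂ F (ball 0 1))
    (hG : DifferentiableOn ℂ G (ball 0 1)) {k : ℕ} (h1 : ∀ j, j ≤ k → tc F j ∈ QC)
    (h2 : ∀ j, j ≤ k → tc G j ∈ QC) : tc (fun x => F x * G x) k ∈ QC := by
  rw [tc_mul one_pos hF hG]
  apply sum_mem
  intro p hp
  rw [Finset.HasAntidiagonal.mem_antidiagonal] at hp
  exact mul_mem (h1 _ (by omega)) (h2 _ (by omega))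

theorem tc_one (k : ℕ) : tc (fun _ => (1 : ℂ)) k ∈ QC := by
  cases k with
  | zero => rw [tc_zero]; exact one_mem _
  | succ k => rw [tc_const_succ]; exact zero_mem _

theorem tc_pow_mem {F : ℂ → ℂ} (hF : DifferentiableOn ℂ F (ball 0 1)) (h0 : F 0 = 1) {k : ℕ}
    (hk : 1 ≤ k) (h : ∀ j, j < k → tc F j ∈ QC) (e : ℕ) :
    (∀ j, j < k → tc (fun x => F x ^ e) j ∈ QC) ∧
      tc (fun x => F x ^ e) k - e * tc F k ∈ QC := by
  induction e with
  | zero =>
    simp only [pow_zero, Nat.cast_zero, zero_mul, sub_zero]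
    exact ⟨fun j _ => tc_one j, tc_one k⟩
  | succ e ih =>
    obtain ⟨h1, h2⟩ := ih
    have hFe : DifferentiableOn ℂ (fun x => F x ^ e) (ball 0 1) := hF.pow e
    constructor
    · intro j hj
      simp only [pow_succ]
      exact tc_mul_mem hFe hF (fun i hi => h1 i (by omega)) (fun i hi => h i (by omega))
    · simp only [pow_succ]
      rw [tc_mul one_pos hFe hF]
      have hs : ∑ p ∈ Finset.HasAntidiagonal.antidiagonal k, tc (fun x => F x ^ e) p.1 * tc F p.2 =
          (∑ p ∈ (Finset.HasAntidiagonal.antidiagonal k).filter (fun p => p.1 ≠ 0 ∧ p.2 ≠ 0),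
            tc (fun x => F x ^ e) p.1 * tc F p.2) +
            (tc (fun x => F x ^ e) k * tc F 0 + tc (fun x => F x ^ e) 0 * tc F k) := by
        rw [← Finset.sum_filter_add_sum_filter_not (Finset.HasAntidiagonal.antidiagonal k)
          (fun p => p.1 ≠ 0 ∧ p.2 ≠ 0)]
        congr 1
        have h3 : (Finset.HasAntidiagonal.antidiagonal k).filter (fun p : ℕ × ℕ => ¬ (p.1 ≠ 0 ∧ p.2 ≠ 0)) =
            {(k, 0), (0, k)} := by
          ext p
          simp only [Finset.mem_filter, Finset.HasAntidiagonal.mem_antidiagonal, Finset.mem_insert,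
            Finset.mem_singleton, Prod.ext_iff]
          omega
        rw [h3, Finset.sum_pair]
        rw [Ne, Prod.ext_iff]
        simp only
        omega
      rw [hs, tc_zero, tc_zero, h0, one_pow]
      have h4 : (∑ p ∈ (Finset.HasAntidiagonal.antidiagonal k).filter (fun p => p.1 ≠ 0 ∧ p.2 ≠ 0),
            tc (fun x => F x ^ e) p.1 * tc F p.2) ∈ QC := by
        apply sum_mem
        intro p hp
        simp only [Finset.mem_filter, Finset.HasAntidiagonal.mem_antidiagonal] at hp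
        exact mul_mem (h1 _ (by omega)) (h _ (by omega))
      have h5 := add_mem h4 h2
      convert h5 using 1
      push_cast
      ring

theorem tc_pow_id_mul {F : ℂ → ℂ} (hF : DifferentiableOn ℂ F (ball 0 1)) (K : ℕ) :
    (∀ k, tc (fun x => x ^ K * F x) (K + k) = tc F k) ∧
      ∀ k, k < K → tc (fun x => x ^ K * F x) k = 0 := by
  induction K with
  | zero => simp
  | succ K ih =>
    obtain ⟨h1, h2⟩ := ih
    have hd : DifferentiableOn ℂ (fun x => x ^ K * F x) (ball 0 1) :=
      DifferentiableOn.mul (by fun_prop) hF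
    have h3 : (fun x => x ^ (K + 1) * F x) = fun x => x * (x ^ K * F x) := by
      funext x
      ring
    rw [h3]
    constructor
    · intro k
      rw [show K + 1 + k = (K + k) + 1 by ring, tc_id_mul one_pos hd, h1]
    · intro k hk
      cases k with
      | zero => rw [tc_zero, zero_mul]
      | succ k => rw [tc_id_mul one_pos hd, h2 k (by omega)]

theorem tc_BB_mem (hd : 2 ≤ d) (hβ : IsBeta d β) (n : ℕ) {k : ℕ} (hk : 1 ≤ k)
    (h : ∀ j, j < k → tc β j ∈ QC) :
    (∀ j, j < k → tc (BB d β n) j ∈ QC) ∧ tc (BB d β n) k - (d : ℂ) ^ n * tc β k ∈ QC := by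
  induction n with
  | zero =>
    refine ⟨h, ?_⟩
    rw [pow_zero, one_mul]
    change tc β k - tc β k ∈ QC
    rw [sub_self]
    exact zero_mem _
  | succ n ih =>
    obtain ⟨h1, h2⟩ := ih
    have hBd := BB_diff (d := d) hβ.diff n
    obtain ⟨h3, h4⟩ := tc_pow_mem hBd (BB_zero_val hd hβ n) hk h1 d
    obtain ⟨K, hK⟩ : ∃ K, K = d ^ (n + 1) - 1 := ⟨_, rfl⟩
    have hK1 : 1 ≤ K := by
      have : 1 < d ^ (n + 1) := Nat.one_lt_pow (by omega) (by omega)
      omega
    obtain ⟨h5, h6⟩ := tc_pow_id_mul hβ.diff K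
    have hxd : DifferentiableOn ℂ (fun x => x ^ K * β x) (ball 0 1) :=
      DifferentiableOn.mul (by fun_prop) hβ.diff
    have hpd : DifferentiableOn ℂ (fun x => BB d β n x ^ d) (ball 0 1) := hBd.pow d
    have h7 : BB d β (n + 1) = fun x => BB d β n x ^ d + x ^ K * β x := by
      funext x
      rw [BB_succ, hK]
    have h8 : ∀ j, j ≤ k → tc (fun x => x ^ K * β x) j ∈ QC := by
      intro j hj
      by_cases hjK : j < K
      · rw [h6 j hjK]
        exact zero_mem _
      · obtain ⟨l, rfl⟩ := Nat.exists_eq_add_of_le (not_lt.1 hjK)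
        rw [h5]
        exact h l (by omega)
    rw [h7]
    constructor
    · intro j hj
      rw [tc_add one_pos hpd hxd]
      exact add_mem (h3 j hj) (h8 j hj.le)
    · rw [tc_add one_pos hpd hxd]
      have h9 := add_mem (add_mem h4 (mul_mem (nat_mem_QC d) h2)) (h8 k le_rfl)
      convert h9 using 1
      rw [pow_succ]
      ring

theorem tc_beta_mem (hd : 2 ≤ d) (hβ : IsBeta d β) (k : ℕ) : tc β k ∈ QC := by
  induction k using Nat.strong_induction_on with
  | _ k ih =>
    rcases Nat.eq_zero_or_pos k with h0 | h0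
    · rw [h0, tc_zero, hβ.zero]
      exact one_mem _
    · obtain ⟨-, h1⟩ := tc_BB_mem hd hβ k h0 ih
      have h2 : tc (BB d β k) k = 0 := by
        have h3 : k + 1 < d ^ (k + 1) := Nat.lt_pow_self (by omega)
        have h4 := tc_eq_zero_of_order (F := fun x => BB d β k x - 1) one_pos
          (show k < d ^ (k + 1) - 1 by omega) ((BB_diff hβ.diff k).sub_const _)
          (fun x hx => BB_sub_one_le hd hβ k hx)
        rw [tc_sub one_pos (BB_diff hβ.diff k) (differentiableOn_const (c := (1 : ℂ)))] at h4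
        obtain ⟨l, rfl⟩ := Nat.exists_eq_add_of_le' h0
        rw [tc_const_succ, sub_zero] at h4
        exact h4
      rw [h2, zero_sub] at h1
      have h3 : ((d : ℂ) ^ k)⁻¹ ∈ QC := inv_mem (pow_mem (nat_mem_QC d) k)
      have h4 := mul_mem h3 (neg_mem h1)
      have hdC : (d : ℂ) ≠ 0 := by
        have : d ≠ 0 := by omega
        exact_mod_cast this
      have h5 : ((d : ℂ) ^ k)⁻¹ * - -((d : ℂ) ^ k * tc β k) = tc β k := by
        have := pow_ne_zero k hdC
        field_simp
      rwa [h5] at h4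

theorem tc_powall (hd : 2 ≤ d) (hβ : IsBeta d β) (a k : ℕ) : tc (fun x => β x ^ a) k ∈ QC := by
  induction a generalizing k with
  | zero => simpa using tc_one k
  | succ a ih =>
    simp only [pow_succ]
    exact tc_mul_mem (F := fun x => β x ^ a) (hβ.diff.pow a) hβ.diff (fun j _ => ih j)
      (fun j _ => tc_beta_mem hd hβ j)

theorem tc_sum_mem {ι : Type*} (s : Finset ι) (F : ι → ℂ → ℂ)
    (hF : ∀ i ∈ s, DifferentiableOn ℂ (F i) (ball 0 1)) (h : ∀ i ∈ s, ∀ k, tc (F i) k ∈ QC) (k : ℕ) :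
    tc (fun x => ∑ i ∈ s, F i x) k ∈ QC := by
  classical
  induction s using Finset.induction_on with
  | empty =>
    simp only [Finset.sum_empty]
    rw [tc_zero_fun]
    exact zero_mem _
  | insert i s hi ih =>
    simp only [Finset.sum_insert hi]
    have h1 : DifferentiableOn ℂ (fun x => ∑ i ∈ s, F i x) (ball 0 1) :=
      DifferentiableOn.fun_sum fun j hj => hF j (Finset.mem_insert_of_mem hj)
    rw [tc_add one_pos (hF i (Finset.mem_insert_self i s)) h1]
    exact add_mem (h i (Finset.mem_insert_self i s) k)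
      (ih (fun j hj => hF j (Finset.mem_insert_of_mem hj))
        (fun j hj => h j (Finset.mem_insert_of_mem hj)))

theorem tc_hom_mem (hd : 2 ≤ d) (hβ : IsBeta d β) (p : Polynomial ℂ) (hp : ∀ a, p.coeff a ∈ QC)
    (D k : ℕ) : tc (hom β p D) k ∈ QC := by
  unfold hom
  apply tc_sum_mem
  · intro a _
    have := hβ.diff
    fun_prop
  · intro a _ k
    have hpd : DifferentiableOn ℂ (fun x => β x ^ a) (ball 0 1) := hβ.diff.pow a
    have h1 : (fun x => p.coeff a * β x ^ a * x ^ (D - a)) =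
        fun x => p.coeff a * (x ^ (D - a) * β x ^ a) := by
      funext x
      ring
    rw [h1]
    have h2 : tc (fun x => p.coeff a * (x ^ (D - a) * β x ^ a)) k =
        p.coeff a * tc (fun x => x ^ (D - a) * β x ^ a) k := by
      unfold tc
      rw [iteratedDeriv_const_mul_field]
      ring
    rw [h2]
    apply mul_mem (hp a)
    obtain ⟨h3, h4⟩ := tc_pow_id_mul hpd (D - a)
    by_cases h : k < D - a
    · rw [h4 k h]
      exact zero_mem _
    · obtain ⟨l, rfl⟩ := Nat.exists_eq_add_of_le (not_lt.1 h)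
      rw [h3]
      exact tc_powall hd hβ a l

theorem PP_map (d k : ℕ) : ∃ p : Polynomial ℚ, p.map (algebraMap ℚ ℂ) = PP d k := by
  induction k with
  | zero => exact ⟨0, by simp [PP]⟩
  | succ k ih =>
    obtain ⟨p, hp⟩ := ih
    refine ⟨p ^ d + X, ?_⟩
    simp [PP, ← hp]

theorem GG_map (d : ℕ) (T : Polynomial (Polynomial ℚ)) (b n : ℕ) :
    ∃ p : Polynomial ℚ, p.map (algebraMap ℚ ℂ) = GG d (T.map cmap) b n := by
  obtain ⟨p, hp⟩ := PP_map d (n + 1)
  refine ⟨p ^ b * T.eval (p ^ d), ?_⟩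
  unfold GG
  rw [← hp, Polynomial.map_mul, Polynomial.map_pow]
  congr 1
  have h1 : (T.eval (p ^ d)).map (algebraMap ℚ ℂ) = cmap (T.eval (p ^ d)) := rfl
  have h2 : (p.map (algebraMap ℚ ℂ)) ^ d = cmap (p ^ d) := by
    rw [map_pow]
    rfl
  rw [h1, h2, Polynomial.eval_map_apply]

theorem gam_mem (hd : 2 ≤ d) (hβ : IsBeta d β) (T : Polynomial (Polynomial ℚ)) (b n : ℕ) :
    gam β (GG d (T.map cmap) b n) ∈ QC := by
  unfold gam
  apply tc_hom_mem hd hβ
  intro a
  obtain ⟨p, hp⟩ := GG_map d T b n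
  rw [← hp, Polynomial.coeff_map]
  exact ⟨p.coeff a, rfl⟩

end Pool.Agent.TH907.ML
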