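import Mathlib
import Pool.Agent.TH907.ML.M7
import Pool.Agent.TH907.ML.M8
import Pool.Agent.TH653.MB.A13

set_option autoImplicit false

/-! # Limits of the coefficients of `log ψ'` and averages -/

namespace Pool.Agent.TH907.ML

open Complex Set Topology Filter Metric MeasureTheory N62a1eb23 Pool.Agent.H712R2 Pool.Agent.H713R2
open Pool.Agent.TH653.MB
open Polynomial (X C)
open Real (circleAverage)

variable {d : ℕ} {β : ℂ → ℂ}

/-- the limits exist, are rational, with a rate -/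
theorem exists_limits (hd : 2 ≤ d) (hβ : IsBeta d β) {B : ℂ → ℂ}
    (hBd : ∀ x ∈ ball (0 : ℂ) 1, deriv B x = logDeriv (qq β) x) {k : ℕ} (hk : 1 ≤ k) :
    ∃ (α : ℚ) (C : ℝ), ∀ n, ‖tc B (k * d ^ n) - (α : ℂ)‖ ≤ C / (d : ℝ) ^ (n / (2 * (d + 1))) := by
  induction k using Nat.strong_induction_on with
  | _ k ih =>
    by_cases hdk : d ∣ k
    · obtain ⟨l, rfl⟩ := hdk
      have hl : 1 ≤ l := by
        rcases Nat.eq_zero_or_pos l with h | h
        · rw [h, mul_zero] at hk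
          omega
        · exact h
      obtain ⟨α, C, h⟩ := ih l (by nlinarith) hl
      have hC : 0 ≤ C := by
        have h1 := (norm_nonneg _).trans (h 0)
        simpa using h1
      refine ⟨α, C, fun n => ?_⟩
      have h1 := h (n + 1)
      have h2 : d * l * d ^ n = l * d ^ (n + 1) := by rw [pow_succ]; ring
      rw [h2]
      refine h1.trans ?_
      have hd1 : (1 : ℝ) ≤ d := by exact_mod_cast (show 1 ≤ d by omega)
      apply div_le_div_of_nonneg_left hC (by positivity)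
      exact pow_le_pow_right₀ hd1 (Nat.div_le_div_right (by omega))
    · obtain ⟨b, a, hk', hb1, hb⟩ : ∃ b a, k = b + d * a ∧ 1 ≤ b ∧ b < d := by
        refine ⟨k % d, k / d, (Nat.mod_add_div k d).symm, ?_, Nat.mod_lt _ (by omega)⟩
        exact Nat.one_le_iff_ne_zero.2 fun h => hdk (Nat.dvd_of_mod_eq_zero h)
      obtain ⟨T, -, -, D, n₀, K, hF⟩ := exists_fab hd hβ (a := a) hb (by omega)
      rw [← hk'] at hF
      obtain ⟨C, hC⟩ := coef_rate hd hβ hb1 hb hF hk'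
      have hmem : lim d β (T.map cmap) b k n₀ ∈ QC := by
        unfold lim
        apply mul_mem
        · exact div_mem (nat_mem_QC _) (nat_mem_QC _)
        · apply sum_mem
          intro s _
          exact div_mem (gam_mem hd hβ T b s) (pow_mem (nat_mem_QC d) _)
      obtain ⟨α, hα⟩ := mem_QC.1 hmem
      refine ⟨α, C, fun n => ?_⟩
      have h1 := hC n
      have hm1 : 1 ≤ k * d ^ n := Nat.mul_pos hk (pow_pos (by omega) _)
      have h2 : (k * d ^ n - 1 : ℕ) + 1 = k * d ^ n := Nat.sub_add_cancel hm1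
      have h3 : ((k * d ^ n : ℕ) : ℂ) ≠ 0 := by exact_mod_cast (by omega : k * d ^ n ≠ 0)
      have h4 := tc_log hβ hBd (k * d ^ n - 1)
      rw [h2] at h4
      have h5 : (((k * d ^ n - 1 : ℕ) : ℂ) + 1) = ((k * d ^ n : ℕ) : ℂ) := by
        rw [← Nat.cast_add_one, h2]
      rw [h4, h5, mul_div_cancel_left₀ _ h3, ← hα] at h1
      exact h1

theorem coef_bounded {B : ℂ → ℂ} (hB : DifferentiableOn ℂ B (ball 0 1)) (hB0 : B 0 = 0)
    (hBl : ∀ x ∈ ball (0 : ℂ) 1, ‖x * deriv B x‖ ≤ 4 / (1 - ‖x‖)) (m : ℕ) : ‖tc B m‖ ≤ 24 := by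
  rcases Nat.eq_zero_or_pos m with h | h
  · rw [h, tc_zero, hB0, norm_zero]
    norm_num
  · have hm : (0 : ℝ) < m := by exact_mod_cast h
    have hm1 : (1 : ℝ) ≤ m := by exact_mod_cast h
    obtain ⟨ρ, hρ⟩ : ∃ ρ : ℝ, ρ = m / (m + 1) := ⟨_, rfl⟩
    have hρ0 : 0 < ρ := by rw [hρ]; positivity
    have hρ1 : ρ < 1 := by rw [hρ, div_lt_one (by positivity)]; linarith
    have hd : DifferentiableOn ℂ (fun x => x * deriv B x) (ball 0 1) :=
      differentiableOn_id.mul (hB.deriv isOpen_ball)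
    have h1 := coef_le_av hρ0 hρ1 hd m
    rw [tc_id_mul_deriv hB] at h1
    have h2 : circleAverage (fun x => ‖x * deriv B x‖) 0 ρ ≤ 4 * (m + 1) := by
      apply Real.circleAverage_mono_on_of_le_circle (ci_of_diff hρ0 hρ1 hd.continuousOn.norm)
      intro x hx
      rw [mem_sphere_zero_iff_norm, abs_of_pos hρ0] at hx
      refine (hBl x (by rw [mem_ball_zero_iff, hx]; exact hρ1)).trans ?_
      rw [hx, hρ]
      apply le_of_eq
      field_simp
      ring
    have h3 : (ρ⁻¹) ^ m ≤ 3 := by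
      have h4 : ρ⁻¹ ≤ Real.exp (1 / m) := by
        rw [hρ, inv_div]
        have := Real.add_one_le_exp (1 / (m : ℝ))
        refine le_trans (le_of_eq ?_) this
        field_simp
        ring
      calc (ρ⁻¹) ^ m ≤ (Real.exp (1 / m)) ^ m := pow_le_pow_left₀ (by positivity) h4 m
        _ = Real.exp 1 := by
            rw [← Real.exp_nat_mul]
            congr 1
            field_simp
        _ ≤ 3 := by
            have := Real.exp_one_lt_d9
            linarith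
    rw [norm_mul, Complex.norm_natCast] at h1
    have h4 : (m : ℝ) * ‖tc B m‖ ≤ 4 * (m + 1) * 3 := by
      have h5 : (m : ℝ) * ‖tc B m‖ = (m * ‖tc B m‖ * ρ ^ m) * (ρ⁻¹) ^ m := by
        rw [mul_assoc, ← mul_pow, mul_inv_cancel₀ hρ0.ne', one_pow, mul_one]
      rw [h5]
      exact mul_le_mul (h1.trans h2) h3 (by positivity) (by positivity)
    have h5 : (m : ℝ) * ‖tc B m‖ ≤ m * 24 := by nlinarith
    exact le_of_mul_le_mul_left h5 hm

theorem root_sum {N : ℕ} (hN : 1 ≤ N) {ω : ℂ} (hω : IsPrimitiveRoot ω N) (m : ℕ) :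
    ∑ j ∈ Finset.range N, (ω ^ j) ^ m = if N ∣ m then (N : ℂ) else 0 := by
  have h1 : ∀ j, (ω ^ j) ^ m = (ω ^ m) ^ j := fun j => by rw [← pow_mul, ← pow_mul, mul_comm]
  simp only [h1]
  split_ifs with h
  · have h2 : ω ^ m = 1 := (hω.pow_eq_one_iff_dvd m).2 h
    rw [h2]
    simp
  · have h2 : ω ^ m ≠ 1 := fun h3 => h ((hω.pow_eq_one_iff_dvd m).1 h3)
    have h3 : (∑ j ∈ Finset.range N, (ω ^ m) ^ j) * (ω ^ m - 1) = 0 := by
      rw [geom_sum_mul, ← pow_mul, mul_comm, pow_mul, hω.pow_eq_one, one_pow, sub_self]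
    exact (mul_eq_zero.1 h3).resolve_right (sub_ne_zero.2 h2)

/-- averages over roots pick out the multiples of `N` -/
theorem average {B : ℂ → ℂ} (hB : DifferentiableOn ℂ B (ball 0 1)) {N : ℕ} (hN : 1 ≤ N) {ω : ℂ}
    (hω : IsPrimitiveRoot ω N) {x : ℂ} (hx : x ∈ ball (0 : ℂ) 1) :
    HasSum (fun k => tc B (k * N) * (x ^ N) ^ k)
      ((N : ℂ)⁻¹ * ∑ j ∈ Finset.range N, B (x * ω ^ j)) := by
  have hNC : (N : ℂ) ≠ 0 := by
    have : N ≠ 0 := by omega
    exact_mod_cast this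
  have hω1 : ‖ω‖ = 1 := hω.norm'_eq_one (by omega)
  have hxj : ∀ j : ℕ, x * ω ^ j ∈ ball (0 : ℂ) 1 := by
    intro j
    rw [mem_ball_zero_iff, norm_mul, norm_pow, hω1, one_pow, mul_one]
    rwa [mem_ball_zero_iff] at hx
  have h1 : HasSum (fun k => (N : ℂ)⁻¹ * ∑ j ∈ Finset.range N, tc B k * (x * ω ^ j) ^ k)
      ((N : ℂ)⁻¹ * ∑ j ∈ Finset.range N, B (x * ω ^ j)) :=
    (hasSum_sum fun j _ => hasSum_tc hB (hxj j)).mul_left _
  have h2 : (fun k => (N : ℂ)⁻¹ * ∑ j ∈ Finset.range N, tc B k * (x * ω ^ j) ^ k) =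
      fun k => if N ∣ k then tc B k * x ^ k else 0 := by
    funext k
    have h3 : ∑ j ∈ Finset.range N, tc B k * (x * ω ^ j) ^ k =
        tc B k * x ^ k * ∑ j ∈ Finset.range N, (ω ^ j) ^ k := by
      rw [Finset.mul_sum]
      apply Finset.sum_congr rfl
      intro j _
      rw [mul_pow]
      ring
    rw [h3, root_sum hN hω]
    split_ifs with h
    · field_simp
    · ring
  rw [h2] at h1
  have hinj : Function.Injective (fun k : ℕ => k * N) := fun a b h =>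
    Nat.eq_of_mul_eq_mul_right (by omega) h
  have h4 := (hinj.hasSum_iff (f := fun k => if N ∣ k then tc B k * x ^ k else 0)
    (a := (N : ℂ)⁻¹ * ∑ j ∈ Finset.range N, B (x * ω ^ j)) (by
      intro k hk
      rw [if_neg]
      rintro ⟨l, rfl⟩
      exact hk ⟨l, by ring⟩)).2 h1
  refine h4.congr_fun ?_ |> id
  intro k
  simp only [Function.comp]
  rw [if_pos (Dvd.intro_left k rfl), ← pow_mul, mul_comm N]

/-- locally uniform convergence of the averages -/
theorem avg_tendsto (hd : 2 ≤ d) {B : ℂ → ℂ} (hB : DifferentiableOn ℂ B (ball 0 1)) {M : ℝ}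
    (hM : ∀ m, ‖tc B m‖ ≤ M) {α : ℕ → ℂ}
    (hα : ∀ k, Tendsto (fun n => tc B (k * d ^ n)) atTop (𝓝 (α k))) {ϱ : ℝ} (hϱ0 : 0 ≤ ϱ)
    (hϱ : ϱ < 1) {ε : ℝ} (hε : 0 < ε) :
    ∃ n₀, ∀ n, n₀ ≤ n → ∀ ω : ℂ, IsPrimitiveRoot ω (d ^ n) → ∀ x ∈ ball (0 : ℂ) 1,
      ‖x ^ (d ^ n)‖ ≤ ϱ →
      ‖((d ^ n : ℕ) : ℂ)⁻¹ * ∑ j ∈ Finset.range (d ^ n), B (x * ω ^ j) -
        ∑' k, α k * (x ^ (d ^ n)) ^ k‖ < ε := by
  have hM0 : 0 ≤ M := (norm_nonneg _).trans (hM 0)
  have hαM : ∀ k, ‖α k‖ ≤ M := fun k => le_of_tendsto (hα k).norm (Eventually.of_forall fun n => hM _)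
  have hg : Summable (fun k : ℕ => 2 * M * ϱ ^ k) := (summable_geometric_of_lt_one hϱ0 hϱ).mul_left _
  have hlim : Tendsto (fun n : ℕ => ∑' k : ℕ, ‖tc B (k * d ^ n) - α k‖ * ϱ ^ k) atTop
      (𝓝 (∑' _ : ℕ, (0 : ℝ))) := by
    apply tendsto_tsum_of_dominated_convergence hg
    · intro k
      have h1 : Tendsto (fun n => ‖tc B (k * d ^ n) - α k‖ * ϱ ^ k) atTop (𝓝 (0 * ϱ ^ k)) := by
        apply Tendsto.mul_const
        rw [← tendsto_iff_norm_sub_tendsto_zero]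
        exact hα k
      rwa [zero_mul] at h1
    · refine Eventually.of_forall fun n k => ?_
      rw [norm_mul, norm_norm, norm_pow, Real.norm_of_nonneg hϱ0]
      have h1 := norm_sub_le (tc B (k * d ^ n)) (α k)
      have h2 := hM (k * d ^ n)
      have h3 := hαM k
      gcongr
      linarith
  rw [tsum_zero] at hlim
  obtain ⟨n₀, hn₀⟩ := eventually_atTop.1 (hlim.eventually (gt_mem_nhds hε))
  refine ⟨n₀, fun n hn ω hω x hx hxn => ?_⟩
  have hdn : 1 ≤ d ^ n := Nat.one_le_pow _ _ (by omega)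
  have h1 := average hB hdn hω hx
  have hs2 : Summable (fun k => α k * (x ^ (d ^ n)) ^ k) := by
    apply Summable.of_norm_bounded (g := fun k => M * ϱ ^ k)
      ((summable_geometric_of_lt_one hϱ0 hϱ).mul_left _)
    intro k
    rw [norm_mul, norm_pow]
    have := hαM k
    gcongr
  rw [← h1.tsum_eq, ← h1.summable.tsum_sub hs2]
  have hs3 : Summable (fun k : ℕ => ‖tc B (k * d ^ n) - α k‖ * ϱ ^ k) := by
    apply Summable.of_nonneg_of_le (fun k => by positivity) _ hg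
    intro k
    have h1 := norm_sub_le (tc B (k * d ^ n)) (α k)
    have h2 := hM (k * d ^ n)
    have h3 := hαM k
    gcongr
    linarith
  have hb : ∀ k, ‖tc B (k * d ^ n) * (x ^ d ^ n) ^ k - α k * (x ^ d ^ n) ^ k‖ ≤
      ‖tc B (k * d ^ n) - α k‖ * ϱ ^ k := by
    intro k
    rw [← sub_mul, norm_mul, norm_pow]
    gcongr
  have hs4 : Summable (fun k => ‖tc B (k * d ^ n) * (x ^ d ^ n) ^ k - α k * (x ^ d ^ n) ^ k‖) :=
    Summable.of_nonneg_of_le (fun k => norm_nonneg _) hb hs3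
  calc ‖∑' k, (tc B (k * d ^ n) * (x ^ d ^ n) ^ k - α k * (x ^ d ^ n) ^ k)‖
      ≤ ∑' k, ‖tc B (k * d ^ n) * (x ^ d ^ n) ^ k - α k * (x ^ d ^ n) ^ k‖ :=
        norm_tsum_le_tsum_norm hs4
    _ ≤ ∑' k, ‖tc B (k * d ^ n) - α k‖ * ϱ ^ k := hs4.tsum_le_tsum hb hs3
    _ < ε := hn₀ n hn

end Pool.Agent.TH907.ML
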