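import Mathlib
import Pool.Agent.TH907.ML.M9

set_option autoImplicit false

/-! # A lower bound for the mean square of `log ψ'` -/

namespace Pool.Agent.TH907.ML

open Complex Set Topology Filter Metric MeasureTheory N62a1eb23 Pool.Agent.H712R2 Pool.Agent.H713R2
open Pool.Agent.TH653.MB
open Real (circleAverage)

variable {d : ℕ}

theorem inj_aux (hd : 2 ≤ d) {k k' n n' : ℕ} (hk : ¬ d ∣ k) (hk' : ¬ d ∣ k')
    (h : k * d ^ n = k' * d ^ n') : k = k' ∧ n = n' := by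
  have hpos : ∀ n, 0 < d ^ n := fun n => pow_pos (by omega) n
  rcases lt_trichotomy n n' with h1 | h1 | h1
  · exfalso
    obtain ⟨l, rfl⟩ := Nat.exists_eq_add_of_lt h1
    apply hk
    refine ⟨k' * d ^ l, ?_⟩
    have h2 : k * d ^ n = (d * (k' * d ^ l)) * d ^ n := by
      rw [h, show n + l + 1 = n + (l + 1) by ring, pow_add, pow_succ]
      ring
    exact Nat.eq_of_mul_eq_mul_right (hpos n) h2
  · subst h1
    exact ⟨Nat.eq_of_mul_eq_mul_right (hpos n) h, rfl⟩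
  · exfalso
    obtain ⟨l, rfl⟩ := Nat.exists_eq_add_of_lt h1
    apply hk'
    refine ⟨k * d ^ l, ?_⟩
    have h2 : k' * d ^ n' = (d * (k * d ^ l)) * d ^ n' := by
      rw [← h, show n' + l + 1 = n' + (l + 1) by ring, pow_add, pow_succ]
      ring
    exact Nat.eq_of_mul_eq_mul_right (hpos n') h2

theorem variance (hd : 2 ≤ d) {B : ℂ → ℂ} (hB : DifferentiableOn ℂ B (ball 0 1)) {α : ℕ → ℂ}
    (hα : ∀ k, Tendsto (fun n => tc B (k * d ^ n)) atTop (𝓝 (α k))) (S : Finset ℕ)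
    (hS : ∀ k ∈ S, ¬ d ∣ k) {ε : ℝ} (hε : 0 < ε) :
    ∃ ρ₀ : ℝ, 1 / 2 ≤ ρ₀ ∧ ρ₀ < 1 ∧ ∀ ρ, ρ₀ < ρ → ρ < 1 →
      ((∑ k ∈ S, ‖α k‖ ^ 2) / Real.log d - ε) * Real.log (1 / (1 - ρ)) ≤
        circleAverage (fun x => ‖B x‖ ^ 2) 0 ρ := by
  have hd1 : (1 : ℝ) < d := by exact_mod_cast (show 1 < d by omega)
  have hd0 : (0 : ℝ) < d := by linarith
  obtain ⟨L, hL⟩ : ∃ L, L = Real.log d := ⟨_, rfl⟩
  have hL0 : 0 < L := by rw [hL]; exact Real.log_pos hd1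
  obtain ⟨V, hV⟩ : ∃ V, V = ∑ k ∈ S, ‖α k‖ ^ 2 := ⟨_, rfl⟩
  have hV0 : 0 ≤ V := by rw [hV]; exact Finset.sum_nonneg fun _ _ => by positivity
  obtain ⟨δ, hδ⟩ : ∃ δ, δ = ε * L / 2 := ⟨_, rfl⟩
  have hδ0 : 0 < δ := by rw [hδ]; positivity
  obtain ⟨η, hη⟩ : ∃ η, η = min (1 / 4) (δ / (S.card + 2 * V + 1)) := ⟨_, rfl⟩
  have hη0 : 0 < η := by
    rw [hη]
    apply lt_min (by norm_num)
    positivity
  have hη1 : η ≤ 1 / 4 := by rw [hη]; exact min_le_left _ _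
  have hη2 : η * (S.card + 2 * V + 1) ≤ δ := by
    have h1 : η ≤ δ / (S.card + 2 * V + 1) := by rw [hη]; exact min_le_right _ _
    rwa [le_div_iff₀ (by positivity)] at h1
  have hcard : (0 : ℝ) ≤ S.card := Nat.cast_nonneg _
  -- large indices
  have hev : ∀ᶠ n in atTop, ∀ k ∈ S, ‖α k‖ ^ 2 - η ≤ ‖tc B (k * d ^ n)‖ ^ 2 := by
    rw [Filter.eventually_all_finset]
    intro k _
    have h1 : Tendsto (fun n => ‖tc B (k * d ^ n)‖ ^ 2) atTop (𝓝 (‖α k‖ ^ 2)) := (hα k).norm.pow 2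
    filter_upwards [h1.eventually (lt_mem_nhds (show ‖α k‖ ^ 2 - η < ‖α k‖ ^ 2 by linarith))] with n hn
    exact hn.le
  obtain ⟨n₁, hn₁⟩ := eventually_atTop.1 hev
  obtain ⟨Kb, hKb⟩ : ∃ Kb : ℕ, Kb = ∑ k ∈ S, k + 1 := ⟨_, rfl⟩
  have hKb1 : ∀ k ∈ S, k ≤ Kb := by
    intro k hk
    have := Finset.single_le_sum (f := fun k : ℕ => k) (fun _ _ => Nat.zero_le _) hk
    rw [hKb]
    omega
  have hKb0 : (0 : ℝ) < Kb := by
    have : 0 < Kb := by rw [hKb]; omega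
    exact_mod_cast this
  -- constants
  obtain ⟨Cc, hCc⟩ : ∃ Cc : ℝ, Cc = |Real.log (η / Kb)| / L + 1 + n₁ := ⟨_, rfl⟩
  have hCc0 : 0 ≤ Cc := by rw [hCc]; positivity
  obtain ⟨y₀, hy₀⟩ : ∃ y₀ : ℝ, y₀ = min (min (1 / 2) (η / Kb)) (Real.exp (-(2 * Cc * V / ε))) := ⟨_, rfl⟩
  have hy₀0 : 0 < y₀ := by
    rw [hy₀]
    exact lt_min (lt_min (by norm_num) (by positivity)) (Real.exp_pos _)
  have hy₀h : y₀ ≤ 1 / 2 := by rw [hy₀]; exact (min_le_left _ _).trans (min_le_left _ _)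
  have hy₀η : y₀ ≤ η / Kb := by rw [hy₀]; exact (min_le_left _ _).trans (min_le_right _ _)
  have hy₀e : y₀ ≤ Real.exp (-(2 * Cc * V / ε)) := by rw [hy₀]; exact min_le_right _ _
  refine ⟨1 - y₀, by linarith, by linarith, fun ρ hρ1 hρ2 => ?_⟩
  obtain ⟨y, hy⟩ : ∃ y, y = 1 - ρ := ⟨_, rfl⟩
  have hy0 : 0 < y := by rw [hy]; linarith
  have hyy : y < y₀ := by rw [hy]; linarith
  have hρ0 : 0 < ρ := by linarith
  have hρy : ρ = 1 - y := by rw [hy]; ring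
  rw [← hV, ← hL, ← hy]
  have hsum := hasSum_sq_tc hρ0 hρ2 hB
  have hav0 : 0 ≤ circleAverage (fun x => ‖B x‖ ^ 2) 0 ρ :=
    hsum.nonneg fun _ => by positivity
  have hlog0 : 0 ≤ Real.log (1 / y) := by
    apply Real.log_nonneg
    rw [le_div_iff₀ hy0]
    linarith
  by_cases hneg : V - δ < 0
  · have h1 : V / L - ε ≤ 0 := by
      have h2 : V / L < ε := by
        rw [div_lt_iff₀ hL0]
        have : δ ≤ ε * L := by
          rw [hδ]
          have : 0 ≤ ε * L := by positivity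
          linarith
        linarith
      linarith
    exact (mul_nonpos_of_nonpos_of_nonneg h1 hlog0).trans hav0
  push Not at hneg
  -- the number of scales
  obtain ⟨w, hw⟩ : ∃ w, w = Real.log (η / (Kb * y)) / L := ⟨_, rfl⟩
  have hw1 : Real.log (η / (Kb * y)) = Real.log (1 / y) + Real.log (η / Kb) := by
    rw [← Real.log_mul (by positivity) (by positivity)]
    congr 1
    field_simp
  have hw0 : 0 ≤ w := by
    rw [hw]
    apply div_nonneg _ hL0.le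
    apply Real.log_nonneg
    rw [le_div_iff₀ (by positivity), one_mul]
    have h1 : y ≤ η / Kb := by linarith
    rw [le_div_iff₀ hKb0] at h1
    linarith
  obtain ⟨n₂, hn₂⟩ : ∃ n₂ : ℕ, n₂ = ⌊w⌋₊ := ⟨_, rfl⟩
  have hn2a : (n₂ : ℝ) ≤ w := by rw [hn₂]; exact Nat.floor_le hw0
  have hn2b : w < n₂ + 1 := by rw [hn₂]; exact Nat.lt_floor_add_one w
  have hdn2 : (d : ℝ) ^ n₂ * (Kb * y) ≤ η := by
    have h1 : (d : ℝ) ^ n₂ ≤ η / (Kb * y) := by
      rw [← Real.exp_log (show 0 < η / (Kb * y) by positivity), ← Real.exp_log (pow_pos hd0 n₂)]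
      apply Real.exp_le_exp.2
      rw [Real.log_pow, ← hL]
      have h2 : w * L = Real.log (η / (Kb * y)) := by rw [hw]; field_simp
      rw [← h2]
      exact mul_le_mul_of_nonneg_right hn2a hL0.le
    rwa [le_div_iff₀ (by positivity)] at h1
  -- the partial sum
  have hpart : ∑ k ∈ S, ∑ n ∈ Finset.Ico n₁ n₂, ‖tc B (k * d ^ n)‖ ^ 2 * ρ ^ (2 * (k * d ^ n)) ≤
      circleAverage (fun x => ‖B x‖ ^ 2) 0 ρ := by
    rw [← Finset.sum_product']
    have hinj : Set.InjOn (fun p : ℕ × ℕ => p.1 * d ^ p.2) (S ×ˢ Finset.Ico n₁ n₂ : Finset (ℕ × ℕ)) := by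
      intro p hp p' hp' h
      simp only [Finset.coe_product, Set.mem_prod, Finset.mem_coe] at hp hp'
      obtain ⟨h1, h2⟩ := inj_aux hd (hS _ hp.1) (hS _ hp'.1) h
      exact Prod.ext h1 h2
    rw [← Finset.sum_image (f := fun m => ‖tc B m‖ ^ 2 * ρ ^ (2 * m)) hinj]
    exact sum_le_hasSum _ (fun _ _ => by positivity) hsum
  have hterm : ∀ k ∈ S, ∀ n ∈ Finset.Ico n₁ n₂, (‖α k‖ ^ 2 - η) * (1 - 2 * η) ≤
      ‖tc B (k * d ^ n)‖ ^ 2 * ρ ^ (2 * (k * d ^ n)) := by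
    intro k hk n hn
    rw [Finset.mem_Ico] at hn
    have h1 := hn₁ n hn.1 k hk
    have h2 : 1 - 2 * η ≤ ρ ^ (2 * (k * d ^ n)) := by
      have h3 := one_add_mul_le_pow (a := -y) (by linarith) (2 * (k * d ^ n))
      have h4 : (1 : ℝ) + -y = ρ := by rw [hρy]; ring
      rw [h4] at h3
      refine le_trans ?_ h3
      have h5 : ((2 * (k * d ^ n) : ℕ) : ℝ) = 2 * (k * (d : ℝ) ^ n) := by push_cast; ring
      rw [h5]
      have h6 : (k : ℝ) * (d : ℝ) ^ n * y ≤ η := by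
        have h7 : (k : ℝ) ≤ Kb := by exact_mod_cast hKb1 k hk
        have h8 : (d : ℝ) ^ n ≤ (d : ℝ) ^ n₂ := pow_le_pow_right₀ hd1.le hn.2.le
        calc (k : ℝ) * (d : ℝ) ^ n * y ≤ Kb * (d : ℝ) ^ n₂ * y := by gcongr
          _ = (d : ℝ) ^ n₂ * (Kb * y) := by ring
          _ ≤ η := hdn2
      linarith
    have h3 : 0 ≤ 1 - 2 * η := by linarith
    have h4 : 0 ≤ ‖tc B (k * d ^ n)‖ ^ 2 := by positivity
    rcases le_or_gt 0 (‖α k‖ ^ 2 - η) with h5 | h5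
    · exact mul_le_mul h1 h2 h3 h4
    · have h6 : (‖α k‖ ^ 2 - η) * (1 - 2 * η) ≤ 0 := mul_nonpos_of_nonpos_of_nonneg h5.le h3
      have h7 : 0 ≤ ‖tc B (k * d ^ n)‖ ^ 2 * ρ ^ (2 * (k * d ^ n)) := by positivity
      linarith
  have hlow : ((Finset.Ico n₁ n₂).card : ℝ) * (V - δ) ≤
      ∑ k ∈ S, ∑ n ∈ Finset.Ico n₁ n₂, ‖tc B (k * d ^ n)‖ ^ 2 * ρ ^ (2 * (k * d ^ n)) := by
    have h1 : ∑ k ∈ S, ∑ n ∈ Finset.Ico n₁ n₂, (‖α k‖ ^ 2 - η) * (1 - 2 * η) ≤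
        ∑ k ∈ S, ∑ n ∈ Finset.Ico n₁ n₂, ‖tc B (k * d ^ n)‖ ^ 2 * ρ ^ (2 * (k * d ^ n)) :=
      Finset.sum_le_sum fun k hk => Finset.sum_le_sum fun n hn => hterm k hk n hn
    refine le_trans ?_ h1
    have h2 : ∑ k ∈ S, ∑ n ∈ Finset.Ico n₁ n₂, (‖α k‖ ^ 2 - η) * (1 - 2 * η) =
        ((Finset.Ico n₁ n₂).card : ℝ) * ((V - S.card * η) * (1 - 2 * η)) := by
      simp only [Finset.sum_const, nsmul_eq_mul]
      rw [← Finset.mul_sum, ← Finset.sum_mul, Finset.sum_sub_distrib, Finset.sum_const,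
        nsmul_eq_mul, ← hV]
    rw [h2]
    apply mul_le_mul_of_nonneg_left _ (Nat.cast_nonneg _)
    have h3 : 0 ≤ (S.card : ℝ) * η * (2 * η) :=
      mul_nonneg (mul_nonneg hcard hη0.le) (by linarith)
    nlinarith
  have hcount : Real.log (1 / y) / L - Cc ≤ ((Finset.Ico n₁ n₂).card : ℝ) := by
    rw [Nat.card_Ico]
    have h1 : (n₂ : ℝ) - n₁ ≤ ((n₂ - n₁ : ℕ) : ℝ) := by
      have : n₂ ≤ (n₂ - n₁) + n₁ := by omega
      have h2 : (n₂ : ℝ) ≤ ((n₂ - n₁ : ℕ) : ℝ) + n₁ := by exact_mod_cast this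
      linarith
    have h2 : w = Real.log (1 / y) / L + Real.log (η / Kb) / L := by rw [hw, hw1]; ring
    have h3 : -(|Real.log (η / Kb)| / L) ≤ Real.log (η / Kb) / L := by
      rw [← neg_div]
      exact div_le_div_of_nonneg_right (neg_abs_le _) hL0.le
    rw [hCc]
    linarith
  refine le_trans ?_ (hlow.trans hpart)
  refine le_trans ?_ (mul_le_mul_of_nonneg_right hcount hneg)
  -- the final inequality
  have hlogy : 2 * Cc * V / ε ≤ Real.log (1 / y) := by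
    rw [one_div, Real.log_inv]
    have h1 : Real.log y ≤ -(2 * Cc * V / ε) := by
      rw [← Real.log_exp (-(2 * Cc * V / ε))]
      exact Real.log_le_log hy0 (by linarith)
    linarith
  have h1 : 2 * Cc * V ≤ Real.log (1 / y) * ε := by
    rwa [div_le_iff₀ hε] at hlogy
  have h2 : (Real.log (1 / y) / L - Cc) * (V - δ) =
      Real.log (1 / y) * (V / L) - Real.log (1 / y) * (δ / L) - Cc * V + Cc * δ := by
    ring
  have h3 : δ / L = ε / 2 := by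
    rw [hδ, div_eq_iff hL0.ne']
    ring
  rw [h2, h3]
  have h4 : 0 ≤ Cc * δ := by positivity
  nlinarith

end Pool.Agent.TH907.ML
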