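import Mathlib
import Pool.Agent.TH907.ML.M7
import Pool.Agent.TH907.ML.M8

set_option autoImplicit false

/-! # The limit for `k = 3`, `d = 2` -/

namespace Pool.Agent.TH907.ML

open Complex Set Topology Filter Metric MeasureTheory N62a1eb23 Pool.Agent.H712R2 Pool.Agent.H713R2
open Pool.Agent.TH653.MB
open Polynomial (X C)

variable {β : ℂ → ℂ}

theorem gam_eq {d : ℕ} (hd : 2 ≤ d) (hβ : IsBeta d β) (p : Polynomial ℂ) (E : ℕ) {H : ℂ → ℂ}
    (hHd : DifferentiableOn ℂ H (ball 0 1))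
    (hHe : ∀ x ∈ ball (0 : ℂ) 1, x ≠ 0 → H x = x ^ E * p.eval (x⁻¹ * β x)) :
    gam β p = tc H E := by
  obtain ⟨i, hi⟩ : ∃ i, i = p.natDegree + E + 1 := ⟨_, rfl⟩
  have h0 : i + 1 < d ^ (i + 1) := Nat.lt_pow_self (by omega)
  have h1 := sum_roots hd hβ p p.natDegree (hom_diff hβ p _)
    (fun x _ hx0 => hom_eval p le_rfl hx0) (i := i) (by omega)
  have h2 := sum_roots hd hβ p E hHd hHe (i := i) (by omega)
  rw [h1] at h2
  have hdC : (d : ℂ) ^ i ≠ 0 := pow_ne_zero _ (by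
    have : d ≠ 0 := by omega
    exact_mod_cast this)
  exact mul_left_cancel₀ hdC h2

/-- the polynomial `y + 3 c / 2` -/
noncomputable def T3 : Polynomial (Polynomial ℂ) := X + C (C (3 / 2) * X)

/-- the function `H` -/
noncomputable def H3 (β : ℂ → ℂ) (n : ℕ) : ℂ → ℂ := fun x =>
  BB 2 β n x * (BB 2 β (n + 1) x + 1 / 2 * (x ^ (2 ^ (n + 1) - 1) * β x))

theorem H3_diff (hβ : IsBeta 2 β) (n : ℕ) : DifferentiableOn ℂ (H3 β n) (ball 0 1) := by
  have h1 := BB_diff (d := 2) hβ.diff n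
  have h2 := BB_diff (d := 2) hβ.diff (n + 1)
  have h3 := hβ.diff
  unfold H3
  exact h1.mul (h2.add ((DifferentiableOn.mul (by fun_prop) h3).const_mul _))

theorem H3_eval (n : ℕ) {x : ℂ} (hx : x ≠ 0) :
    H3 β n x = x ^ (3 * 2 ^ n) * (GG 2 T3 1 n).eval (x⁻¹ * β x) := by
  have h1 : (GG 2 T3 1 n).eval (x⁻¹ * β x) = P 2 (n + 1) (x⁻¹ * β x) *
      (P 2 (n + 1) (x⁻¹ * β x) ^ 2 + 3 / 2 * (x⁻¹ * β x)) := by
    unfold GG T3
    simp only [Polynomial.eval_add, Polynomial.eval_X, Polynomial.eval_C, Polynomial.eval_mul,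
      Polynomial.eval_pow, pow_one, eval_PP]
  have h2 := BB_eq (d := 2) le_rfl β n x hx
  have h3 : BB 2 β (n + 1) x = BB 2 β n x ^ 2 + x ^ (2 ^ (n + 1) - 1) * β x := BB_succ 2 β n x
  have h4 : x ^ (2 ^ (n + 1) - 1) * β x = (x ^ 2 ^ n) ^ 2 * (x⁻¹ * β x) := by
    obtain ⟨K, hK⟩ : ∃ K, 2 ^ (n + 1) = K + 1 := Nat.exists_eq_add_of_le' Nat.one_le_two_pow
    rw [← pow_mul, ← pow_succ, hK, Nat.add_sub_cancel, pow_succ]
    field_simp
  unfold H3
  rw [h3, h4, h2, h1]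
  have h5 : x ^ (3 * 2 ^ n) = (x ^ 2 ^ n) ^ 3 := by rw [← pow_mul, mul_comm]
  rw [h5]
  ring

theorem H3_norm (hβ : IsBeta 2 β) (n : ℕ) {x : ℂ} (hx : x ∈ ball (0 : ℂ) 1) : ‖H3 β n x‖ ≤ 6 := by
  unfold H3
  have h1 := AR.BB_le_two le_rfl hβ n hx
  have h2 := AR.BB_le_two le_rfl hβ (n + 1) hx
  have h3 := hβ.bound x hx
  rw [mem_ball_zero_iff] at hx
  rw [norm_mul]
  have h4 : ‖BB 2 β (n + 1) x + 1 / 2 * (x ^ (2 ^ (n + 1) - 1) * β x)‖ ≤ 3 := by
    refine (norm_add_le _ _).trans ?_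
    rw [norm_mul, norm_mul, norm_pow]
    have h5 : ‖x‖ ^ (2 ^ (n + 1) - 1) ≤ 1 := pow_le_one₀ (norm_nonneg _) hx.le
    have h6 : ‖x‖ ^ (2 ^ (n + 1) - 1) * ‖β x‖ ≤ 1 * 2 := by gcongr
    have h7 : ‖(1 / 2 : ℂ)‖ = 1 / 2 := by norm_num
    rw [h7]
    linarith
  calc ‖BB 2 β n x‖ * ‖BB 2 β (n + 1) x + 1 / 2 * (x ^ (2 ^ (n + 1) - 1) * β x)‖ ≤ 2 * 3 := by
        gcongr
    _ = 6 := by norm_num

theorem fab3 (hβ : IsBeta 2 β) : IsFab 2 β 3 (GG 2 T3 1) (H3 β) 2 2 14 := by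
  refine ⟨fun n => H3_diff hβ n, fun n _ x _ hx0 => H3_eval n hx0, ?_, ?_, by norm_num⟩
  · intro n hn x hx
    obtain ⟨E, hE⟩ : ∃ E, E = 2 ^ (n + 1) - 1 := ⟨_, rfl⟩
    have h4n : 2 ^ (n + 1) = 2 ^ n * 2 := pow_succ 2 n
    have h2n : 4 ≤ 2 ^ n := by
      calc 4 = 2 ^ 2 := by norm_num
        _ ≤ 2 ^ n := Nat.pow_le_pow_right (by norm_num) hn
    have hE2 : 3 * 2 ^ n + 2 ^ n - 2 = 2 * E := by omega
    have hE3 : 2 ^ (n + 1 + 1) - 1 = 2 * E + 1 := by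
      have : 2 ^ (n + 1 + 1) = 2 ^ (n + 1) * 2 := pow_succ 2 _
      omega
    have h0 : H3 β n 0 = 1 := by
      unfold H3
      rw [BB_zero_val le_rfl hβ, BB_zero_val le_rfl hβ, zero_pow (show 2 ^ (n + 1) - 1 ≠ 0 by omega)]
      ring
    have key := root_order (M := 2) (K := 2 * E) (C0 := 6) (C1 := 143) (by norm_num)
      (H3_diff hβ n) h0 (fun y hy => H3_norm hβ n hy) (by
      intro y hy
      obtain ⟨u, hu⟩ : ∃ u, u = y ^ E * β y := ⟨_, rfl⟩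
      obtain ⟨w, hw⟩ : ∃ w, w = BB 2 β (n + 1) y - 1 := ⟨_, rfl⟩
      have h3 : BB 2 β (n + 1) y = BB 2 β n y ^ 2 + u := by
        rw [hu, hE]
        exact BB_succ 2 β n y
      have hw1 := BB_sub_one_le le_rfl hβ (n + 1) hy
      rw [← hw, hE3] at hw1
      have hβy := hβ.bound y hy
      rw [mem_ball_zero_iff] at hy
      obtain ⟨t, ht⟩ : ∃ t, t = ‖y‖ := ⟨_, rfl⟩
      rw [← ht] at hw1 hy ⊢
      have ht0 : 0 ≤ t := by rw [ht]; exact norm_nonneg _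
      have htE : t ^ E ≤ 1 := pow_le_one₀ ht0 hy.le
      have htE0 : 0 ≤ t ^ E := by positivity
      have htE2 : t ^ (2 * E) = t ^ E * t ^ E := by rw [two_mul, pow_add]
      have hw2 : ‖w‖ ≤ 3 * (t ^ E * t ^ E) := by
        refine hw1.trans ?_
        rw [← htE2]
        apply mul_le_mul_of_nonneg_left _ (by norm_num)
        exact pow_le_pow_of_le_one ht0 hy.le (by omega)
      have hw3 : ‖w‖ ≤ 3 := by nlinarith
      have hu1 : ‖u‖ ≤ 2 * t ^ E := by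
        rw [hu, norm_mul, norm_pow, ← ht]
        nlinarith
      have hu2 : ‖u‖ ≤ 2 := by linarith
      have hid : H3 β n y ^ 2 - 1 = w * ((1 + w + u / 2) ^ 2 + (1 - u) * (2 * (1 + u / 2) + w)) -
          3 / 4 * u ^ 2 - 1 / 4 * u ^ 3 := by
        have e1 : H3 β n y = BB 2 β n y * (BB 2 β (n + 1) y + 1 / 2 * u) := by
          unfold H3
          rw [hu, hE]
        have e2 : BB 2 β n y ^ 2 = 1 + w - u := by
          have : BB 2 β (n + 1) y = 1 + w := by rw [hw]; ring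
          linear_combination this - h3
        have e3 : BB 2 β (n + 1) y = 1 + w := by rw [hw]; ring
        rw [e1, mul_pow, e2, e3]
        ring
      rw [hid, htE2]
      have hQ : ‖(1 + w + u / 2) ^ 2 + (1 - u) * (2 * (1 + u / 2) + w)‖ ≤ 46 := by
        have f1 : ‖u / 2‖ ≤ 1 := by
          rw [norm_div]
          norm_num
          linarith
        have f2 : ‖1 + w + u / 2‖ ≤ 5 := by
          have g1 := norm_add_le (1 + w) (u / 2)
          have g2 := norm_add_le 1 w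
          rw [norm_one] at g2
          linarith
        have f3 : ‖1 - u‖ ≤ 3 := by
          have g2 := norm_sub_le 1 u
          rw [norm_one] at g2
          linarith
        have f4 : ‖2 * (1 + u / 2) + w‖ ≤ 7 := by
          have g1 := norm_add_le (2 * (1 + u / 2)) w
          have g2 := norm_add_le 1 (u / 2)
          rw [norm_one] at g2
          rw [norm_mul] at g1
          norm_num at g1
          linarith
        refine (norm_add_le _ _).trans ?_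
        rw [norm_mul, norm_pow]
        have f5 : ‖1 + w + u / 2‖ ^ 2 ≤ 5 ^ 2 := pow_le_pow_left₀ (norm_nonneg _) f2 2
        have f6 : ‖1 - u‖ * ‖2 * (1 + u / 2) + w‖ ≤ 3 * 7 :=
          mul_le_mul f3 f4 (norm_nonneg _) (by norm_num)
        linarith
      refine (norm_sub_le _ _).trans ?_
      have k1 := norm_sub_le (w * ((1 + w + u / 2) ^ 2 + (1 - u) * (2 * (1 + u / 2) + w)))
        (3 / 4 * u ^ 2)
      have k2 : ‖w * ((1 + w + u / 2) ^ 2 + (1 - u) * (2 * (1 + u / 2) + w))‖ ≤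
          3 * (t ^ E * t ^ E) * 46 := by
        rw [norm_mul]
        exact mul_le_mul hw2 hQ (norm_nonneg _) (by positivity)
      have k3 : ‖3 / 4 * u ^ 2‖ ≤ 3 / 4 * (2 * t ^ E) ^ 2 := by
        rw [norm_mul, norm_pow]
        have : ‖(3 / 4 : ℂ)‖ = 3 / 4 := by norm_num
        rw [this]
        gcongr
      have k4 : ‖1 / 4 * u ^ 3‖ ≤ 1 / 4 * (2 * t ^ E) ^ 3 := by
        rw [norm_mul, norm_pow]
        have : ‖(1 / 4 : ℂ)‖ = 1 / 4 := by norm_num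
        rw [this]
        gcongr
      have k5 : (2 * t ^ E) ^ 3 ≤ 8 * (t ^ E * t ^ E) := by
        have : (2 * t ^ E) ^ 3 = 8 * (t ^ E * t ^ E) * t ^ E := by ring
        rw [this]
        exact mul_le_of_le_one_right (by positivity) htE
      have k6 : (2 * t ^ E) ^ 2 = 4 * (t ^ E * t ^ E) := by ring
      rw [k6] at k3
      linarith) x hx
    rw [hE2]
    refine key.trans ?_
    have : 0 ≤ ‖x‖ ^ (2 * E) := by positivity
    linarith
  · intro n w hw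
    have hm := (mem_multibrot_iff (d := 2) le_rfl w).1 hw
    have hw1 : ‖w‖ ≤ 2 := by
      have := hm 1
      rwa [P_one le_rfl] at this
    have hw2 := hm (n + 1)
    have h1 : (GG 2 T3 1 n).eval w = P 2 (n + 1) w * (P 2 (n + 1) w ^ 2 + 3 / 2 * w) := by
      unfold GG T3
      simp only [Polynomial.eval_add, Polynomial.eval_X, Polynomial.eval_C, Polynomial.eval_mul,
        Polynomial.eval_pow, pow_one, eval_PP]
    rw [h1, norm_mul]
    have h2 : ‖P 2 (n + 1) w ^ 2 + 3 / 2 * w‖ ≤ 7 := by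
      refine (norm_add_le _ _).trans ?_
      rw [norm_pow, norm_mul]
      have e1 : ‖(3 / 2 : ℂ)‖ = 3 / 2 := by norm_num
      rw [e1]
      have e2 : ‖P 2 (n + 1) w‖ ^ 2 ≤ 2 ^ 2 := pow_le_pow_left₀ (norm_nonneg _) hw2 2
      linarith
    calc ‖P 2 (n + 1) w‖ * ‖P 2 (n + 1) w ^ 2 + 3 / 2 * w‖ ≤ 2 * 7 := by gcongr
      _ = 14 := by norm_num

theorem tcBB_zero {d : ℕ} (hd : 2 ≤ d) (hβ : IsBeta d β) (n : ℕ) {k : ℕ} (hk : 1 ≤ k)
    (hk2 : k < d ^ (n + 1) - 1) : tc (BB d β n) k = 0 := by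
  have h4 := tc_eq_zero_of_order (F := fun x => BB d β n x - 1) one_pos hk2
    ((BB_diff hβ.diff n).sub_const _) (fun x hx => BB_sub_one_le hd hβ n hx)
  rw [tc_sub one_pos (BB_diff hβ.diff n) (differentiableOn_const (c := (1 : ℂ)))] at h4
  obtain ⟨l, rfl⟩ := Nat.exists_eq_add_of_le' hk
  rw [tc_const_succ, sub_zero] at h4
  exact h4

theorem tcBB_one {d : ℕ} (hd : 2 ≤ d) (hβ : IsBeta d β) (n : ℕ) : tc (BB d β n) 0 = 1 := by
  rw [tc_zero, BB_zero_val hd hβ]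

theorem tc_mul_r {F G : ℂ → ℂ} (hF : DifferentiableOn ℂ F (ball 0 1))
    (hG : DifferentiableOn ℂ G (ball 0 1)) (n : ℕ) :
    tc (fun x => F x * G x) n = ∑ i ∈ Finset.range (n + 1), tc F i * tc G (n - i) := by
  rw [tc_mul one_pos hF hG, Finset.Nat.sum_antidiagonal_eq_sum_range_succ_mk]

/-- the recursion for the coefficients -/
theorem rec_coef (hβ : IsBeta 2 β) (n k : ℕ) :
    tc (BB 2 β (n + 1)) k = ∑ i ∈ Finset.range (k + 1), tc (BB 2 β n) i * tc (BB 2 β n) (k - i) +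
      if k < 2 ^ (n + 1) - 1 then 0 else tc β (k - (2 ^ (n + 1) - 1)) := by
  have h1 := BB_diff (d := 2) hβ.diff n
  have h2 : BB 2 β (n + 1) = fun x => BB 2 β n x * BB 2 β n x + x ^ (2 ^ (n + 1) - 1) * β x := by
    funext x
    rw [BB_succ, sq]
  have h3 : DifferentiableOn ℂ (fun x => x ^ (2 ^ (n + 1) - 1) * β x) (ball 0 1) :=
    DifferentiableOn.mul (by fun_prop) hβ.diff
  have h4 : DifferentiableOn ℂ (fun x => BB 2 β n x * BB 2 β n x) (ball 0 1) := h1.mul h1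
  rw [h2, tc_add one_pos h4 h3, tc_mul_r h1 h1]
  congr 1
  obtain ⟨h5, h6⟩ := tc_pow_id_mul hβ.diff (2 ^ (n + 1) - 1)
  split_ifs with h
  · exact h6 k h
  · have h7 := h5 (k - (2 ^ (n + 1) - 1))
    rwa [show 2 ^ (n + 1) - 1 + (k - (2 ^ (n + 1) - 1)) = k by omega] at h7

theorem beta_values (hβ : IsBeta 2 β) : tc β 0 = 1 ∧ tc β 1 = -1 / 2 ∧ tc β 2 = 1 / 8 ∧
    tc β 3 = -1 / 4 ∧ tc (BB 2 β 1) 3 = -1 / 2 ∧ tc (BB 2 β 1) 4 = 1 / 4 ∧
    tc (BB 2 β 1) 5 = -1 / 16 ∧ tc (BB 2 β 1) 6 = 0 := by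
  have hd : 2 ≤ 2 := le_rfl
  have b0 : tc β 0 = 1 := tcBB_one hd hβ 0
  have v0 := tcBB_one hd hβ 1
  have v1 : tc (BB 2 β 1) 1 = 0 := tcBB_zero hd hβ 1 le_rfl (by norm_num)
  have v2 : tc (BB 2 β 1) 2 = 0 := tcBB_zero hd hβ 1 (by norm_num) (by norm_num)
  have e1 := rec_coef hβ 0 1
  have e2 := rec_coef hβ 0 2
  have e3 := rec_coef hβ 0 3
  have f3 := rec_coef hβ 1 3
  have f4 := rec_coef hβ 1 4
  have f5 := rec_coef hβ 1 5
  have f6 := rec_coef hβ 1 6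
  have w3 : tc (BB 2 β 2) 3 = 0 := tcBB_zero hd hβ 2 (by norm_num) (by norm_num)
  have w4 : tc (BB 2 β 2) 4 = 0 := tcBB_zero hd hβ 2 (by norm_num) (by norm_num)
  have w5 : tc (BB 2 β 2) 5 = 0 := tcBB_zero hd hβ 2 (by norm_num) (by norm_num)
  have w6 : tc (BB 2 β 2) 6 = 0 := tcBB_zero hd hβ 2 (by norm_num) (by norm_num)
  simp only [BB_zero, zero_add, Nat.reduceAdd, Nat.reducePow, Nat.reduceSub, Nat.reduceLT,
    if_true, if_false, Finset.sum_range_succ, Finset.sum_range_zero, Nat.sub_zero, Nat.sub_self]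
    at e1 e2 e3 f3 f4 f5 f6
  norm_num at e1 e2 e3 f3 f4 f5 f6
  rw [v1, b0] at e1
  have b1 : tc β 1 = -1 / 2 := by linear_combination (-1 / 2 : ℂ) * e1
  rw [v2, b0, b1] at e2
  have b2 : tc β 2 = 1 / 8 := by linear_combination (-1 / 2 : ℂ) * e2
  rw [w3, v0, v1, v2, b0] at f3
  have v3 : tc (BB 2 β 1) 3 = -1 / 2 := by linear_combination (-1 / 2 : ℂ) * f3
  rw [v3, b0, b1, b2] at e3
  have b3 : tc β 3 = -1 / 4 := by linear_combination (-1 / 2 : ℂ) * e3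
  rw [w4, v0, v1, v2, v3, b1] at f4
  have v4 : tc (BB 2 β 1) 4 = 1 / 4 := by linear_combination (-1 / 2 : ℂ) * f4
  rw [w5, v0, v1, v2, v3, v4, b2] at f5
  have v5 : tc (BB 2 β 1) 5 = -1 / 16 := by linear_combination (-1 / 2 : ℂ) * f5
  rw [w6, v0, v1, v2, v3, v4, v5, b3] at f6
  have v6 : tc (BB 2 β 1) 6 = 0 := by linear_combination (-1 / 2 : ℂ) * f6
  exact ⟨b0, b1, b2, b3, v3, v4, v5, v6⟩

theorem tc_H3 (hβ : IsBeta 2 β) (n k : ℕ) : tc (H3 β n) k =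
    ∑ i ∈ Finset.range (k + 1), tc (BB 2 β n) i * (tc (BB 2 β (n + 1)) (k - i) +
      if k - i < 2 ^ (n + 1) - 1 then 0 else 1 / 2 * tc β (k - i - (2 ^ (n + 1) - 1))) := by
  have h1 := BB_diff (d := 2) hβ.diff n
  have h2 := BB_diff (d := 2) hβ.diff (n + 1)
  have h3 : DifferentiableOn ℂ (fun x => x ^ (2 ^ (n + 1) - 1) * β x) (ball 0 1) :=
    DifferentiableOn.mul (by fun_prop) hβ.diff
  have h4 : DifferentiableOn ℂ (fun x => (1 / 2 : ℂ) * (x ^ (2 ^ (n + 1) - 1) * β x)) (ball 0 1) :=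
    h3.const_mul _
  have h5 : DifferentiableOn ℂ (fun x => BB 2 β (n + 1) x +
      1 / 2 * (x ^ (2 ^ (n + 1) - 1) * β x)) (ball 0 1) := h2.add h4
  unfold H3
  rw [tc_mul_r h1 h5]
  apply Finset.sum_congr rfl
  intro i _
  rw [tc_add one_pos h2 h4]
  congr 2
  have h6 : tc (fun x => (1 / 2 : ℂ) * (x ^ (2 ^ (n + 1) - 1) * β x)) (k - i) =
      1 / 2 * tc (fun x => x ^ (2 ^ (n + 1) - 1) * β x) (k - i) := by
    unfold tc
    rw [iteratedDeriv_const_mul_field]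
    ring
  rw [h6]
  obtain ⟨h7, h8⟩ := tc_pow_id_mul hβ.diff (2 ^ (n + 1) - 1)
  split_ifs with h
  · rw [h8 _ h, mul_zero]
  · have h9 := h7 (k - i - (2 ^ (n + 1) - 1))
    rw [show 2 ^ (n + 1) - 1 + (k - i - (2 ^ (n + 1) - 1)) = k - i by omega] at h9
    rw [h9]

theorem lim3 (hβ : IsBeta 2 β) : lim 2 β T3 1 3 2 = -11 / 96 := by
  obtain ⟨b0, b1, b2, b3, v3, v4, v5, v6⟩ := beta_values hβ
  have hd : 2 ≤ 2 := le_rfl
  have v0 := tcBB_one hd hβ 1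
  have v1 : tc (BB 2 β 1) 1 = 0 := tcBB_zero hd hβ 1 le_rfl (by norm_num)
  have v2 : tc (BB 2 β 1) 2 = 0 := tcBB_zero hd hβ 1 (by norm_num) (by norm_num)
  have w0 := tcBB_one hd hβ 2
  have w1 : tc (BB 2 β 2) 1 = 0 := tcBB_zero hd hβ 2 (by norm_num) (by norm_num)
  have w2 : tc (BB 2 β 2) 2 = 0 := tcBB_zero hd hβ 2 (by norm_num) (by norm_num)
  have w3 : tc (BB 2 β 2) 3 = 0 := tcBB_zero hd hβ 2 (by norm_num) (by norm_num)
  have w4 : tc (BB 2 β 2) 4 = 0 := tcBB_zero hd hβ 2 (by norm_num) (by norm_num)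
  have w5 : tc (BB 2 β 2) 5 = 0 := tcBB_zero hd hβ 2 (by norm_num) (by norm_num)
  have w6 : tc (BB 2 β 2) 6 = 0 := tcBB_zero hd hβ 2 (by norm_num) (by norm_num)
  have g0 : gam β (GG 2 T3 1 0) = -1 / 2 := by
    rw [gam_eq hd hβ _ (3 * 2 ^ 0) (H3_diff hβ 0) (fun x _ hx0 => H3_eval 0 hx0)]
    have h := tc_H3 hβ 0 3
    simp only [BB_zero, zero_add, Nat.reduceAdd, Nat.reducePow, Nat.reduceSub, Nat.reduceLT,
      if_true, if_false, Finset.sum_range_succ, Finset.sum_range_zero, Nat.sub_zero, Nat.sub_self]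
      at h
    norm_num at h ⊢
    rw [h, b0, b1, b2, b3, v0, v1, v2, v3]
    norm_num
  have g1 : gam β (GG 2 T3 1 1) = -3 / 8 := by
    rw [gam_eq hd hβ _ (3 * 2 ^ 1) (H3_diff hβ 1) (fun x _ hx0 => H3_eval 1 hx0)]
    have h := tc_H3 hβ 1 6
    simp only [zero_add, Nat.reduceAdd, Nat.reducePow, Nat.reduceSub, Nat.reduceLT,
      if_true, if_false, Finset.sum_range_succ, Finset.sum_range_zero, Nat.sub_zero, Nat.sub_self]
      at h
    norm_num at h ⊢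
    rw [h, b0, b1, b2, b3, v0, v1, v2, v3, v4, v5, v6, w0, w1, w2, w3, w4, w5, w6]
    norm_num
  unfold lim
  rw [Finset.sum_range_succ, Finset.sum_range_succ, Finset.sum_range_zero, g0, g1]
  norm_num

end Pool.Agent.TH907.ML
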