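import Mathlib
import Pool.Agent.TH907.ML.M10
import Pool.Agent.TH907.ML.M11
import Pool.Agent.TH653.MB.A14

set_option autoImplicit false

/-! # The coefficient limits for the logarithm of the derivative of the exterior map -/

namespace Pool.Agent.TH907.ML

open Complex Set Topology Filter Metric MeasureTheory N62a1eb23 Pool.Agent.H712R2 Pool.Agent.H713R2
open Pool.Agent.TH653.MB
open Real (circleAverage)

/-- everything, in terms of the coefficient sequence `a` of `log ψ'` -/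
theorem core {d : ℕ} (hd : 2 ≤ d) {ψ : ℂ → ℂ} (hψ : IsExteriorMap (multibrotSet d) ψ) :
    ∃ (a : ℕ → ℂ) (α : ℕ → ℚ), a 0 = 0 ∧ α 0 = 0 ∧
      (∀ z : ℂ, 1 < ‖z‖ → Summable (fun m : ℕ => a m / z ^ m) ∧
        exp (∑' m : ℕ, a m / z ^ m) = deriv ψ z) ∧
      (∀ k : ℕ, 1 ≤ k → ∃ C : ℝ, ∀ n : ℕ,
        ‖a (k * d ^ n) - (α k : ℂ)‖ ≤ C / (d : ℝ) ^ (n / (2 * (d + 1)))) ∧
      (∀ k : ℕ, α (d * k) = α k) ∧
      α (d - 1) = -((d : ℚ) - 1) / (d : ℚ) ^ 2 ∧ (d = 2 → α 3 = -11 / 96) ∧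
      (∀ k : ℕ, |α k| ≤ 24) ∧
      (∀ R : ℝ, 1 < R → ∀ ε : ℝ, 0 < ε → ∃ n₀ : ℕ, ∀ n : ℕ, n₀ ≤ n → ∀ z : ℂ,
        R ≤ ‖z‖ ^ (d ^ n) →
        ‖((d : ℂ) ^ n)⁻¹ * ∑ j ∈ Finset.range (d ^ n),
            (∑' m : ℕ, a m / (z * exp (2 * Real.pi * I / (d : ℂ) ^ n) ^ j) ^ m) -
          ∑' k : ℕ, (α k : ℂ) / (z ^ (d ^ n)) ^ k‖ < ε) ∧
      (∀ S : Finset ℕ, (∀ k ∈ S, ¬ d ∣ k) → ∀ ε : ℝ, 0 < ε → ∃ r₀ : ℝ, 1 < r₀ ∧
        ∀ r : ℝ, 1 < r → r < r₀ →
          ((∑ k ∈ S, (α k : ℝ) ^ 2) / Real.log d - ε) * Real.log (1 / (r - 1)) ≤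
            (2 * Real.pi)⁻¹ * ∫ θ in (0 : ℝ)..2 * Real.pi,
              ‖∑' m : ℕ, a m / (r * exp (θ * I)) ^ m‖ ^ 2) := by
  obtain ⟨β, hβ⟩ := exists_beta hd
  obtain ⟨B, hB, hB0, hBe, hBd⟩ := exists_log hβ
  have hd0 : d ≠ 0 := by omega
  have hdC : (d : ℂ) ≠ 0 := by exact_mod_cast hd0
  have hsum : ∀ z : ℂ, 1 < ‖z‖ → HasSum (fun m : ℕ => tc B m / z ^ m) (B z⁻¹) := by
    intro z hz
    have h1 := hasSum_tc hB (inv_mem_ball hz).1
    refine h1.congr_fun ?_ |> id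
    intro m
    rw [inv_pow, div_eq_mul_inv]
  have hts : ∀ z : ℂ, 1 < ‖z‖ → ∑' m : ℕ, tc B m / z ^ m = B z⁻¹ := fun z hz => (hsum z hz).tsum_eq
  have hBl : ∀ x ∈ ball (0 : ℂ) 1, ‖x * deriv B x‖ ≤ 4 / (1 - ‖x‖) := by
    intro x hx
    rw [hBd x hx]
    exact qq_bloch hβ hx
  have hbd := coef_bounded hB hB0 hBl
  -- the limits
  have hex : ∀ k : ℕ, ∃ α : ℚ, (k = 0 → α = 0) ∧ (1 ≤ k → ∃ C : ℝ, ∀ n : ℕ,
      ‖tc B (k * d ^ n) - (α : ℂ)‖ ≤ C / (d : ℝ) ^ (n / (2 * (d + 1)))) := by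
    intro k
    rcases Nat.eq_zero_or_pos k with h | h
    · exact ⟨0, fun _ => rfl, fun h1 => by omega⟩
    · obtain ⟨α, C, h1⟩ := exists_limits hd hβ hBd h
      exact ⟨α, fun h2 => by omega, fun _ => ⟨C, h1⟩⟩
  choose α hα0 hα using hex
  have hlim : ∀ k, Tendsto (fun n => tc B (k * d ^ n)) atTop (𝓝 (α k : ℂ)) := by
    intro k
    rcases Nat.eq_zero_or_pos k with h | h
    · rw [hα0 k h, h]
      simp only [zero_mul, Rat.cast_zero]
      rw [tc_zero, hB0]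
      exact tendsto_const_nhds
    · obtain ⟨C, hC⟩ := hα k h
      rw [tendsto_iff_norm_sub_tendsto_zero]
      have h1 : Tendsto (fun n : ℕ => C / (d : ℝ) ^ (n / (2 * (d + 1)))) atTop (𝓝 0) := by
        apply Tendsto.div_atTop tendsto_const_nhds
        apply (tendsto_pow_atTop_atTop_of_one_lt (by exact_mod_cast (show 1 < d by omega))).comp
        apply Nat.tendsto_div_const_atTop
        omega
      exact squeeze_zero (fun _ => norm_nonneg _) hC h1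
  have hαd : ∀ k, α (d * k) = α k := by
    intro k
    have h1 : Tendsto (fun n => tc B (d * k * d ^ n)) atTop (𝓝 (α k : ℂ)) := by
      refine ((hlim k).comp (tendsto_add_atTop_nat 1)).congr fun n => ?_
      simp only [Function.comp]
      congr 1
      rw [pow_succ]
      ring
    have h2 := tendsto_nhds_unique (hlim (d * k)) h1
    exact_mod_cast h2
  have hα1 : α (d - 1) = -((d : ℚ) - 1) / (d : ℚ) ^ 2 := by
    have h2 := tendsto_nhds_unique (hlim (d - 1)) (log_coef_limit hd hβ hBd)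
    have h3 : (((d - 1 : ℕ) : ℂ)) = (d : ℂ) - 1 := by push_cast [Nat.cast_sub (show 1 ≤ d by omega)]; rfl
    rw [h3] at h2
    have h4 : ((α (d - 1) : ℚ) : ℂ) = ((-((d : ℚ) - 1) / (d : ℚ) ^ 2 : ℚ) : ℂ) := by
      rw [h2]
      push_cast
      ring
    exact_mod_cast h4
  have hα3 : d = 2 → α 3 = -11 / 96 := by
    intro h
    subst h
    obtain ⟨C, hC⟩ := coef_rate (d := 2) le_rfl hβ (b := 1) (a := 1) (q := 3) le_rfl (by norm_num)
      (fab3 hβ) rfl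
    rw [lim3 hβ] at hC
    have h1 : Tendsto (fun n => tc B (3 * 2 ^ n)) atTop (𝓝 ((-11 / 96 : ℚ) : ℂ)) := by
      rw [tendsto_iff_norm_sub_tendsto_zero]
      have h1 : Tendsto (fun n : ℕ => C / ((2 : ℕ) : ℝ) ^ (n / (2 * (2 + 1)))) atTop (𝓝 0) := by
        apply Tendsto.div_atTop tendsto_const_nhds
        apply (tendsto_pow_atTop_atTop_of_one_lt (by norm_num)).comp
        apply Nat.tendsto_div_const_atTop
        norm_num
      refine squeeze_zero (fun _ => norm_nonneg _) (fun n => ?_) h1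
      have h2 := hC n
      have hm1 : 1 ≤ 3 * 2 ^ n := Nat.mul_pos (by norm_num) (pow_pos (by norm_num) _)
      have h3 : (3 * 2 ^ n - 1 : ℕ) + 1 = 3 * 2 ^ n := Nat.sub_add_cancel hm1
      have h4 : ((3 * 2 ^ n : ℕ) : ℂ) ≠ 0 := by exact_mod_cast (by omega : 3 * 2 ^ n ≠ 0)
      have h5 := tc_log hβ hBd (3 * 2 ^ n - 1)
      rw [h3] at h5
      have h6 : (((3 * 2 ^ n - 1 : ℕ) : ℂ) + 1) = ((3 * 2 ^ n : ℕ) : ℂ) := by
        rw [← Nat.cast_add_one, h3]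
      rw [h5, h6, mul_div_cancel_left₀ _ h4] at h2
      push_cast at h2 ⊢
      exact h2
    have h2 := tendsto_nhds_unique (hlim 3) h1
    exact_mod_cast h2
  have hα24 : ∀ k, |α k| ≤ 24 := by
    intro k
    have h1 : ‖((α k : ℚ) : ℂ)‖ ≤ 24 := le_of_tendsto (hlim k).norm (Eventually.of_forall fun n => hbd _)
    have h2 : ‖((α k : ℚ) : ℂ)‖ = ((|α k| : ℚ) : ℝ) := by
      have : ((α k : ℚ) : ℂ) = (((α k : ℚ) : ℝ) : ℂ) := by push_cast; rfl
      rw [this, Complex.norm_real, Real.norm_eq_abs]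
      push_cast
      rfl
    rw [h2] at h1
    exact_mod_cast h1
  refine ⟨tc B, α, by rw [tc_zero, hB0], hα0 0 rfl, fun z hz => ⟨(hsum z hz).summable, ?_⟩,
    fun k hk => hα k hk, hαd, hα1, hα3, hα24, ?_, ?_⟩
  · rw [hts z hz, hBe _ (inv_mem_ball hz).1, (hasDerivAt_psi hβ hψ hz).deriv]
  · intro R hR ε hε
    have hR0 : 0 < R := by linarith
    obtain ⟨n₀, h1⟩ := avg_tendsto hd hB hbd hlim (ϱ := R⁻¹) (by positivity)
      (inv_lt_one_of_one_lt₀ hR) hε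
    refine ⟨n₀, fun n hn z hz => ?_⟩
    have hdn : d ^ n ≠ 0 := pow_ne_zero _ hd0
    have hz1 : 1 < ‖z‖ := by
      by_contra h
      push Not at h
      have := pow_le_one₀ (n := d ^ n) (norm_nonneg z) h
      linarith
    obtain ⟨hx, hx0⟩ := inv_mem_ball hz1
    obtain ⟨ω, hω⟩ : ∃ ω, ω = exp (2 * Real.pi * I / (d : ℂ) ^ n) := ⟨_, rfl⟩
    have hωp : IsPrimitiveRoot ω (d ^ n) := by
      have := Complex.isPrimitiveRoot_exp (d ^ n) hdn
      rw [hω]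
      push_cast at this
      exact this
    have hω1 : ‖ω‖ = 1 := hωp.norm'_eq_one hdn
    have h2 := h1 n hn ω⁻¹ hωp.inv z⁻¹ hx (by
      rw [norm_pow, norm_inv, inv_pow]
      exact inv_anti₀ hR0 hz)
    rw [← hω]
    have h3 : ∀ j : ℕ, ∑' m : ℕ, tc B m / (z * ω ^ j) ^ m = B (z⁻¹ * ω⁻¹ ^ j) := by
      intro j
      rw [hts]
      · rw [mul_inv, inv_pow]
      · rw [norm_mul, norm_pow, hω1, one_pow, mul_one]
        exact hz1
    simp only [h3]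
    have h4 : (fun k : ℕ => (α k : ℂ) / (z ^ (d ^ n)) ^ k) =
        fun k : ℕ => (α k : ℂ) * (z⁻¹ ^ (d ^ n)) ^ k := by
      funext k
      rw [inv_pow, inv_pow, div_eq_mul_inv]
    rw [h4]
    push_cast at h2
    exact h2
  · intro S hS ε hε
    obtain ⟨ρ₀, h1, h2, h3⟩ := variance hd hB (α := fun k => (α k : ℂ)) hlim S hS hε
    have hρ0 : 0 < ρ₀ := by linarith
    refine ⟨ρ₀⁻¹, (one_lt_inv₀ hρ0).2 h2, fun r hr1 hr2 => ?_⟩
    have hrp : 0 < r := by linarith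
    have hr22 : r < 2 := by
      refine hr2.trans_le ?_
      rw [inv_le_comm₀ hρ0 (by norm_num)]
      linarith
    obtain ⟨ρ, hρ⟩ : ∃ ρ, ρ = r⁻¹ := ⟨_, rfl⟩
    have hρp : 0 < ρ := by rw [hρ]; positivity
    have hρlt : ρ < 1 := by rw [hρ]; exact inv_lt_one_of_one_lt₀ hr1
    have hρgt : ρ₀ < ρ := by
      rw [hρ]
      rwa [lt_inv_comm₀ hρ0 hrp]
    have hy : 0 < 1 - ρ := by linarith
    have hy1 : 1 - ρ = (r - 1) / r := by rw [hρ]; field_simp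
    have hz : ∀ θ : ℝ, ‖(r : ℂ) * exp (θ * I)‖ = r := by
      intro θ
      rw [norm_mul, Complex.norm_exp_ofReal_mul_I, mul_one, Complex.norm_real,
        Real.norm_of_nonneg hrp.le]
    have hz1 : ∀ θ : ℝ, 1 < ‖(r : ℂ) * exp (θ * I)‖ := fun θ => by rw [hz]; exact hr1
    have hlog : Real.log (1 / (r - 1)) ≤ Real.log (1 / (1 - ρ)) := by
      apply Real.log_le_log (by have : 0 < r - 1 := by linarith
                                positivity)
      apply one_div_le_one_div_of_le hy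
      rw [hy1, div_le_iff₀ hrp]
      nlinarith
    have hlog0 : 0 ≤ Real.log (1 / (r - 1)) := by
      apply Real.log_nonneg
      rw [le_div_iff₀ (by linarith)]
      linarith
    have h4 : (2 * Real.pi)⁻¹ * ∫ θ in (0 : ℝ)..2 * Real.pi,
        ‖∑' m : ℕ, tc B m / (r * exp (θ * I)) ^ m‖ ^ 2 =
        circleAverage (fun x => ‖B x‖ ^ 2) 0 ρ := by
      rw [hρ, ← av_inv, av_eq]
      congr 1
      apply intervalIntegral.integral_congr
      intro θ _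
      simp only
      rw [hts _ (hz1 θ)]
    rw [h4]
    have h5 := h3 ρ hρgt hρlt
    have h6 : ∑ k ∈ S, ‖((α k : ℚ) : ℂ)‖ ^ 2 = ∑ k ∈ S, ((α k : ℚ) : ℝ) ^ 2 := by
      apply Finset.sum_congr rfl
      intro k _
      have : ((α k : ℚ) : ℂ) = (((α k : ℚ) : ℝ) : ℂ) := by push_cast; rfl
      rw [this, Complex.norm_real, Real.norm_eq_abs, sq_abs]
    rw [h6] at h5
    obtain ⟨V, hV⟩ : ∃ V, V = (∑ k ∈ S, ((α k : ℚ) : ℝ) ^ 2) / Real.log d - ε := ⟨_, rfl⟩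
    rw [← hV] at h5 ⊢
    rcases le_or_gt 0 V with h7 | h7
    · exact (mul_le_mul_of_nonneg_left hlog h7).trans h5
    · refine (mul_nonpos_of_nonpos_of_nonneg h7.le hlog0).trans ?_
      exact (hasSum_sq_tc hρp hρlt hB).nonneg fun _ => by positivity

end Pool.Agent.TH907.ML
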